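import Pool.Agent.Lib.MP_7f581e_ntX.Defs
import Pool.Agent.Lib.MP_7f581e_nt.AutPow

/-!
The automorphism group of A_6 as a group of permutations of six points and six totals, and group
extensions whose kernel is a power of a simple group.
-/

set_option autoImplicit false
set_option linter.unusedSimpArgs false

namespace MP7fX

open Equiv Equiv.Perm Pool.Agent.Lib.MP_7f581e_nt.AutAlt

namespace AutAux

theorem swap_table : ∀ i j s t u : Fin 6, i ≠ j →
    swap i j (mt s t u) = mt (mt i j s) (mt i j t) (swap i j u) := by decide +kernel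

theorem mt_table : ∀ s s' : Fin 6, (∀ t, ∃ t', ∀ i, mt s t i = mt s' t' i) → s = s' := by
  decide +kernel

/-- the permutation of the totals induced by a transposition of points -/
def qs (i j : Fin 6) : Perm (Fin 6) := ⟨fun s => mt i j s, fun s => mt i j s, fun s => mt_mt i j s, fun s => mt_mt i j s⟩

theorem sign_qs : ∀ i j : Fin 6, i ≠ j → Perm.sign (qs i j) = -1 := by decide +kernel

theorem exists_cmp_sign (P : Perm (Fin 6)) : ∃ Q, Cmp P Q ∧ Perm.sign Q = Perm.sign P := by
  induction P using Equiv.Perm.swap_induction_on with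
  | one => exact ⟨1, Cmp.one, rfl⟩
  | swap_mul P i j hij ih =>
    obtain ⟨Q, h, hs⟩ := ih
    have h1 : Cmp (swap i j) (qs i j) := fun s t u => swap_table i j s t u hij
    refine ⟨qs i j * Q, h1.mul h, ?_⟩
    rw [Perm.sign_mul, Perm.sign_mul, sign_qs i j hij, Perm.sign_swap hij, hs]

theorem cmp_unique {P Q Q' : Perm (Fin 6)} (h : Cmp P Q) (h' : Cmp P Q') : Q = Q' := by
  ext1 s
  apply mt_table
  intro t
  obtain ⟨t, rfl⟩ := Q.surjective t
  refine ⟨Q' t, fun i => ?_⟩
  obtain ⟨i, rfl⟩ := P.surjective i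
  rw [← h, ← h']

theorem cmp_unique' {P P' Q : Perm (Fin 6)} (h : Cmp P Q) (h' : Cmp P' Q) : P = P' :=
  cmp_unique h.symm h'.symm

theorem cmp_sign {P Q : Perm (Fin 6)} (h : Cmp P Q) : Perm.sign Q = Perm.sign P := by
  obtain ⟨Q', h', hs⟩ := exists_cmp_sign P
  rw [cmp_unique h h', hs]

/-- the permutation of the points and totals given by `(b, P, Q)` -/
def el (b : ZMod 2) (P Q : Perm (Fin 6)) : Perm (ZMod 2 × Fin 6) :=
  Equiv.prodShear (Equiv.addRight b) (fun c => if c = 0 then P else Q)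

theorem el_zero (b : ZMod 2) (P Q : Perm (Fin 6)) (i : Fin 6) : el b P Q (0, i) = (b, P i) := by
  simp [el]

theorem el_one (b : ZMod 2) (P Q : Perm (Fin 6)) (s : Fin 6) :
    el b P Q (1, s) = (b + 1, Q s) := by
  simp [el, add_comm]

theorem el_mem {b : ZMod 2} {P Q : Perm (Fin 6)} (h : Cmp P Q) : el b P Q ∈ H :=
  ⟨b, P, Q, h, el_zero b P Q, el_one b P Q⟩

theorem two_cases (c : ZMod 2) : c = 0 ∨ c = 1 := by
  revert c
  decide

/-- two elements of `H` agree if they agree on points and totals -/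
theorem ext_H {x y : H} (h0 : ∀ i, (x : Perm (ZMod 2 × Fin 6)) (0, i) = (y : Perm _) (0, i))
    (h1 : ∀ i, (x : Perm (ZMod 2 × Fin 6)) (1, i) = (y : Perm _) (1, i)) : x = y := by
  apply Subtype.ext
  apply Equiv.ext
  rintro ⟨c, i⟩
  rcases two_cases c with rfl | rfl
  · exact h0 i
  · exact h1 i

/-- the permutation of the totals induced by `P` -/
noncomputable def tot (P : Perm (Fin 6)) : Perm (Fin 6) := (exists_cmp_sign P).choose

theorem cmp_tot (P : Perm (Fin 6)) : Cmp P (tot P) := (exists_cmp_sign P).choose_spec.1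

theorem sign_tot (P : Perm (Fin 6)) : Perm.sign (tot P) = Perm.sign P :=
  (exists_cmp_sign P).choose_spec.2

theorem tot_mul (P P' : Perm (Fin 6)) : tot (P * P') = tot P * tot P' :=
  cmp_unique (cmp_tot _) ((cmp_tot P).mul (cmp_tot P'))

theorem tot_tot (P : Perm (Fin 6)) : tot (tot P) = P :=
  cmp_unique (cmp_tot (tot P)) (cmp_tot P).symm

/-- the outer automorphism of `A_6` -/
noncomputable def theta : alternatingGroup (Fin 6) ≃* alternatingGroup (Fin 6) where
  toFun a := ⟨tot a, by rw [mem_alternatingGroup, sign_tot]; exact a.2⟩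
  invFun a := ⟨tot a, by rw [mem_alternatingGroup, sign_tot]; exact a.2⟩
  left_inv a := Subtype.ext (tot_tot a)
  right_inv a := Subtype.ext (tot_tot a)
  map_mul' a b := Subtype.ext (tot_mul a b)

theorem coe_theta (a : alternatingGroup (Fin 6)) : (theta a : Perm (Fin 6)) = tot a := rfl

end AutAux

open AutAux

/-- `A_6` as a subgroup of `H` -/
noncomputable def kap : alternatingGroup (Fin 6) →* H where
  toFun a := ⟨el 0 a (tot a), el_mem (cmp_tot a)⟩
  map_one' := by
    apply ext_H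
    · intro i
      change el 0 _ _ _ = _
      rw [el_zero]
      rfl
    · intro i
      change el 0 _ _ _ = _
      have h1 : tot ((1 : alternatingGroup (Fin 6)) : Perm (Fin 6)) = 1 :=
        cmp_unique (cmp_tot _) Cmp.one
      rw [el_one, h1]
      rfl
  map_mul' a b := by
    apply ext_H
    · intro i
      change el 0 _ _ _ = el 0 _ _ (el 0 _ _ _)
      rw [el_zero, el_zero, el_zero]
      rfl
    · intro i
      change el 0 _ _ _ = el 0 _ _ (el 0 _ _ _)
      rw [el_one, el_one, zero_add, el_one, Subgroup.coe_mul, tot_mul]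
      simp

theorem kap_zero (a : alternatingGroup (Fin 6)) (i : Fin 6) :
    (kap a : Perm (ZMod 2 × Fin 6)) (0, i) = (0, (a : Perm (Fin 6)) i) := by
  change el 0 _ _ _ = _
  rw [el_zero]

theorem kap_one' (a : alternatingGroup (Fin 6)) (i : Fin 6) :
    (kap a : Perm (ZMod 2 × Fin 6)) (1, i) = (1, tot a i) := by
  change el 0 _ _ _ = _
  rw [el_one, zero_add]

theorem kap_apply (a : alternatingGroup (Fin 6)) {Q : Perm (Fin 6)}
    (h : Cmp (a : Perm (Fin 6)) Q) :
    (∀ i, (kap a : Perm (ZMod 2 × Fin 6)) (0, i) = (0, (a : Perm (Fin 6)) i)) ∧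
    ∀ s, (kap a : Perm (ZMod 2 × Fin 6)) (1, s) = (1, Q s) := by
  refine ⟨kap_zero a, fun s => ?_⟩
  rw [kap_one', cmp_unique h (cmp_tot a)]

theorem kap_injective : Function.Injective kap := by
  intro a b h
  apply Subtype.ext
  apply Equiv.ext
  intro i
  have h1 := kap_zero a i
  rw [h, kap_zero b i] at h1
  exact (Prod.ext_iff.1 h1).2.symm

theorem mem_range_kap (p : H) : p ∈ kap.range ↔ ∃ P Q : Perm (Fin 6), Cmp P Q ∧
    Perm.sign P = 1 ∧ (∀ i, (p : Perm (ZMod 2 × Fin 6)) (0, i) = (0, P i)) ∧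
    ∀ s, (p : Perm (ZMod 2 × Fin 6)) (1, s) = (1, Q s) := by
  constructor
  · rintro ⟨a, rfl⟩
    exact ⟨a, tot a, cmp_tot a, a.2, kap_zero a, kap_one' a⟩
  · rintro ⟨P, Q, h, hs, h0, h1⟩
    refine ⟨⟨P, hs⟩, ?_⟩
    obtain ⟨k0, k1⟩ := kap_apply ⟨P, hs⟩ h
    exact ext_H (fun i => (k0 i).trans (h0 i).symm) (fun i => (k1 i).trans (h1 i).symm)

namespace AutAux

/-- the involution exchanging points and totals -/
def ww : H := ⟨el 1 1 1, el_mem Cmp.one⟩

theorem ww_zero (i : Fin 6) : (ww : Perm (ZMod 2 × Fin 6)) (0, i) = (1, i) := by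
  change el 1 1 1 (0, i) = _
  rw [el_zero]
  rfl

theorem ww_one (i : Fin 6) : (ww : Perm (ZMod 2 × Fin 6)) (1, i) = (0, i) := by
  change el 1 1 1 (1, i) = _
  rw [el_one]
  rfl

theorem kap_theta (a : alternatingGroup (Fin 6)) : kap (theta a) * ww = ww * kap a := by
  apply ext_H
  · intro i
    change (kap (theta a) : Perm (ZMod 2 × Fin 6)) ((ww : Perm (ZMod 2 × Fin 6)) _) =
      (ww : Perm (ZMod 2 × Fin 6)) ((kap a : Perm (ZMod 2 × Fin 6)) _)
    rw [ww_zero, kap_one', kap_zero, ww_zero, coe_theta, tot_tot]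
  · intro i
    change (kap (theta a) : Perm (ZMod 2 × Fin 6)) ((ww : Perm (ZMod 2 × Fin 6)) _) =
      (ww : Perm (ZMod 2 × Fin 6)) ((kap a : Perm (ZMod 2 × Fin 6)) _)
    rw [ww_one, kap_zero, kap_one', ww_one, coe_theta]

/-- the element of `H` attached to a permutation of the points -/
noncomputable def hh (σ : Perm (Fin 6)) : H := ⟨el 0 σ (tot σ), el_mem (cmp_tot σ)⟩

theorem hh_zero (σ : Perm (Fin 6)) (i : Fin 6) :
    (hh σ : Perm (ZMod 2 × Fin 6)) (0, i) = (0, σ i) := by
  change el 0 _ _ _ = _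
  rw [el_zero]

theorem hh_one (σ : Perm (Fin 6)) (i : Fin 6) :
    (hh σ : Perm (ZMod 2 × Fin 6)) (1, i) = (1, tot σ i) := by
  change el 0 _ _ _ = _
  rw [el_one, zero_add]

theorem kap_conj {σ : Perm (Fin 6)} {a b : alternatingGroup (Fin 6)}
    (h : (b : Perm (Fin 6)) = σ * a * σ⁻¹) : kap b * hh σ = hh σ * kap a := by
  have h' : (b : Perm (Fin 6)) * σ = σ * a := by rw [h]; group
  have h'' : tot b * tot σ = tot σ * tot a := by
    rw [← tot_mul, ← tot_mul, h']
  apply ext_H
  · intro i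
    change (kap b : Perm (ZMod 2 × Fin 6)) ((hh σ : Perm (ZMod 2 × Fin 6)) _) =
      (hh σ : Perm (ZMod 2 × Fin 6)) ((kap a : Perm (ZMod 2 × Fin 6)) _)
    rw [hh_zero, kap_zero, kap_zero, hh_zero]
    exact congrArg (fun z : Perm (Fin 6) => ((0 : ZMod 2), z i)) h'
  · intro i
    change (kap b : Perm (ZMod 2 × Fin 6)) ((hh σ : Perm (ZMod 2 × Fin 6)) _) =
      (hh σ : Perm (ZMod 2 × Fin 6)) ((kap a : Perm (ZMod 2 × Fin 6)) _)
    rw [hh_one, kap_one', kap_one', hh_one]
    exact congrArg (fun z : Perm (Fin 6) => ((1 : ZMod 2), z i)) h''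

/-- the product of two 3-cycles attached to the 3-cycle `0 → 1 → 2 → 0` -/
theorem three_table : ∃ Q : Perm (Fin 6), Cmp (cyc 0 1 2) Q ∧ ∀ i, Q i ≠ i := by
  refine ⟨qs 0 1 * qs 1 2, ?_, ?_⟩
  · exact Cmp.mul (fun s t u => swap_table 0 1 s t u (by decide))
      (fun s t u => swap_table 1 2 s t u (by decide))
  · decide

/-- an automorphism of an alternating group mapping 3-cycles to 3-cycles is the conjugation by a
permutation -/
theorem aut_of_three {α : Type*} [Fintype α] [DecidableEq α] (h5 : 5 ≤ Fintype.card α)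
    (φ : alternatingGroup α ≃* alternatingGroup α)
    (h3 : ∀ x : alternatingGroup α, IsThreeCycle (x : Perm α) → IsThreeCycle (φ x : Perm α)) :
    ∃ σ : Perm α, ∀ x : alternatingGroup α, (φ x : Perm α) = σ * x * σ⁻¹ := by
  obtain ⟨p, q, hpq⟩ : ∃ p q : α, p ≠ q := Fintype.exists_pair_of_one_lt_card (by omega)
  obtain ⟨i0, hi0⟩ : ∃ i, i ∉ ({p, q} : Finset α) := by
    by_contra hcon
    push Not at hcon
    have := Finset.card_le_card (fun p _ => hcon p : (Finset.univ : Finset α) ⊆ {p, q})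
    rw [Finset.card_univ] at this
    have := this.trans Finset.card_le_two
    omega
  obtain ⟨i1, hi1⟩ : ∃ i, i ∉ ({p, q, i0} : Finset α) := by
    by_contra hcon
    push Not at hcon
    have := Finset.card_le_card (fun p _ => hcon p : (Finset.univ : Finset α) ⊆ {p, q, i0})
    rw [Finset.card_univ] at this
    have := this.trans Finset.card_le_three
    omega
  simp only [Finset.mem_insert, Finset.mem_singleton, not_or] at hi0 hi1
  let I := {i : α // i ≠ p ∧ i ≠ q}
  let X : I → alternatingGroup α := fun i => ⟨cyc p q i, cyc_mem_alt hpq i.2.2.symm i.2.1⟩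
  let Y : I → Perm α := fun i => (φ (X i) : Perm α)
  have hXT : ∀ i : I, Tri (X i : Perm α) p q i := fun i => tri_cyc hpq i.2.2.symm i.2.1
  have hY3 : ∀ i, IsThreeCycle (Y i) := fun i => h3 (X i) (hXT i).isThreeCycle
  have hYT : ∀ i, ∃ a b c, Tri (Y i) a b c := by
    intro i
    obtain ⟨a, ha⟩ : ∃ a, Y i a ≠ a := by
      by_contra hcon
      push Not at hcon
      exact (hY3 i).ne_one (Equiv.ext hcon)
    exact ⟨a, _, _, tri_of_isThreeCycle (hY3 i) ha⟩
  have hX2 : ∀ i j : I, i ≠ j → (X i * X j) ^ 2 = 1 ∧ X i * X j ≠ 1 := by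
    intro i j hij
    obtain ⟨-, -, -, A1, A2, A3, A4⟩ := hXT i
    obtain ⟨-, -, -, B1, B2, B3, B4⟩ := hXT j
    have hij' : (i : α) ≠ j := fun e => hij (Subtype.ext e)
    have hi := i.2
    have hj := j.2
    have xj := A4 j hj.1 hj.2 hij'.symm
    have yi := B4 i hi.1 hi.2 hij'
    constructor
    · apply Subtype.ext
      apply Equiv.ext
      intro r
      simp only [Subgroup.coe_pow, Subgroup.coe_mul, Subgroup.coe_one, Perm.one_apply, pow_two,
        Perm.mul_apply]
      by_cases r1 : r = p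
      · rw [r1, B1, A2, yi, A3]
      by_cases r2 : r = q
      · rw [r2, B2, xj, B3, A1]
      by_cases r3 : r = i
      · rw [r3, yi, A3, B1, A2]
      by_cases r4 : r = j
      · rw [r4, B3, A1, B2, xj]
      rw [B4 r r1 r2 r4, A4 r r1 r2 r3, B4 r r1 r2 r4, A4 r r1 r2 r3]
    · intro h
      have := congrArg (fun z : alternatingGroup α => (z : Perm α) p) h
      simp only [Subgroup.coe_mul, Subgroup.coe_one, Perm.one_apply, Perm.mul_apply] at this
      rw [B1, A2] at this
      exact hi.1 this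
  have hY2 : ∀ i j : I, i ≠ j → (Y i * Y j) ^ 2 = 1 ∧ Y i * Y j ≠ 1 := by
    intro i j hij
    obtain ⟨h1, h2⟩ := hX2 i j hij
    constructor
    · have := congrArg (fun z => ((φ z : alternatingGroup α) : Perm α)) h1
      simpa using this
    · intro h
      apply h2
      have h3' : φ (X i * X j) = 1 := by
        rw [map_mul]
        exact Subtype.ext h
      rwa [map_eq_one_iff φ φ.injective] at h3'
  let j0 : I := ⟨i0, hi0⟩
  let j1 : I := ⟨i1, hi1.1, hi1.2.1⟩
  have hj01 : j0 ≠ j1 := fun e => hi1.2.2 (congrArg Subtype.val e).symm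
  have hedge : ∀ i j : I, i ≠ j → ∃ a b r s, r ≠ s ∧ Tri (Y i) a b r ∧ Tri (Y j) a b s := by
    intro i j hij
    obtain ⟨a, b, c, h1⟩ := hYT i
    obtain ⟨a', b', c', h2⟩ := hYT j
    exact tri_edge h1 h2 (hY2 i j hij).1 (hY2 i j hij).2
  obtain ⟨a, b, r, s, hrs, hT0, hT1⟩ := hedge j0 j1 hj01
  have hab : a ≠ b := hT0.1
  have hall : ∀ k : I, Y k a = b := by
    intro k
    by_cases k0 : k = j0
    · rw [k0]; exact hT0.2.2.2.1
    by_cases k1 : k = j1
    · rw [k1]; exact hT1.2.2.2.1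
    obtain ⟨a1, b1, c1, d1, -, e1, e2⟩ := hedge k j0 k0
    obtain ⟨a2, b2, c2, d2, -, e3, e4⟩ := hedge k j1 k1
    exact tri_clique hT0 hT1 hrs e1 e2 e3 e4
  have hTall : ∀ k : I, Tri (Y k) a b (Y k b) := by
    intro k
    obtain ⟨a1, b1, c1, h⟩ := hYT k
    have := h.at (p := a) (by rw [hall k]; exact hab.symm)
    rwa [hall k] at this
  let f : α → α := fun i => if h : i ≠ p ∧ i ≠ q then Y ⟨i, h⟩ b else if i = p then a else b
  have fp : f p = a := by simp [f]
  have fq : f q = b := by simp [f, hpq.symm]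
  have fi : ∀ k : I, f k = Y k b := by
    intro k
    have : (k : α) ≠ p ∧ (k : α) ≠ q := k.2
    simp only [f]
    rw [dif_pos this]
  have finj : Function.Injective f := by
    have hcase : ∀ i, i = p ∨ i = q ∨ ∃ k : I, (k : α) = i := by
      intro i
      by_cases h1 : i = p
      · exact Or.inl h1
      by_cases h2 : i = q
      · exact Or.inr (Or.inl h2)
      exact Or.inr (Or.inr ⟨⟨i, h1, h2⟩, rfl⟩)
    intro i j hij
    rcases hcase i with hi | hi | ⟨k, hi⟩ <;> rcases hcase j with hj | hj | ⟨l, hj⟩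
    · rw [hi, hj]
    · rw [hi, hj, fp, fq] at hij; exact absurd hij hab
    · rw [hi, ← hj, fp, fi] at hij; exact absurd hij.symm (hTall l).2.2.1
    · rw [hi, hj, fp, fq] at hij; exact absurd hij.symm hab
    · rw [hi, hj]
    · rw [hi, ← hj, fq, fi] at hij; exact absurd hij (hTall l).2.1
    · rw [hj, ← hi, fp, fi] at hij; exact absurd hij (hTall k).2.2.1
    · rw [hj, ← hi, fq, fi] at hij; exact absurd hij.symm (hTall k).2.1
    · rw [← hi, ← hj, fi, fi] at hij
      have h1 := hTall k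
      rw [hij] at h1
      have h2 := h1.ext (hTall l)
      have h3' : X k = X l := φ.injective (Subtype.ext h2)
      have h4 : (k : α) = l := by
        have h5' := (hXT k).2.2.2.2.1
        rw [h3', (hXT l).2.2.2.2.1] at h5'
        exact h5'.symm
      rw [← hi, ← hj, h4]
  let σ : Perm α := Equiv.ofBijective f (Finite.injective_iff_bijective.1 finj)
  have σp : σ p = a := fp
  have σq : σ q = b := fq
  have σi : ∀ k : I, σ k = Y k b := fi
  have hconj : ∀ k : I, (φ (X k) : Perm α) = σ * X k * σ⁻¹ := by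
    intro k
    have h1 := (hXT k).conj σ
    rw [σp, σq, σi] at h1
    exact (hTall k).ext h1
  refine ⟨σ, ?_⟩
  let f1 : alternatingGroup α →* Perm α := (alternatingGroup α).subtype.comp φ.toMonoidHom
  let f2 : alternatingGroup α →* Perm α :=
    (MulAut.conj σ).toMonoidHom.comp (alternatingGroup α).subtype
  let K : Subgroup (Perm α) := (f1.eqLocus f2).map (alternatingGroup α).subtype
  have hHX : ∀ i, i ≠ p → i ≠ q → cyc p q i ∈ K := by
    intro i h1 h2
    refine ⟨X ⟨i, h1, h2⟩, ?_, rfl⟩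
    exact hconj ⟨i, h1, h2⟩
  have hH3 : ∀ x : Perm α, IsThreeCycle x → x ∈ K := by
    intro x hx
    obtain ⟨c, hc⟩ : ∃ a, x a ≠ a := by
      by_contra hcon
      push Not at hcon
      exact hx.ne_one (Equiv.ext hcon)
    exact mem_of_base hpq K hHX (tri_of_isThreeCycle hx hc)
  intro x
  have hxH : (x : Perm α) ∈ K := by
    have h1 : (x : Perm α) ∈ Subgroup.closure {σ : Perm α | IsThreeCycle σ} := by
      rw [closure_three_cycles_eq_alternating]
      exact x.2
    exact (Subgroup.closure_le K).2 hH3 h1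
  obtain ⟨x', hx', hxx⟩ := hxH
  have : x' = x := Subtype.ext hxx
  rw [this] at hx'
  exact hx'

theorem orderOf_three {x : Perm (Fin 6)} (h3 : x ^ 3 = 1) (h1 : x ≠ 1) : orderOf x = 3 := by
  have := Fact.mk Nat.prime_three
  exact orderOf_eq_prime h3 h1

/-- elements of order 3 which are not 3-cycles -/
theorem ct_three {x : Perm (Fin 6)} (h3 : x ^ 3 = 1) (h1 : x ≠ 1) (h : ¬ IsThreeCycle x) :
    x.cycleType = {3, 3} := by
  have h4 := orderOf_three h3 h1
  obtain ⟨n, hn⟩ := cycleType_prime_order (σ := x) (by rw [h4]; exact Nat.prime_three)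
  rw [h4] at hn
  have h5 := x.sum_cycleType_le
  rw [hn, Multiset.sum_replicate, Fintype.card_fin, smul_eq_mul] at h5
  have h6 : n = 0 ∨ n = 1 := by omega
  rcases h6 with rfl | rfl
  · exact absurd hn h
  · exact hn

theorem tri_tot {x : Perm (Fin 6)} (h3 : x ^ 3 = 1) (h1 : x ≠ 1) (h : ¬ IsThreeCycle x) :
    IsThreeCycle (tot x) := by
  obtain ⟨Q, hQ, hfix⟩ := three_table
  have hc : IsThreeCycle (cyc (0 : Fin 6) 1 2) :=
    (tri_cyc (by decide) (by decide) (by decide)).isThreeCycle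
  have hc3 : (cyc (0 : Fin 6) 1 2) ^ 3 = 1 := by
    rw [← hc.orderOf, pow_orderOf_eq_one]
  have hQt : tot (cyc 0 1 2) = Q := cmp_unique (cmp_tot _) hQ
  have hQ3 : Q ^ 3 = 1 := by
    rw [← hQt, pow_succ, pow_two, ← tot_mul, ← tot_mul, ← pow_two, ← pow_succ, hc3]
    exact cmp_unique (cmp_tot _) Cmp.one
  have hQ1 : Q ≠ 1 := by
    rintro rfl
    exact hfix 0 rfl
  have hQ4 : ¬ IsThreeCycle Q := by
    intro h5
    have h6 := h5.card_support
    have h7 : Q.support = Finset.univ := by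
      ext i
      simp [hfix i]
    rw [h7, Finset.card_univ, Fintype.card_fin] at h6
    omega
  have hconj : IsConj Q x := by
    rw [isConj_iff_cycleType_eq, ct_three h3 h1 h, ct_three hQ3 hQ1 hQ4]
  obtain ⟨R, hR⟩ := isConj_iff.1 hconj
  have hR' : R * Q = x * R := by rw [← hR]; group
  have h8 : tot R * cyc 0 1 2 = tot x * tot R := by
    have h9 : tot Q = cyc 0 1 2 := by rw [← hQt, tot_tot]
    rw [← tot_mul, ← hR', tot_mul, h9]
  have h10 : tot x = tot R * cyc 0 1 2 * (tot R)⁻¹ := by rw [h8]; group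
  rw [h10, IsThreeCycle, cycleType_conj]
  exact hc

/-- all 3-cycles are conjugate -/
theorem all_three (φ : alternatingGroup (Fin 6) ≃* alternatingGroup (Fin 6))
    {x : alternatingGroup (Fin 6)} (hx : IsThreeCycle (x : Perm (Fin 6)))
    (hφ : IsThreeCycle (φ x : Perm (Fin 6))) (y : alternatingGroup (Fin 6))
    (hy : IsThreeCycle (y : Perm (Fin 6))) : IsThreeCycle (φ y : Perm (Fin 6)) := by
  have h5 : 5 ≤ Nat.card (Fin 6) := by simp
  obtain ⟨c, hc⟩ := isConj_iff.1 (alternatingGroup.isThreeCycle_isConj h5 hx hy)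
  rw [← hc, map_mul, map_mul, map_inv, Subgroup.coe_mul, Subgroup.coe_mul, Subgroup.coe_inv,
    IsThreeCycle, cycleType_conj]
  exact hφ

/-- the 3-cycle `0 → 1 → 2 → 0` -/
def x0 : alternatingGroup (Fin 6) := ⟨cyc 0 1 2, cyc_mem_alt (by decide) (by decide) (by decide)⟩

theorem x0_three : IsThreeCycle (x0 : Perm (Fin 6)) :=
  (tri_cyc (a := (0 : Fin 6)) (b := 1) (c := 2) (by decide) (by decide) (by decide)).isThreeCycle

theorem x0_cube : x0 ^ 3 = 1 := by
  apply Subtype.ext
  rw [Subgroup.coe_pow, ← x0_three.orderOf, pow_orderOf_eq_one]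
  rfl

/-- every automorphism of `A_6` is the conjugation by a permutation, up to the outer
automorphism `theta` -/
theorem aut_cases (φ : alternatingGroup (Fin 6) ≃* alternatingGroup (Fin 6)) :
    (∃ σ : Perm (Fin 6), ∀ x : alternatingGroup (Fin 6), (φ x : Perm (Fin 6)) = σ * x * σ⁻¹) ∨
    ∃ σ : Perm (Fin 6), ∀ x : alternatingGroup (Fin 6),
      (theta (φ x) : Perm (Fin 6)) = σ * x * σ⁻¹ := by
  have h5 : 5 ≤ Fintype.card (Fin 6) := by simp
  by_cases h : IsThreeCycle (φ x0 : Perm (Fin 6))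
  · exact Or.inl (aut_of_three h5 φ (fun y hy => all_three φ x0_three h y hy))
  · right
    have h3 : (φ x0 : Perm (Fin 6)) ^ 3 = 1 := by
      rw [← Subgroup.coe_pow, ← map_pow, x0_cube, map_one]
      rfl
    have h1 : (φ x0 : Perm (Fin 6)) ≠ 1 := by
      intro h1
      have h2 : φ x0 = 1 := Subtype.ext h1
      rw [map_eq_one_iff φ φ.injective] at h2
      apply x0_three.ne_one
      rw [h2]
      rfl
    have h4 : IsThreeCycle ((φ.trans theta) x0 : Perm (Fin 6)) := tri_tot h3 h1 h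
    exact aut_of_three h5 (φ.trans theta) (fun y hy => all_three _ x0_three h4 y hy)

/-- the elements of `H` commuting with `A_6` -/
theorem central {z : H} (hz : ∀ a, z * kap a = kap a * z) : z = 1 := by
  obtain ⟨b, P, Q, h, h0, h1⟩ := z.2
  have key : ∀ (a : alternatingGroup (Fin 6)) x, (z : Perm (ZMod 2 × Fin 6))
      ((kap a : Perm (ZMod 2 × Fin 6)) x) = (kap a : Perm (ZMod 2 × Fin 6))
      ((z : Perm (ZMod 2 × Fin 6)) x) := fun a x =>
    congrArg (fun y : H => (y : Perm (ZMod 2 × Fin 6)) x) (hz a)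
  rcases two_cases b with rfl | rfl
  · have hP : P = 1 := by
      apply perm_comm_eq_one (by simp)
      intro x
      ext1 i
      have := key x (0, i)
      rw [kap_zero, h0, h0, kap_zero] at this
      exact (Prod.ext_iff.1 this).2
    subst hP
    have hQ : Q = 1 := cmp_unique h Cmp.one
    subst hQ
    exact ext_H h0 (fun i => (h1 i).trans (by rw [zero_add]; rfl))
  · exfalso
    have h2 : ∀ i, P ((x0 : Perm (Fin 6)) i) = tot x0 (P i) := by
      intro i
      have := key x0 (0, i)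
      rw [kap_zero, h0, h0, kap_one'] at this
      exact (Prod.ext_iff.1 this).2
    obtain ⟨Q', hQ', hfix⟩ := three_table
    have hQt : tot (x0 : Perm (Fin 6)) = Q' := cmp_unique (cmp_tot _) hQ'
    have h3 := h2 3
    have h4 : (x0 : Perm (Fin 6)) 3 = 3 := by decide
    rw [hQt, h4] at h3
    exact hfix _ h3.symm

end AutAux

/-- `H` is the automorphism group of `A_6` -/
theorem aut_six (α : alternatingGroup (Fin 6) ≃* alternatingGroup (Fin 6)) :
    ∃! h : H, ∀ a, kap (α a) = h * kap a * h⁻¹ := by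
  have hex : ∃ h : H, ∀ a, kap (α a) = h * kap a * h⁻¹ := by
    rcases aut_cases α with ⟨σ, hσ⟩ | ⟨σ, hσ⟩
    · refine ⟨hh σ, fun a => ?_⟩
      rw [← kap_conj (hσ a)]
      group
    · refine ⟨ww⁻¹ * hh σ, fun a => ?_⟩
      have h1 := kap_conj (hσ a)
      have h2 := kap_theta (α a)
      have h3 : kap (α a) = ww⁻¹ * kap (theta (α a)) * ww := by
        rw [mul_assoc, h2]
        group
      have h4 : kap (theta (α a)) = hh σ * kap a * (hh σ)⁻¹ := by
        rw [← h1]
        group
      rw [h3, h4]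
      group
  obtain ⟨h, hh'⟩ := hex
  refine ⟨h, hh', ?_⟩
  intro g hg
  have h1 : h⁻¹ * g = 1 := by
    apply central
    intro a
    have h2 : h * kap a * h⁻¹ = g * kap a * g⁻¹ := by rw [← hh' a, ← hg a]
    calc h⁻¹ * g * kap a = h⁻¹ * (g * kap a * g⁻¹) * g := by group
      _ = h⁻¹ * (h * kap a * h⁻¹) * g := by rw [h2]
      _ = _ := by group
  exact (inv_mul_eq_one.1 h1).symm

/-- A group extension with kernel a power of a simple group `S` is described by block
permutations with entries in `Aut(S)`. -/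
theorem exists_aut_data {S : Type} [Group S] [Finite S] [IsSimpleGroup S]
    (hc : Subgroup.center S = ⊥) {G : Type} [Group G] (κ : S →* G) (hκ : Function.Injective κ)
    (haut : ∀ α : S ≃* S, ∃! h : G, ∀ a, κ (α a) = h * κ a * h⁻¹) {k : ℕ} {E : Type} [Group E]
    [Finite E] (N : Subgroup E) [N.Normal] (φ : N ≃* (Fin k → S)) :
    ∃ (act : E ⧸ N →* Perm (Fin k)) (T : E → Fin k → G),
      (∀ e e' j, T (e * e') j = T e (act (e' : E ⧸ N) j) * T e' j) ∧
      (∀ (m : N) j, T m j = κ (φ m j)) ∧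
      (∀ (e : E) (τ : Fin k → G), (∀ j, (T e j)⁻¹ * τ j ∈ κ.range) →
        ∃! e' : E, (e' : E ⧸ N) = e ∧ T e' = τ) := by
  classical
  -- the centraliser of `κ S` is trivial
  have hcent : ∀ g : G, (∀ a, g * κ a = κ a * g) → g = 1 := by
    intro g hg
    obtain ⟨h, -, hu⟩ := haut (MulEquiv.refl S)
    have h1 : g = h := hu g (fun a => by
      rw [hg a, MulEquiv.refl_apply]
      group)
    have h2 : (1 : G) = h := hu 1 (fun a => by simp)
    rw [h1, ← h2]
  have haut_pow : ∀ ψ : (Fin k → S) ≃* (Fin k → S), ∃ (π : Perm (Fin k)) (t : Fin k → G),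
      ∀ x j, κ (ψ x (π j)) = t j * κ (x j) * (t j)⁻¹ := by
    intro ψ
    obtain ⟨π, α, hα⟩ := aut_pi hc ψ
    choose t ht using fun j => (haut (α j)).exists
    exact ⟨π, t, fun x j => by rw [hα, ht]⟩
  have hunique : ∀ {ψ : (Fin k → S) → (Fin k → S)} {π π' : Perm (Fin k)} {t t' : Fin k → G},
      (∀ x j, κ (ψ x (π j)) = t j * κ (x j) * (t j)⁻¹) →
      (∀ x j, κ (ψ x (π' j)) = t' j * κ (x j) * (t' j)⁻¹) → π = π' ∧ t = t' := by
    intro ψ π π' t t' h h'
    have hπ : π = π' := by
      ext1 j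
      by_contra hj
      obtain ⟨g, hg⟩ := exists_ne (1 : S)
      obtain ⟨i, hi⟩ := π'.surjective (π j)
      have hij : i ≠ j := by rintro rfl; exact hj hi.symm
      have e1 := h (Pi.mulSingle j g) j
      have e2 := h' (Pi.mulSingle j g) i
      rw [hi, e1] at e2
      rw [Pi.mulSingle_eq_same, Pi.mulSingle_eq_of_ne hij, map_one] at e2
      apply hg
      apply hκ
      rw [map_one]
      have e4 : κ g = (t j)⁻¹ * (t j * κ g * (t j)⁻¹) * t j := by group
      rw [e4, e2]
      simp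
    subst hπ
    refine ⟨rfl, ?_⟩
    funext j
    have key : (t' j)⁻¹ * t j = 1 := by
      apply hcent
      intro x
      have e1 := h (Pi.mulSingle j x) j
      have e2 := h' (Pi.mulSingle j x) j
      rw [e1, Pi.mulSingle_eq_same] at e2
      calc (t' j)⁻¹ * t j * κ x = (t' j)⁻¹ * (t j * κ x * (t j)⁻¹) * t j := by group
        _ = (t' j)⁻¹ * (t' j * κ x * (t' j)⁻¹) * t j := by rw [e2]
        _ = _ := by group
    exact (inv_mul_eq_one.1 key).symm
  let ψ : E → ((Fin k → S) ≃* (Fin k → S)) := fun e =>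
    (φ.symm.trans (MulAut.conjNormal e : MulAut N)).trans φ
  have hψ : ∀ e x, ψ e x = φ (MulAut.conjNormal e (φ.symm x)) := fun e x => rfl
  choose π t ht using fun e => haut_pow (ψ e)
  have hψmul : ∀ e e' x, ψ (e * e') x = ψ e (ψ e' x) := by
    intro e e' x
    rw [hψ, hψ, hψ, MulEquiv.symm_apply_apply, map_mul]
    rfl
  have hmul : ∀ e e', π (e * e') = π e * π e' ∧ t (e * e') = fun j => t e (π e' j) * t e' j := by
    intro e e'
    refine hunique (ψ := ψ (e * e')) (ht (e * e')) ?_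
    intro x j
    rw [hψmul, Perm.mul_apply, ht e, ht e']
    group
  have hN : ∀ m : N, π m = 1 ∧ t m = fun j => κ (φ m j) := by
    intro m
    refine hunique (ψ := ψ m) (ht m) ?_
    intro x j
    have h1 : ψ m x = φ m * x * (φ m)⁻¹ := by
      rw [hψ]
      have : MulAut.conjNormal (m : E) (φ.symm x) = m * φ.symm x * m⁻¹ := by
        apply Subtype.ext
        rw [MulAut.conjNormal_apply]
        simp
      rw [this, map_mul, map_mul, map_inv, MulEquiv.apply_symm_apply]
    rw [h1]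
    simp
  let πhom : E →* Perm (Fin k) := MonoidHom.mk' π (fun e e' => (hmul e e').1)
  have hker : ∀ m ∈ N, πhom m = 1 := fun m hm => (hN ⟨m, hm⟩).1
  let act : (E ⧸ N) →* Perm (Fin k) := QuotientGroup.lift N πhom hker
  have htN : ∀ (e : E) (m : N) j, t (e * m) j = t e j * κ (φ m j) := by
    intro e m j
    rw [(hmul e m).2, (hN m).1, (hN m).2]
    rfl
  refine ⟨act, t, fun e e' j => congrFun (hmul e e').2 j, fun m j => congrFun (hN m).2 j, ?_⟩
  intro e τ hτ
  choose y hy using hτ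
  refine ⟨e * (φ.symm y : N), ⟨?_, ?_⟩, ?_⟩
  · exact QuotientGroup.mk_mul_of_mem _ (φ.symm y).2
  · funext j
    rw [htN, MulEquiv.apply_symm_apply, hy]
    group
  · rintro e' ⟨h1, h2⟩
    have h3 : e⁻¹ * e' ∈ N := QuotientGroup.eq.1 h1.symm
    obtain ⟨m, rfl⟩ : ∃ m : N, e' = e * m := ⟨⟨_, h3⟩, by simp⟩
    have h4 : φ m = y := by
      funext j
      apply hκ
      have := congrFun h2 j
      rw [htN] at this
      rw [hy, ← this]
      group
    rw [← h4, MulEquiv.symm_apply_apply]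

end MP7fX
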