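import Pool.Agent.Lib.MP_7f581e_ntX.Grp

/-!
The homomorphism from `Aut(A_6)` onto the Klein four group.
-/

set_option autoImplicit false

namespace MP7fX

open Equiv

theorem zmod2_cases : ∀ b : ZMod 2, b = 0 ∨ b = 1 := by decide

/-- The additive form of a sign. -/
def asg (u : ℤˣ) : ZMod 2 := if u = 1 then 0 else 1

theorem asg_mul (u v : ℤˣ) : asg (u * v) = asg u + asg v := by
  unfold asg
  rcases Int.units_eq_one_or u with rfl | rfl <;> rcases Int.units_eq_one_or v with rfl | rfl <;>
    decide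

theorem asg_eq_zero (u : ℤˣ) : asg u = 0 ↔ u = 1 := by
  unfold asg
  split_ifs with h <;> simp [h]

/-- The swap bit of an element of `Aut(A_6)`. -/
noncomputable def hb (p : H) : ZMod 2 := p.2.choose

/-- The permutation of an element of `Aut(A_6)`. -/
noncomputable def hP (p : H) : Perm (Fin 6) := p.2.choose_spec.choose

/-- The dual permutation of an element of `Aut(A_6)`. -/
noncomputable def hQ (p : H) : Perm (Fin 6) := p.2.choose_spec.choose_spec.choose

theorem h_cmp (p : H) : Cmp (hP p) (hQ p) := p.2.choose_spec.choose_spec.choose_spec.1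

theorem h_zero (p : H) (i : Fin 6) : (p : Perm (ZMod 2 × Fin 6)) (0, i) = (hb p, hP p i) :=
  p.2.choose_spec.choose_spec.choose_spec.2.1 i

theorem h_one (p : H) (i : Fin 6) : (p : Perm (ZMod 2 × Fin 6)) (1, i) = (hb p + 1, hQ p i) :=
  p.2.choose_spec.choose_spec.choose_spec.2.2 i

theorem h_unique (p : H) {b : ZMod 2} {P : Perm (Fin 6)}
    (h0 : ∀ i, (p : Perm (ZMod 2 × Fin 6)) (0, i) = (b, P i)) : hb p = b ∧ hP p = P := by
  constructor
  · have h1 := (h_zero p 0).symm.trans (h0 0)
    exact congrArg Prod.fst h1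
  · ext i
    have h1 := (h_zero p i).symm.trans (h0 i)
    exact congrArg (fun x : ZMod 2 × Fin 6 => (x.2 : ℕ)) h1

theorem h_mul_zero (p p' : H) (h : hb p' = 0) : hb (p * p') = hb p ∧ hP (p * p') = hP p * hP p' := by
  apply h_unique
  intro i
  rw [Subgroup.coe_mul, Perm.mul_apply, h_zero, h, h_zero]
  rfl

theorem h_mul_one (p p' : H) (h : hb p' = 1) :
    hb (p * p') = hb p + 1 ∧ hP (p * p') = hQ p * hP p' := by
  apply h_unique
  intro i
  rw [Subgroup.coe_mul, Perm.mul_apply, h_zero, h, h_one]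
  rfl

/-- The class of an element of `Aut(A_6)` modulo the inner automorphisms, in the coordinates
twisted by `δ`. -/
noncomputable def qm (δ : ZMod 2) : H →* Multiplicative (ZMod 2 × ZMod 2) :=
  MonoidHom.mk' (fun p => Multiplicative.ofAdd (asg (Perm.sign (hP p)) + δ * hb p, hb p)) (by
    intro p p'
    rw [← ofAdd_add]
    congr 1
    rcases zmod2_cases (hb p') with h | h
    · rw [(h_mul_zero p p' h).1, (h_mul_zero p p' h).2, h, Perm.sign_mul, asg_mul]
      ext
      · simp only [Prod.fst_add]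
        ring
      · simp
    · rw [(h_mul_one p p' h).1, (h_mul_one p p' h).2, h, Perm.sign_mul, asg_mul,
        (h_cmp p).sign]
      ext
      · simp only [Prod.fst_add]
        ring
      · simp)

theorem qm_apply (δ : ZMod 2) (p : H) :
    Multiplicative.toAdd (qm δ p) = (asg (Perm.sign (hP p)) + δ * hb p, hb p) := rfl

theorem qm_eq_one (δ : ZMod 2) (p : H) : qm δ p = 1 ↔ hb p = 0 ∧ Perm.sign (hP p) = 1 := by
  rw [← toAdd_eq_zero, qm_apply]
  constructor
  · intro h
    have h1 : hb p = 0 := congrArg Prod.snd h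
    have h2 : asg (Perm.sign (hP p)) + δ * hb p = 0 := congrArg Prod.fst h
    rw [h1, mul_zero, add_zero, asg_eq_zero] at h2
    exact ⟨h1, h2⟩
  · rintro ⟨h1, h2⟩
    rw [h1, mul_zero, add_zero, (asg_eq_zero _).mpr h2]
    rfl

/-- Construction of elements of `Aut(A_6)`. -/
theorem exists_h (b : ZMod 2) {P Q : Perm (Fin 6)} (h : Cmp P Q) :
    ∃ p : H, (∀ i, (p : Perm (ZMod 2 × Fin 6)) (0, i) = (b, P i)) ∧
      ∀ s, (p : Perm (ZMod 2 × Fin 6)) (1, s) = (b + 1, Q s) := by
  rcases zmod2_cases b with rfl | rfl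
  · let f : Perm (ZMod 2 × Fin 6) :=
      { toFun := fun x => (x.1, if x.1 = 0 then P x.2 else Q x.2)
        invFun := fun x => (x.1, if x.1 = 0 then P⁻¹ x.2 else Q⁻¹ x.2)
        left_inv := by
          rintro ⟨c, i⟩
          rcases zmod2_cases c with rfl | rfl
          · exact Prod.ext rfl (P.symm_apply_apply i)
          · exact Prod.ext rfl (Q.symm_apply_apply i)
        right_inv := by
          rintro ⟨c, i⟩
          rcases zmod2_cases c with rfl | rfl
          · exact Prod.ext rfl (P.apply_symm_apply i)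
          · exact Prod.ext rfl (Q.apply_symm_apply i) }
    have h0 : ∀ i, f (0, i) = (0, P i) := fun i => rfl
    have h1 : ∀ i, f (1, i) = (0 + 1, Q i) := fun i => rfl
    exact ⟨⟨f, 0, P, Q, h, h0, h1⟩, h0, h1⟩
  · have e1 : (1 + 1 : ZMod 2) = 0 := by decide
    let f : Perm (ZMod 2 × Fin 6) :=
      { toFun := fun x => (x.1 + 1, if x.1 = 0 then P x.2 else Q x.2)
        invFun := fun x => (x.1 + 1, if x.1 = 0 then Q⁻¹ x.2 else P⁻¹ x.2)
        left_inv := by
          rintro ⟨c, i⟩
          rcases zmod2_cases c with rfl | rfl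
          · exact Prod.ext rfl (P.symm_apply_apply i)
          · exact Prod.ext rfl (Q.symm_apply_apply i)
        right_inv := by
          rintro ⟨c, i⟩
          rcases zmod2_cases c with rfl | rfl
          · exact Prod.ext rfl (Q.apply_symm_apply i)
          · exact Prod.ext rfl (P.apply_symm_apply i) }
    have h0 : ∀ i, f (0, i) = (1, P i) := fun i => rfl
    have h1 : ∀ i, f (1, i) = (1 + 1, Q i) := fun i => rfl
    exact ⟨⟨f, 1, P, Q, h, h0, h1⟩, h0, h1⟩

end MP7fX
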