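import Mathlib

/-!
The two parameters of the pair of twin sextics.
-/

set_option autoImplicit false

universe u

namespace MP7fX

section th

variable {L : Type*} [Field L]

/-- The sign element as a function of the two parameters. -/
noncomputable def th (u v : L) : L := (u * v + 1) / (1 + u + v)

theorem th_comm (u v : L) : th u v = th v u := by
  unfold th
  rw [mul_comm u v, add_assoc, add_comm u v, ← add_assoc]

theorem map_th {L' : Type*} [Field L'] (f : L →+* L') (u v : L) : f (th u v) = th (f u) (f v) := by
  simp [th]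

variable [CharP L 2]

theorem th_rel {u v : L} (h : 1 + u + v ≠ 0) :
    th u v ^ 2 + th u v = 1 + (th u v + u) * (th u v + v) := by
  have two0 : (2 : L) = 0 := CharTwo.two_eq_zero
  have h1 : th u v * (1 + u + v) = u * v + 1 := by
    unfold th
    rw [div_mul_cancel₀ _ h]
  linear_combination (th u v - u * v - 1) * two0 - h1

theorem th_shift (u v : L) (h : 1 + u + v ≠ 0) : th (u + 1) (v + 1) = th u v + 1 := by
  have two0 : (2 : L) = 0 := CharTwo.two_eq_zero
  have h2 : 1 + (u + 1) + (v + 1) = 1 + u + v := by linear_combination two0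
  unfold th
  rw [h2, eq_comm, div_add_one h]
  congr 1
  ring

end th

section trdeg

open Cardinal in
theorem algInd_of_isAlgebraic {A L : Type u} [Field A] [Field L] [Algebra A L] {n : ℕ}
    {x y : Fin n → L} (hx : AlgebraicIndependent A x)
    (h : ∀ i, IsAlgebraic (Algebra.adjoin A (Set.range y)) (x i)) : AlgebraicIndependent A y := by
  let T : IntermediateField A L := IntermediateField.adjoin A (Set.range x ∪ Set.range y)
  have hxT : ∀ i, x i ∈ T := fun i => IntermediateField.subset_adjoin _ _ (Or.inl ⟨i, rfl⟩)
  have hyT : ∀ i, y i ∈ T := fun i => IntermediateField.subset_adjoin _ _ (Or.inr ⟨i, rfl⟩)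
  let x' : Fin n → T := fun i => ⟨x i, hxT i⟩
  let y' : Fin n → T := fun i => ⟨y i, hyT i⟩
  have hx' : AlgebraicIndependent A x' := AlgebraicIndependent.of_comp (f := T.val) hx
  set R := Algebra.adjoin A (Set.range y') with hR
  have h1 : ∀ z : T, IsAlgebraic (Algebra.adjoin A (Set.range y)) (z : L) → IsAlgebraic R z := by
    intro z hz
    have hmap : R.map T.val = Algebra.adjoin A (Set.range y) := by
      rw [hR, AlgHom.map_adjoin, ← Set.range_comp]
      rfl
    let f : R →+* Algebra.adjoin A (Set.range y) :=
      (T.val.toRingHom.comp R.subtype).codRestrict (Algebra.adjoin A (Set.range y)) (by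
        intro r
        rw [← hmap]
        exact ⟨r, r.2, rfl⟩)
    refine IsAlgebraic.of_ringHom_of_comp_eq f
      T.val.toRingHom hz ?_ T.val.injective rfl
    rintro ⟨s, hs⟩
    rw [← hmap] at hs
    obtain ⟨r, hr, rfl⟩ := hs
    exact ⟨⟨r, hr⟩, rfl⟩
  have halg : Algebra.IsAlgebraic R T := by
    constructor
    rintro ⟨z, hz⟩
    apply h1
    change IsAlgebraic (Algebra.adjoin A (Set.range y)) z
    refine IntermediateField.adjoin_induction A
      (p := fun z _ => IsAlgebraic (Algebra.adjoin A (Set.range y)) z) ?_ ?_ ?_ ?_ ?_ hz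
    · rintro _ (⟨i, rfl⟩ | ⟨i, rfl⟩)
      · exact h i
      · exact isAlgebraic_algebraMap (⟨y i, Algebra.subset_adjoin ⟨i, rfl⟩⟩ :
          Algebra.adjoin A (Set.range y))
    · intro a
      exact isAlgebraic_algebraMap (⟨algebraMap A L a, Subalgebra.algebraMap_mem _ a⟩ :
          Algebra.adjoin A (Set.range y))
    · intro a b _ _ ha hb
      exact ha.add hb
    · intro a _ ha
      exact ha.inv
    · intro a b _ _ ha hb
      exact ha.mul hb
  have h2 : IsTranscendenceBasis A y' :=
    Algebra.IsAlgebraic.isTranscendenceBasis_of_lift_le_trdeg_of_finite A y'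
      hx'.lift_cardinalMk_le_trdeg
  exact h2.1.map' (f := T.val) T.val.injective

end trdeg

end MP7fX

namespace MP7fX

open IntermediateField

section

variable {A L : Type u} [Field A] [Field L] [Algebra A L]

theorem den_ne {u v : L} (h : AlgebraicIndependent A ![u, v]) : 1 + u + v ≠ 0 := by
  intro h0
  have h1 := (algebraicIndependent_iff.mp h) (1 + MvPolynomial.X 0 + MvPolynomial.X 1)
    (by simpa using h0)
  have h2 := congrArg MvPolynomial.constantCoeff h1
  simp at h2

theorem ne_of_algInd {u v : L} (h : AlgebraicIndependent A ![u, v]) : u ≠ v := by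
  intro h0
  have h1 := h.injective (a₁ := 0) (a₂ := 1) (by simpa using h0)
  exact absurd h1 (by decide)

theorem algInd_ab [CharP L 2] {u v : L} (h : AlgebraicIndependent A ![u, v]) :
    AlgebraicIndependent A ![th u v + u, th u v + v] := by
  have two0 : (2 : L) = 0 := CharTwo.two_eq_zero
  refine algInd_of_isAlgebraic h ?_
  set R := Algebra.adjoin A (Set.range ![th u v + u, th u v + v]) with hR
  have h0 : IsAlgebraic R (th u v + u) := isAlgebraic_algebraMap
    (⟨_, Algebra.subset_adjoin ⟨0, rfl⟩⟩ : R)
  have h1 : IsAlgebraic R (th u v + v) := isAlgebraic_algebraMap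
    (⟨_, Algebra.subset_adjoin ⟨1, rfl⟩⟩ : R)
  have h2 : IsAlgebraic R (th u v ^ 2 + th u v) := by
    rw [th_rel (den_ne h)]
    exact isAlgebraic_one.add (h0.mul h1)
  have h3 : IsAlgebraic R (th u v) := by
    refine IsAlgebraic.of_aeval (Polynomial.X ^ 2 + Polynomial.X : Polynomial R) ?_ ?_
      (by simpa using h2)
    · have : (Polynomial.X ^ 2 + Polynomial.X : Polynomial R).natDegree = 2 := by compute_degree!
      omega
    · have h4 : (Polynomial.X ^ 2 + Polynomial.X : Polynomial R).Monic := by monicity!
      rw [h4.leadingCoeff]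
      exact one_mem _
  intro i
  fin_cases i
  · change IsAlgebraic R u
    have h5 : u = (th u v + u) - th u v := by ring
    rw [h5]
    exact h0.sub h3
  · change IsAlgebraic R v
    have h5 : v = (th u v + v) - th u v := by ring
    rw [h5]
    exact h1.sub h3

/-- Independence of the two parameters over the field generated by the other ones. -/
theorem algInd_pair {M : Type u} [Field M] [Algebra M L] {k : ℕ} {e : Fin k × ZMod 2 → L}
    (he : AlgebraicIndependent M e) (j : Fin k) :
    AlgebraicIndependent (IntermediateField.adjoin M (e '' {x | x.1 ≠ j}))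
      ![e (j, 0), e (j, 1)] := by
  rw [IntermediateField.algebraicIndependent_adjoin_iff]
  have h1 := he.adjoin_of_disjoint (s := {x | x.1 ≠ j}) (t := {x | x.1 = j})
    (Set.disjoint_left.mpr fun x hx hx' => hx hx')
  have h2 := h1.comp (fun c : Fin 2 => (⟨(j, c), rfl⟩ : {x : Fin k × ZMod 2 | x.1 = j}))
    (fun c c' hc => (Prod.ext_iff.mp (Subtype.ext_iff.mp hc)).2)
  convert h2 using 1
  funext c
  fin_cases c <;> rfl

theorem algInd_pair' {M : Type u} [Field M] [Algebra M L] {k : ℕ} {e : Fin k × ZMod 2 → L}
    (he : AlgebraicIndependent M e) (j : Fin k) :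
    AlgebraicIndependent M ![e (j, 0), e (j, 1)] := by
  have h2 := he.comp (fun c : Fin 2 => ((j, c) : Fin k × ZMod 2))
    (fun c c' hc => (Prod.ext_iff.mp hc).2)
  convert h2 using 1
  funext c
  fin_cases c <;> rfl

end

end MP7fX
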