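import Pool.Agent.Lib.MP_7f581e_ntX.Defs

/-!
The sign element `ss y` of the roots `y` of `X^6 + a X^2 + X + b` in characteristic two:
`ss y ^ 2 + ss y = 1 + a b` (`ss_rel`), the effect of a permutation of the roots (`ss_comp`), and
the equality of the sign elements of twins (`ss_twin`).

For distinct roots `u, v` one has `1 / (u + v) = a + (u + v)^4 + (u v)^2`. For twins and for each
pair `s ≠ t` of totals, with duad sums `A, B, C` of the common syntheme, `(z s + z t)^2 = A B C` and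
`(z s z t)^2 A B C = (A B + B C + C A)^2`; this gives `z s / (z s + z t)` up to adding `1`
(`sgn_local`), and `sgn_key` removes this ambiguity.
-/

set_option autoImplicit false

namespace MP7fX

open Equiv Polynomial

section sgn

variable {L : Type*} [Field L]

/-- The coefficients of the sextic in characteristic two. -/
structure SgnRel (a b : L) (y : Fin 6 → L) : Prop where
  e1 : y 0 + y 1 + y 2 + y 3 + y 4 + y 5 = 0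
  e2 : y 0 * y 1 + y 0 * y 2 + y 0 * y 3 + y 0 * y 4 + y 0 * y 5 + y 1 * y 2 + y 1 * y 3 +
    y 1 * y 4 + y 1 * y 5 + y 2 * y 3 + y 2 * y 4 + y 2 * y 5 + y 3 * y 4 + y 3 * y 5 +
    y 4 * y 5 = 0
  e3 : y 0 * y 1 * y 2 + y 0 * y 1 * y 3 + y 0 * y 1 * y 4 + y 0 * y 1 * y 5 +
    y 0 * y 2 * y 3 + y 0 * y 2 * y 4 + y 0 * y 2 * y 5 + y 0 * y 3 * y 4 + y 0 * y 3 * y 5 +
    y 0 * y 4 * y 5 + y 1 * y 2 * y 3 + y 1 * y 2 * y 4 + y 1 * y 2 * y 5 + y 1 * y 3 * y 4 +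
    y 1 * y 3 * y 5 + y 1 * y 4 * y 5 + y 2 * y 3 * y 4 + y 2 * y 3 * y 5 + y 2 * y 4 * y 5 +
    y 3 * y 4 * y 5 = 0
  e4 : y 0 * y 1 * y 2 * y 3 + y 0 * y 1 * y 2 * y 4 + y 0 * y 1 * y 2 * y 5 +
    y 0 * y 1 * y 3 * y 4 + y 0 * y 1 * y 3 * y 5 + y 0 * y 1 * y 4 * y 5 +
    y 0 * y 2 * y 3 * y 4 + y 0 * y 2 * y 3 * y 5 + y 0 * y 2 * y 4 * y 5 +
    y 0 * y 3 * y 4 * y 5 + y 1 * y 2 * y 3 * y 4 + y 1 * y 2 * y 3 * y 5 +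
    y 1 * y 2 * y 4 * y 5 + y 1 * y 3 * y 4 * y 5 + y 2 * y 3 * y 4 * y 5 = a
  e5 : y 0 * y 1 * y 2 * y 3 * y 4 + y 0 * y 1 * y 2 * y 3 * y 5 + y 0 * y 1 * y 2 * y 4 * y 5 +
    y 0 * y 1 * y 3 * y 4 * y 5 + y 0 * y 2 * y 3 * y 4 * y 5 + y 1 * y 2 * y 3 * y 4 * y 5 = 1
  e6 : y 0 * y 1 * y 2 * y 3 * y 4 * y 5 = b

theorem sgn_rel [CharP L 2] {a b : L} {y : Fin 6 → L} (h : IsRoots a b y) : SgnRel a b y := by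
  have two : (2 : L) = 0 := CharTwo.two_eq_zero
  have h' : (X ^ 6 + C a * X ^ 2 + X + C b : L[X]) =
      X ^ 6 - C (y 0 + y 1 + y 2 + y 3 + y 4 + y 5) * X ^ 5 +
      C (y 0 * y 1 + y 0 * y 2 + y 0 * y 3 + y 0 * y 4 + y 0 * y 5 + y 1 * y 2 + y 1 * y 3 +
    y 1 * y 4 + y 1 * y 5 + y 2 * y 3 + y 2 * y 4 + y 2 * y 5 + y 3 * y 4 + y 3 * y 5 +
    y 4 * y 5) * X ^ 4 -
      C (y 0 * y 1 * y 2 + y 0 * y 1 * y 3 + y 0 * y 1 * y 4 + y 0 * y 1 * y 5 +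
    y 0 * y 2 * y 3 + y 0 * y 2 * y 4 + y 0 * y 2 * y 5 + y 0 * y 3 * y 4 + y 0 * y 3 * y 5 +
    y 0 * y 4 * y 5 + y 1 * y 2 * y 3 + y 1 * y 2 * y 4 + y 1 * y 2 * y 5 + y 1 * y 3 * y 4 +
    y 1 * y 3 * y 5 + y 1 * y 4 * y 5 + y 2 * y 3 * y 4 + y 2 * y 3 * y 5 + y 2 * y 4 * y 5 +
    y 3 * y 4 * y 5) * X ^ 3 +
      C (y 0 * y 1 * y 2 * y 3 + y 0 * y 1 * y 2 * y 4 + y 0 * y 1 * y 2 * y 5 +
    y 0 * y 1 * y 3 * y 4 + y 0 * y 1 * y 3 * y 5 + y 0 * y 1 * y 4 * y 5 +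
    y 0 * y 2 * y 3 * y 4 + y 0 * y 2 * y 3 * y 5 + y 0 * y 2 * y 4 * y 5 +
    y 0 * y 3 * y 4 * y 5 + y 1 * y 2 * y 3 * y 4 + y 1 * y 2 * y 3 * y 5 +
    y 1 * y 2 * y 4 * y 5 + y 1 * y 3 * y 4 * y 5 + y 2 * y 3 * y 4 * y 5) * X ^ 2 -
      C (y 0 * y 1 * y 2 * y 3 * y 4 + y 0 * y 1 * y 2 * y 3 * y 5 + y 0 * y 1 * y 2 * y 4 * y 5 +
    y 0 * y 1 * y 3 * y 4 * y 5 + y 0 * y 2 * y 3 * y 4 * y 5 + y 1 * y 2 * y 3 * y 4 * y 5) * X +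
      C (y 0 * y 1 * y 2 * y 3 * y 4 * y 5) := by
    have h1 := h
    unfold IsRoots at h1
    rw [h1, Fin.prod_univ_six]
    simp only [map_add, map_mul]
    ring
  have c0 := congrArg (fun p => coeff p 0) h'
  have c1 := congrArg (fun p => coeff p 1) h'
  have c2 := congrArg (fun p => coeff p 2) h'
  have c3 := congrArg (fun p => coeff p 3) h'
  have c4 := congrArg (fun p => coeff p 4) h'
  have c5 := congrArg (fun p => coeff p 5) h'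
  simp only [coeff_add, coeff_sub, coeff_C_mul, coeff_X_pow, coeff_X, coeff_C] at c0 c1 c2 c3 c4 c5
  norm_num at c0 c1 c2 c3 c4 c5
  refine ⟨?_, ?_, ?_, ?_, ?_, ?_⟩
  · linear_combination c5
  · linear_combination -c4
  · linear_combination c3
  · linear_combination -c2
  · linear_combination c1 + (-1) * two
  · linear_combination -c0

/-- The fifth powers of the roots. -/
theorem sgn_pent [CharP L 2] {a b : L} {y : Fin 6 → L} (h : SgnRel a b y) :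
    y 0 ^ 5 = y 1 * y 2 * y 3 * y 4 * y 5 + 1 + a * y 0 ∧ y 1 ^ 5 = y 0 * y 2 * y 3 * y 4 * y 5 +
    1 + a * y 1 ∧ y 2 ^ 5 = y 0 * y 1 * y 3 * y 4 * y 5 + 1 + a * y 2 ∧ y 3 ^ 5 = y 0 * y 1 * y 2
    * y 4 * y 5 + 1 + a * y 3 ∧ y 4 ^ 5 = y 0 * y 1 * y 2 * y 3 * y 5 + 1 + a * y 4 ∧ y 5 ^ 5 =
    y 0 * y 1 * y 2 * y 3 * y 4 + 1 + a * y 5 := by
  have two : (2 : L) = 0 := CharTwo.two_eq_zero
  obtain ⟨h1, h2, h3, h4, h5, -⟩ := h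
  refine ⟨?_, ?_, ?_, ?_, ?_, ?_⟩
  · linear_combination h5 - y 0 * h4 + y 0 ^ 2 * h3 - y 0 ^ 3 * h2 + y 0 ^ 4 * h1 - (y 1 * y 2 *
      y 3 * y 4 * y 5 + a * y 0) * two
  · linear_combination h5 - y 1 * h4 + y 1 ^ 2 * h3 - y 1 ^ 3 * h2 + y 1 ^ 4 * h1 - (y 0 * y 2 *
      y 3 * y 4 * y 5 + a * y 1) * two
  · linear_combination h5 - y 2 * h4 + y 2 ^ 2 * h3 - y 2 ^ 3 * h2 + y 2 ^ 4 * h1 - (y 0 * y 1 *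
      y 3 * y 4 * y 5 + a * y 2) * two
  · linear_combination h5 - y 3 * h4 + y 3 ^ 2 * h3 - y 3 ^ 3 * h2 + y 3 ^ 4 * h1 - (y 0 * y 1 *
      y 2 * y 4 * y 5 + a * y 3) * two
  · linear_combination h5 - y 4 * h4 + y 4 ^ 2 * h3 - y 4 ^ 3 * h2 + y 4 ^ 4 * h1 - (y 0 * y 1 *
      y 2 * y 3 * y 5 + a * y 4) * two
  · linear_combination h5 - y 5 * h4 + y 5 ^ 2 * h3 - y 5 ^ 3 * h2 + y 5 ^ 4 * h1 - (y 0 * y 1 *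
      y 2 * y 3 * y 4 + a * y 5) * two


theorem sgn_quint [CharP L 2] {a b : L} {y : Fin 6 → L} (h : SgnRel a b y) :
    y 0 ^ 5 + y 1 ^ 5 + y 2 ^ 5 + y 3 ^ 5 + y 4 ^ 5 + y 5 ^ 5 = 1 ∧ y 0 ^ 5 * y 1 ^ 5 + y 0 ^ 5 *
    y 2 ^ 5 + y 0 ^ 5 * y 3 ^ 5 + y 0 ^ 5 * y 4 ^ 5 + y 0 ^ 5 * y 5 ^ 5 + y 1 ^ 5 * y 2 ^ 5 +
    y 1 ^ 5 * y 3 ^ 5 + y 1 ^ 5 * y 4 ^ 5 + y 1 ^ 5 * y 5 ^ 5 + y 2 ^ 5 * y 3 ^ 5 + y 2 ^ 5 *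
    y 4 ^ 5 + y 2 ^ 5 * y 5 ^ 5 + y 3 ^ 5 * y 4 ^ 5 + y 3 ^ 5 * y 5 ^ 5 + y 4 ^ 5 * y 5 ^ 5 = a *
    b := by
  have two : (2 : L) = 0 := CharTwo.two_eq_zero
  obtain ⟨q0, q1, q2, q3, q4, q5⟩ := sgn_pent h
  obtain ⟨h1, h2, h3, h4, h5, h6⟩ := h
  rw [q0, q1, q2, q3, q4, q5]
  constructor
  · linear_combination h5 + a * h1 + 3 * two
  · linear_combination (y 0 * y 1 * y 2 * y 3 * y 4 * y 5) * h4 + a * h6 + 5 * h5 + (a * (y 1 *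
      y 2 * y 3 * y 4 * y 5 + y 0 * y 2 * y 3 * y 4 * y 5 + y 0 * y 1 * y 3 * y 4 * y 5 + y 0 *
      y 1 * y 2 * y 4 * y 5 + y 0 * y 1 * y 2 * y 3 * y 5 + y 0 * y 1 * y 2 * y 3 * y 4) + 5 * a)
      * h1 + a ^ 2 * h2 + (10 - 3 * a * (y 0 * y 1 * y 2 * y 3 * y 4 * y 5)) * two

/-- The sum defining `ss`, written out. -/
theorem sgn_expand (y : Fin 6 → L) : ss y =
    y 0 / (y 0 + y 1) + y 0 / (y 0 + y 2) + y 0 / (y 0 + y 3) + y 0 / (y 0 + y 4) + y 0 / (y 0 +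
    y 5) + y 1 / (y 1 + y 2) + y 1 / (y 1 + y 3) + y 1 / (y 1 + y 4) + y 1 / (y 1 + y 5) + y 2 /
    (y 2 + y 3) + y 2 / (y 2 + y 4) + y 2 / (y 2 + y 5) + y 3 / (y 3 + y 4) + y 3 / (y 3 + y 5) +
    y 4 / (y 4 + y 5) := by
  have i0 : Finset.Ioi (0 : Fin 6) = {1, 2, 3, 4, 5} := by decide
  have i1 : Finset.Ioi (1 : Fin 6) = {2, 3, 4, 5} := by decide
  have i2 : Finset.Ioi (2 : Fin 6) = {3, 4, 5} := by decide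
  have i3 : Finset.Ioi (3 : Fin 6) = {4, 5} := by decide
  have i4 : Finset.Ioi (4 : Fin 6) = {5} := by decide
  have i5 : Finset.Ioi (5 : Fin 6) = ∅ := by decide
  unfold ss
  rw [Fin.sum_univ_six, i0, i1, i2, i3, i4, i5]
  repeat rw [Finset.sum_insert (by decide)]
  simp only [Finset.sum_singleton, Finset.sum_empty]
  ring

theorem sgn_root {a b : L} {y : Fin 6 → L} (h : IsRoots a b y) (i : Fin 6) :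
    y i ^ 6 + a * y i ^ 2 + y i + b = 0 := by
  have h1 := congrArg (eval (y i)) h
  rw [eval_prod, Finset.prod_eq_zero (Finset.mem_univ i) (by simp)] at h1
  simpa using h1

theorem sgn_inj [CharP L 2] {a b : L} {y : Fin 6 → L} (h : IsRoots a b y) :
    Function.Injective y := by
  rw [← separable_prod_X_sub_C_iff, ← h]
  have hd : derivative (X ^ 6 + C a * X ^ 2 + X + C b : L[X]) = 1 := by
    have two' : (2 : L[X]) = 0 := CharTwo.two_eq_zero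
    simp only [derivative_add, derivative_X_pow, derivative_C_mul, derivative_X, derivative_C]
    push_cast
    simp only [map_ofNat]
    linear_combination (3 * X ^ 5 + C a * X) * two'
  rw [separable_def, hd]
  exact isCoprime_one_right

theorem sgn_pair [CharP L 2] {a b u v : L} (hu : u ^ 6 + a * u ^ 2 + u + b = 0)
    (hv : v ^ 6 + a * v ^ 2 + v + b = 0) (huv : u ≠ v) :
    (u + v) * (a + (u + v) ^ 4 + (u * v) ^ 2) = 1 := by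
  have two : (2 : L) = 0 := CharTwo.two_eq_zero
  have hne : u + v ≠ 0 := fun h => huv (by linear_combination h - v * two)
  refine mul_left_cancel₀ hne ?_
  linear_combination hu + hv + (a * u * v + 3 * u ^ 5 * v + 8 * u ^ 4 * v ^ 2 +
    11 * u ^ 3 * v ^ 3 + 8 * u ^ 2 * v ^ 4 + 3 * u * v ^ 5 - (u + v) - b) * two

theorem sgn_div [CharP L 2] {a b : L} {y : Fin 6 → L} (h : IsRoots a b y) {i j : Fin 6}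
    (hij : i ≠ j) : y i / (y i + y j) = y i * (a + (y i + y j) ^ 4 + (y i * y j) ^ 2) := by
  have two : (2 : L) = 0 := CharTwo.two_eq_zero
  have hne : y i ≠ y j := fun e => hij (sgn_inj h e)
  have h0 : y i + y j ≠ 0 := fun h => hne (by linear_combination h - y j * two)
  have h1 := sgn_pair (sgn_root h i) (sgn_root h j) hne
  rw [div_eq_iff h0]
  linear_combination -y i * h1

/-- The relation of the sign element. -/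
theorem ss_rel [CharP L 2] {a b : L} {y : Fin 6 → L} (h : IsRoots a b y) :
    ss y ^ 2 + ss y = 1 + a * b := by
  have two : (2 : L) = 0 := CharTwo.two_eq_zero
  have key : ∀ i j : Fin 6, i ≠ j →
      (y i * (a + (y i + y j) ^ 4 + (y i * y j) ^ 2)) ^ 2 +
        y i * (a + (y i + y j) ^ 4 + (y i * y j) ^ 2) =
      y i * y j * (a ^ 2 + y i ^ 8 + y j ^ 8 + y i ^ 4 * y j ^ 4) := by
    intro i j hij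
    have hp := sgn_pair (sgn_root h i) (sgn_root h j) (fun e => hij (sgn_inj h e))
    have e4 : (y i + y j) ^ 4 = y i ^ 4 + y j ^ 4 := by
      linear_combination (2 * y i ^ 3 * y j + 3 * y i ^ 2 * y j ^ 2 + 2 * y i * y j ^ 3) * two
    have e2 : (a + (y i ^ 4 + y j ^ 4) + (y i * y j) ^ 2) ^ 2 =
        a ^ 2 + y i ^ 8 + y j ^ 8 + y i ^ 4 * y j ^ 4 := by
      simp only [CharTwo.add_sq]
      ring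
    rw [← e2]
    rw [e4] at hp ⊢
    linear_combination (-(y i * (a + (y i ^ 4 + y j ^ 4) + (y i * y j) ^ 2))) * hp +
      y i ^ 2 * (a + (y i ^ 4 + y j ^ 4) + (y i * y j) ^ 2) ^ 2 * two
  have k01 := key 0 1 (by decide)
  have k02 := key 0 2 (by decide)
  have k03 := key 0 3 (by decide)
  have k04 := key 0 4 (by decide)
  have k05 := key 0 5 (by decide)
  have k12 := key 1 2 (by decide)
  have k13 := key 1 3 (by decide)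
  have k14 := key 1 4 (by decide)
  have k15 := key 1 5 (by decide)
  have k23 := key 2 3 (by decide)
  have k24 := key 2 4 (by decide)
  have k25 := key 2 5 (by decide)
  have k34 := key 3 4 (by decide)
  have k35 := key 3 5 (by decide)
  have k45 := key 4 5 (by decide)
  have hr := sgn_rel h
  obtain ⟨hc, hT⟩ := sgn_quint hr
  have hS :
      y 0 * y 1 * (a ^ 2 + y 0 ^ 8 + y 1 ^ 8 + y 0 ^ 4 * y 1 ^ 4) + y 0 * y 2 * (a ^ 2 + y 0 ^ 8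
    + y 2 ^ 8 + y 0 ^ 4 * y 2 ^ 4) + y 0 * y 3 * (a ^ 2 + y 0 ^ 8 + y 3 ^ 8 + y 0 ^ 4 * y 3 ^ 4)
    + y 0 * y 4 * (a ^ 2 + y 0 ^ 8 + y 4 ^ 8 + y 0 ^ 4 * y 4 ^ 4) + y 0 * y 5 * (a ^ 2 + y 0 ^ 8
    + y 5 ^ 8 + y 0 ^ 4 * y 5 ^ 4) + y 1 * y 2 * (a ^ 2 + y 1 ^ 8 + y 2 ^ 8 + y 1 ^ 4 * y 2 ^ 4)
    + y 1 * y 3 * (a ^ 2 + y 1 ^ 8 + y 3 ^ 8 + y 1 ^ 4 * y 3 ^ 4) + y 1 * y 4 * (a ^ 2 + y 1 ^ 8
    + y 4 ^ 8 + y 1 ^ 4 * y 4 ^ 4) + y 1 * y 5 * (a ^ 2 + y 1 ^ 8 + y 5 ^ 8 + y 1 ^ 4 * y 5 ^ 4)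
    + y 2 * y 3 * (a ^ 2 + y 2 ^ 8 + y 3 ^ 8 + y 2 ^ 4 * y 3 ^ 4) + y 2 * y 4 * (a ^ 2 + y 2 ^ 8
    + y 4 ^ 8 + y 2 ^ 4 * y 4 ^ 4) + y 2 * y 5 * (a ^ 2 + y 2 ^ 8 + y 5 ^ 8 + y 2 ^ 4 * y 5 ^ 4)
    + y 3 * y 4 * (a ^ 2 + y 3 ^ 8 + y 4 ^ 8 + y 3 ^ 4 * y 4 ^ 4) + y 3 * y 5 * (a ^ 2 + y 3 ^ 8
    + y 5 ^ 8 + y 3 ^ 4 * y 5 ^ 4) + y 4 * y 5 * (a ^ 2 + y 4 ^ 8 + y 5 ^ 8 + y 4 ^ 4 * y 5 ^ 4)
    = 1 + a * b := by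
    linear_combination a ^ 2 * hr.e2 + (y 0 ^ 9 + y 1 ^ 9 + y 2 ^ 9 + y 3 ^ 9 + y 4 ^ 9 +
    y 5 ^ 9) * hr.e1 - (y 0 ^ 5 + y 1 ^ 5 + y 2 ^ 5 + y 3 ^ 5 + y 4 ^ 5 + y 5 ^ 5 + 1) * hc + 3 *
    hT + (a * b - 1) * two
  rw [sgn_expand y, sgn_div h (show (0 : Fin 6) ≠ 1 by decide),
    sgn_div h (show (0 : Fin 6) ≠ 2 by decide), sgn_div h (show (0 : Fin 6) ≠ 3 by decide),
    sgn_div h (show (0 : Fin 6) ≠ 4 by decide), sgn_div h (show (0 : Fin 6) ≠ 5 by decide),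
    sgn_div h (show (1 : Fin 6) ≠ 2 by decide), sgn_div h (show (1 : Fin 6) ≠ 3 by decide),
    sgn_div h (show (1 : Fin 6) ≠ 4 by decide), sgn_div h (show (1 : Fin 6) ≠ 5 by decide),
    sgn_div h (show (2 : Fin 6) ≠ 3 by decide), sgn_div h (show (2 : Fin 6) ≠ 4 by decide),
    sgn_div h (show (2 : Fin 6) ≠ 5 by decide), sgn_div h (show (3 : Fin 6) ≠ 4 by decide),
    sgn_div h (show (3 : Fin 6) ≠ 5 by decide), sgn_div h (show (4 : Fin 6) ≠ 5 by decide)]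
  simp only [CharTwo.add_sq]
  linear_combination hS + k01 + k02 + k03 + k04 + k05 + k12 + k13 + k14 + k15 + k23 + k24 +
    k25 + k34 + k35 + k45

theorem sgn_flip [CharP L 2] {u v : L} (h : u ≠ v) : v / (v + u) = u / (u + v) + 1 := by
  have two : (2 : L) = 0 := CharTwo.two_eq_zero
  have h0 : u + v ≠ 0 := fun e => h (by linear_combination e - v * two)
  rw [add_comm v u, div_add_one h0, div_left_inj' h0]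
  linear_combination -u * two

theorem sgn_swap [CharP L 2] {y : Fin 6 → L} (hy : Function.Injective y) (i j : Fin 6)
    (hij : i ≠ j) : ss (y ∘ swap i j) = ss y + 1 := by
  have two : (2 : L) = 0 := CharTwo.two_eq_zero
  have f : ∀ i j : Fin 6, i ≠ j → y j / (y j + y i) = y i / (y i + y j) + 1 :=
    fun i j hij => sgn_flip (fun e => hij (hy e))
  have k01 : ss (y ∘ swap 0 1) = ss y + 1 := by
    rw [sgn_expand, sgn_expand]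
    change y 1 / (y 1 + y 0) + y 1 / (y 1 + y 2) + y 1 / (y 1 + y 3) + y 1 / (y 1 + y 4) + y 1 /
      (y 1 + y 5) + y 0 / (y 0 + y 2) + y 0 / (y 0 + y 3) + y 0 / (y 0 + y 4) + y 0 / (y 0 + y 5)
      + y 2 / (y 2 + y 3) + y 2 / (y 2 + y 4) + y 2 / (y 2 + y 5) + y 3 / (y 3 + y 4) + y 3 /
      (y 3 + y 5) + y 4 / (y 4 + y 5) = _
    linear_combination f 0 1 (by decide)
  have k02 : ss (y ∘ swap 0 2) = ss y + 1 := by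
    rw [sgn_expand, sgn_expand]
    change y 2 / (y 2 + y 1) + y 2 / (y 2 + y 0) + y 2 / (y 2 + y 3) + y 2 / (y 2 + y 4) + y 2 /
      (y 2 + y 5) + y 1 / (y 1 + y 0) + y 1 / (y 1 + y 3) + y 1 / (y 1 + y 4) + y 1 / (y 1 + y 5)
      + y 0 / (y 0 + y 3) + y 0 / (y 0 + y 4) + y 0 / (y 0 + y 5) + y 3 / (y 3 + y 4) + y 3 /
      (y 3 + y 5) + y 4 / (y 4 + y 5) = _
    linear_combination f 1 2 (by decide) + f 0 2 (by decide) + f 0 1 (by decide) + 1 * two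
  have k03 : ss (y ∘ swap 0 3) = ss y + 1 := by
    rw [sgn_expand, sgn_expand]
    change y 3 / (y 3 + y 1) + y 3 / (y 3 + y 2) + y 3 / (y 3 + y 0) + y 3 / (y 3 + y 4) + y 3 /
      (y 3 + y 5) + y 1 / (y 1 + y 2) + y 1 / (y 1 + y 0) + y 1 / (y 1 + y 4) + y 1 / (y 1 + y 5)
      + y 2 / (y 2 + y 0) + y 2 / (y 2 + y 4) + y 2 / (y 2 + y 5) + y 0 / (y 0 + y 4) + y 0 /
      (y 0 + y 5) + y 4 / (y 4 + y 5) = _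
    linear_combination f 1 3 (by decide) + f 2 3 (by decide) + f 0 3 (by decide) + f 0 1 (by
      decide) + f 0 2 (by decide) + 2 * two
  have k04 : ss (y ∘ swap 0 4) = ss y + 1 := by
    rw [sgn_expand, sgn_expand]
    change y 4 / (y 4 + y 1) + y 4 / (y 4 + y 2) + y 4 / (y 4 + y 3) + y 4 / (y 4 + y 0) + y 4 /
      (y 4 + y 5) + y 1 / (y 1 + y 2) + y 1 / (y 1 + y 3) + y 1 / (y 1 + y 0) + y 1 / (y 1 + y 5)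
      + y 2 / (y 2 + y 3) + y 2 / (y 2 + y 0) + y 2 / (y 2 + y 5) + y 3 / (y 3 + y 0) + y 3 /
      (y 3 + y 5) + y 0 / (y 0 + y 5) = _
    linear_combination f 1 4 (by decide) + f 2 4 (by decide) + f 3 4 (by decide) + f 0 4 (by
      decide) + f 0 1 (by decide) + f 0 2 (by decide) + f 0 3 (by decide) + 3 * two
  have k05 : ss (y ∘ swap 0 5) = ss y + 1 := by
    rw [sgn_expand, sgn_expand]
    change y 5 / (y 5 + y 1) + y 5 / (y 5 + y 2) + y 5 / (y 5 + y 3) + y 5 / (y 5 + y 4) + y 5 /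
      (y 5 + y 0) + y 1 / (y 1 + y 2) + y 1 / (y 1 + y 3) + y 1 / (y 1 + y 4) + y 1 / (y 1 + y 0)
      + y 2 / (y 2 + y 3) + y 2 / (y 2 + y 4) + y 2 / (y 2 + y 0) + y 3 / (y 3 + y 4) + y 3 /
      (y 3 + y 0) + y 4 / (y 4 + y 0) = _
    linear_combination f 1 5 (by decide) + f 2 5 (by decide) + f 3 5 (by decide) + f 4 5 (by
      decide) + f 0 5 (by decide) + f 0 1 (by decide) + f 0 2 (by decide) + f 0 3 (by decide) + f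
      0 4 (by decide) + 4 * two
  have k12 : ss (y ∘ swap 1 2) = ss y + 1 := by
    rw [sgn_expand, sgn_expand]
    change y 0 / (y 0 + y 2) + y 0 / (y 0 + y 1) + y 0 / (y 0 + y 3) + y 0 / (y 0 + y 4) + y 0 /
      (y 0 + y 5) + y 2 / (y 2 + y 1) + y 2 / (y 2 + y 3) + y 2 / (y 2 + y 4) + y 2 / (y 2 + y 5)
      + y 1 / (y 1 + y 3) + y 1 / (y 1 + y 4) + y 1 / (y 1 + y 5) + y 3 / (y 3 + y 4) + y 3 /
      (y 3 + y 5) + y 4 / (y 4 + y 5) = _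
    linear_combination f 1 2 (by decide)
  have k13 : ss (y ∘ swap 1 3) = ss y + 1 := by
    rw [sgn_expand, sgn_expand]
    change y 0 / (y 0 + y 3) + y 0 / (y 0 + y 2) + y 0 / (y 0 + y 1) + y 0 / (y 0 + y 4) + y 0 /
      (y 0 + y 5) + y 3 / (y 3 + y 2) + y 3 / (y 3 + y 1) + y 3 / (y 3 + y 4) + y 3 / (y 3 + y 5)
      + y 2 / (y 2 + y 1) + y 2 / (y 2 + y 4) + y 2 / (y 2 + y 5) + y 1 / (y 1 + y 4) + y 1 /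
      (y 1 + y 5) + y 4 / (y 4 + y 5) = _
    linear_combination f 2 3 (by decide) + f 1 3 (by decide) + f 1 2 (by decide) + 1 * two
  have k14 : ss (y ∘ swap 1 4) = ss y + 1 := by
    rw [sgn_expand, sgn_expand]
    change y 0 / (y 0 + y 4) + y 0 / (y 0 + y 2) + y 0 / (y 0 + y 3) + y 0 / (y 0 + y 1) + y 0 /
      (y 0 + y 5) + y 4 / (y 4 + y 2) + y 4 / (y 4 + y 3) + y 4 / (y 4 + y 1) + y 4 / (y 4 + y 5)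
      + y 2 / (y 2 + y 3) + y 2 / (y 2 + y 1) + y 2 / (y 2 + y 5) + y 3 / (y 3 + y 1) + y 3 /
      (y 3 + y 5) + y 1 / (y 1 + y 5) = _
    linear_combination f 2 4 (by decide) + f 3 4 (by decide) + f 1 4 (by decide) + f 1 2 (by
      decide) + f 1 3 (by decide) + 2 * two
  have k15 : ss (y ∘ swap 1 5) = ss y + 1 := by
    rw [sgn_expand, sgn_expand]
    change y 0 / (y 0 + y 5) + y 0 / (y 0 + y 2) + y 0 / (y 0 + y 3) + y 0 / (y 0 + y 4) + y 0 /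
      (y 0 + y 1) + y 5 / (y 5 + y 2) + y 5 / (y 5 + y 3) + y 5 / (y 5 + y 4) + y 5 / (y 5 + y 1)
      + y 2 / (y 2 + y 3) + y 2 / (y 2 + y 4) + y 2 / (y 2 + y 1) + y 3 / (y 3 + y 4) + y 3 /
      (y 3 + y 1) + y 4 / (y 4 + y 1) = _
    linear_combination f 2 5 (by decide) + f 3 5 (by decide) + f 4 5 (by decide) + f 1 5 (by
      decide) + f 1 2 (by decide) + f 1 3 (by decide) + f 1 4 (by decide) + 3 * two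
  have k23 : ss (y ∘ swap 2 3) = ss y + 1 := by
    rw [sgn_expand, sgn_expand]
    change y 0 / (y 0 + y 1) + y 0 / (y 0 + y 3) + y 0 / (y 0 + y 2) + y 0 / (y 0 + y 4) + y 0 /
      (y 0 + y 5) + y 1 / (y 1 + y 3) + y 1 / (y 1 + y 2) + y 1 / (y 1 + y 4) + y 1 / (y 1 + y 5)
      + y 3 / (y 3 + y 2) + y 3 / (y 3 + y 4) + y 3 / (y 3 + y 5) + y 2 / (y 2 + y 4) + y 2 /
      (y 2 + y 5) + y 4 / (y 4 + y 5) = _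
    linear_combination f 2 3 (by decide)
  have k24 : ss (y ∘ swap 2 4) = ss y + 1 := by
    rw [sgn_expand, sgn_expand]
    change y 0 / (y 0 + y 1) + y 0 / (y 0 + y 4) + y 0 / (y 0 + y 3) + y 0 / (y 0 + y 2) + y 0 /
      (y 0 + y 5) + y 1 / (y 1 + y 4) + y 1 / (y 1 + y 3) + y 1 / (y 1 + y 2) + y 1 / (y 1 + y 5)
      + y 4 / (y 4 + y 3) + y 4 / (y 4 + y 2) + y 4 / (y 4 + y 5) + y 3 / (y 3 + y 2) + y 3 /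
      (y 3 + y 5) + y 2 / (y 2 + y 5) = _
    linear_combination f 3 4 (by decide) + f 2 4 (by decide) + f 2 3 (by decide) + 1 * two
  have k25 : ss (y ∘ swap 2 5) = ss y + 1 := by
    rw [sgn_expand, sgn_expand]
    change y 0 / (y 0 + y 1) + y 0 / (y 0 + y 5) + y 0 / (y 0 + y 3) + y 0 / (y 0 + y 4) + y 0 /
      (y 0 + y 2) + y 1 / (y 1 + y 5) + y 1 / (y 1 + y 3) + y 1 / (y 1 + y 4) + y 1 / (y 1 + y 2)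
      + y 5 / (y 5 + y 3) + y 5 / (y 5 + y 4) + y 5 / (y 5 + y 2) + y 3 / (y 3 + y 4) + y 3 /
      (y 3 + y 2) + y 4 / (y 4 + y 2) = _
    linear_combination f 3 5 (by decide) + f 4 5 (by decide) + f 2 5 (by decide) + f 2 3 (by
      decide) + f 2 4 (by decide) + 2 * two
  have k34 : ss (y ∘ swap 3 4) = ss y + 1 := by
    rw [sgn_expand, sgn_expand]
    change y 0 / (y 0 + y 1) + y 0 / (y 0 + y 2) + y 0 / (y 0 + y 4) + y 0 / (y 0 + y 3) + y 0 /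
      (y 0 + y 5) + y 1 / (y 1 + y 2) + y 1 / (y 1 + y 4) + y 1 / (y 1 + y 3) + y 1 / (y 1 + y 5)
      + y 2 / (y 2 + y 4) + y 2 / (y 2 + y 3) + y 2 / (y 2 + y 5) + y 4 / (y 4 + y 3) + y 4 /
      (y 4 + y 5) + y 3 / (y 3 + y 5) = _
    linear_combination f 3 4 (by decide)
  have k35 : ss (y ∘ swap 3 5) = ss y + 1 := by
    rw [sgn_expand, sgn_expand]
    change y 0 / (y 0 + y 1) + y 0 / (y 0 + y 2) + y 0 / (y 0 + y 5) + y 0 / (y 0 + y 4) + y 0 /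
      (y 0 + y 3) + y 1 / (y 1 + y 2) + y 1 / (y 1 + y 5) + y 1 / (y 1 + y 4) + y 1 / (y 1 + y 3)
      + y 2 / (y 2 + y 5) + y 2 / (y 2 + y 4) + y 2 / (y 2 + y 3) + y 5 / (y 5 + y 4) + y 5 /
      (y 5 + y 3) + y 4 / (y 4 + y 3) = _
    linear_combination f 4 5 (by decide) + f 3 5 (by decide) + f 3 4 (by decide) + 1 * two
  have k45 : ss (y ∘ swap 4 5) = ss y + 1 := by
    rw [sgn_expand, sgn_expand]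
    change y 0 / (y 0 + y 1) + y 0 / (y 0 + y 2) + y 0 / (y 0 + y 3) + y 0 / (y 0 + y 5) + y 0 /
      (y 0 + y 4) + y 1 / (y 1 + y 2) + y 1 / (y 1 + y 3) + y 1 / (y 1 + y 5) + y 1 / (y 1 + y 4)
      + y 2 / (y 2 + y 3) + y 2 / (y 2 + y 5) + y 2 / (y 2 + y 4) + y 3 / (y 3 + y 5) + y 3 /
      (y 3 + y 4) + y 5 / (y 5 + y 4) = _
    linear_combination f 4 5 (by decide)
  have hd : ∀ i j : Fin 6, i < j →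
      (i = 0 ∧ j = 1) ∨ (i = 0 ∧ j = 2) ∨ (i = 0 ∧ j = 3) ∨ (i = 0 ∧ j = 4) ∨ (i = 0 ∧ j = 5) ∨
      (i = 1 ∧ j = 2) ∨ (i = 1 ∧ j = 3) ∨ (i = 1 ∧ j = 4) ∨ (i = 1 ∧ j = 5) ∨ (i = 2 ∧ j = 3) ∨
      (i = 2 ∧ j = 4) ∨ (i = 2 ∧ j = 5) ∨ (i = 3 ∧ j = 4) ∨ (i = 3 ∧ j = 5) ∨ (i = 4 ∧ j = 5) :=
      by decide
  have key : ∀ i j : Fin 6, i < j → ss (y ∘ swap i j) = ss y + 1 := by
    intro i j hij
    rcases hd i j hij with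
      ⟨rfl, rfl⟩ | ⟨rfl, rfl⟩ | ⟨rfl, rfl⟩ | ⟨rfl, rfl⟩ | ⟨rfl, rfl⟩ | ⟨rfl, rfl⟩ | ⟨rfl, rfl⟩ |
      ⟨rfl, rfl⟩ | ⟨rfl, rfl⟩ | ⟨rfl, rfl⟩ | ⟨rfl, rfl⟩ | ⟨rfl, rfl⟩ | ⟨rfl, rfl⟩ | ⟨rfl, rfl⟩ |
      ⟨rfl, rfl⟩
    · exact k01
    · exact k02
    · exact k03
    · exact k04
    · exact k05
    · exact k12
    · exact k13
    · exact k14
    · exact k15
    · exact k23
    · exact k24
    · exact k25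
    · exact k34
    · exact k35
    · exact k45
  rcases lt_or_gt_of_ne hij with h | h
  · exact key i j h
  · rw [swap_comm]
    exact key j i h

/-- A permutation of the six points changes the sign element by the sign. -/
theorem ss_comp [CharP L 2] {y : Fin 6 → L} (hy : Function.Injective y) (P : Perm (Fin 6)) :
    ss (y ∘ P) = ss y + (if Perm.sign P = 1 then 0 else 1) := by
  suffices h : ∀ y : Fin 6 → L, Function.Injective y →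
      ss (y ∘ P) = ss y + (if Perm.sign P = 1 then 0 else 1) from h y hy
  clear hy y
  induction P using Perm.swap_induction_on with
  | one =>
    intro y _
    simp
  | swap_mul P i j hij ih' =>
    intro y hy
    have two : (2 : L) = 0 := CharTwo.two_eq_zero
    have e : y ∘ ⇑(swap i j * P) = (y ∘ ⇑(swap i j)) ∘ ⇑P := by
      rw [Perm.coe_mul]
      rfl
    have hs : Perm.sign (swap i j * P) = -Perm.sign P := by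
      rw [Perm.sign_mul, Perm.sign_swap hij, neg_one_mul]
    rw [e, ih' _ (hy.comp (swap i j).injective), sgn_swap hy i j hij, hs]
    rcases Int.units_eq_one_or (Perm.sign P) with h | h
    · rw [h, if_pos rfl, if_neg (by decide)]
      ring
    · rw [h, if_neg (by decide), neg_neg, if_pos rfl]
      linear_combination two

theorem map_ss {L' : Type*} [Field L'] (f : L →+* L') (y : Fin 6 → L) :
    f (ss y) = ss (f ∘ y) := by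
  unfold ss
  simp only [map_sum, map_div₀, map_add, Function.comp_apply]

theorem ss_mem (T : Subfield L) (y : Fin 6 → L) (hy : ∀ i, y i ∈ T) : ss y ∈ T := by
  unfold ss
  exact sum_mem fun i _ => sum_mem fun j _ => div_mem (hy i) (add_mem (hy i) (hy j))

theorem sgn_poly [CharP L 2] {x0 x1 x2 x3 e2 e4 : L}
    (he2 : e2 = x0 ^ 2 + x0 * x1 + x0 * x2 + x0 * x3 + x1 ^ 2 + x1 * x2 + x1 * x3 + x2 ^ 2 + x2 *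
      x3 + x3 ^ 2)
    (he4 : e4 = x0 ^ 2 * x1 * x2 + x0 ^ 2 * x1 * x3 + x0 ^ 2 * x2 * x3 + x0 * x1 ^ 2 * x2 + x0 *
      x1 ^ 2 * x3 + x0 * x1 * x2 ^ 2 + x0 * x1 * x2 * x3 + x0 * x1 * x3 ^ 2 + x0 * x2 ^ 2 * x3 +
      x0 * x2 * x3 ^ 2 + x1 ^ 2 * x2 * x3 + x1 * x2 ^ 2 * x3 + x1 * x2 * x3 ^ 2)
    (h3 : x0 ^ 2 * x1 + x0 ^ 2 * x2 + x0 ^ 2 * x3 + x0 * x1 ^ 2 + x0 * x2 ^ 2 + x0 * x3 ^ 2 +
      x1 ^ 2 * x2 + x1 ^ 2 * x3 + x1 * x2 ^ 2 + x1 * x3 ^ 2 + x2 ^ 2 * x3 + x2 * x3 ^ 2 = 0)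
    (h5 : x0 ^ 2 * x1 * x2 * x3 + x0 * x1 ^ 2 * x2 * x3 + x0 * x1 * x2 ^ 2 * x3 + x0 * x1 * x2 *
      x3 ^ 2 = 1) :
    (x0 ^ 2 + e2 + (x0 + x2 + x3) ^ 2) * (x0 + x2 + x3) * x2 * (x0 * x3 * (e2 + (x0 + x3) ^ 2)) +
      (x1 ^ 2 + e2 + (x0 + x3) ^ 2) * (x0 + x3) * x2 * (x1 * (x0 + x1 + x2 + x3) * (e2 + (x0 + x2
      + x3) ^ 2)) + (x2 ^ 2 + e2 + (x0 + x3) ^ 2) * (x0 + x3) * (x0 + x2 + x3) * (x2 ^ 4 + e2 *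
      x2 ^ 2 + e4) = (x0 ^ 2 + e2 + x1 ^ 2) * x1 * (x2 + x3) * (x0 * (x0 + x1 + x2 + x3) * (e2 +
      (x1 + x2 + x3) ^ 2)) + (x1 ^ 2 + e2 + (x1 + x2 + x3) ^ 2) * (x1 + x2 + x3) * (x2 + x3) *
      (x1 ^ 4 + e2 * x1 ^ 2 + e4) + (x2 ^ 2 + e2 + (x1 + x2 + x3) ^ 2) * (x1 + x2 + x3) * x1 *
      (x2 * x3 * (e2 + (x2 + x3) ^ 2)) + (x1 + x2 + x3) * x1 * (x2 + x3) := by
  have two : (2 : L) = 0 := CharTwo.two_eq_zero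
  subst he2 he4
  linear_combination (x0 ^ 3 * x2 ^ 2 + x0 ^ 2 * x1 ^ 2 * x3 + x0 ^ 2 * x1 * x2 * x3 + x0 ^ 2 *
    x1 * x3 ^ 2 + x0 ^ 2 * x2 ^ 3 + x0 ^ 2 * x2 ^ 2 * x3 + x0 * x1 ^ 3 * x3 + x0 * x1 ^ 2 * x2 *
    x3 + x0 * x1 * x3 ^ 3 + x0 * x2 ^ 2 * x3 ^ 2 + x1 ^ 4 * x2 + x1 ^ 4 * x3 + x1 ^ 2 * x2 ^ 3 +
    x1 ^ 2 * x2 ^ 2 * x3 + x1 ^ 2 * x2 * x3 ^ 2 + x1 ^ 2 * x3 ^ 3 + x2 ^ 3 * x3 ^ 2 + x2 ^ 2 *
    x3 ^ 3) * h3 + (x1 + x2 + x3) * x1 * (x2 + x3) * h5 + (2 * x0 ^ 6 * x1 * x2 + x0 ^ 6 * x2 ^ 2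
    + 4 * x0 ^ 6 * x2 * x3 + 3 * x0 ^ 5 * x1 ^ 2 * x2 - x0 ^ 5 * x1 ^ 2 * x3 + 7 * x0 ^ 5 * x1 *
    x2 ^ 2 + 14 * x0 ^ 5 * x1 * x2 * x3 + 2 * x0 ^ 5 * x1 * x3 ^ 2 + 2 * x0 ^ 5 * x2 ^ 3 + 14 *
    x0 ^ 5 * x2 ^ 2 * x3 + 15 * x0 ^ 5 * x2 * x3 ^ 2 + x0 ^ 4 * x1 ^ 3 * x2 - 5 * x0 ^ 4 * x1 ^ 3
    * x3 + 6 * x0 ^ 4 * x1 ^ 2 * x2 ^ 2 + 11 * x0 ^ 4 * x1 ^ 2 * x2 * x3 - 4 * x0 ^ 4 * x1 ^ 2 *
    x3 ^ 2 + 10 * x0 ^ 4 * x1 * x2 ^ 3 + 37 * x0 ^ 4 * x1 * x2 ^ 2 * x3 + 32 * x0 ^ 4 * x1 * x2 *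
    x3 ^ 2 + 3 * x0 ^ 4 * x1 * x3 ^ 3 + 4 * x0 ^ 4 * x2 ^ 4 + 21 * x0 ^ 4 * x2 ^ 3 * x3 + 39 *
    x0 ^ 4 * x2 ^ 2 * x3 ^ 2 + 25 * x0 ^ 4 * x2 * x3 ^ 3 - x0 ^ 3 * x1 ^ 4 * x2 - 7 * x0 ^ 3 *
    x1 ^ 4 * x3 - 7 * x0 ^ 3 * x1 ^ 3 * x2 * x3 - 13 * x0 ^ 3 * x1 ^ 3 * x3 ^ 2 + 4 * x0 ^ 3 *
    x1 ^ 2 * x2 ^ 3 + 19 * x0 ^ 3 * x1 ^ 2 * x2 ^ 2 * x3 + 17 * x0 ^ 3 * x1 ^ 2 * x2 * x3 ^ 2 - 7
    * x0 ^ 3 * x1 ^ 2 * x3 ^ 3 + 9 * x0 ^ 3 * x1 * x2 ^ 4 + 43 * x0 ^ 3 * x1 * x2 ^ 3 * x3 + 71 *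
    x0 ^ 3 * x1 * x2 ^ 2 * x3 ^ 2 + 40 * x0 ^ 3 * x1 * x2 * x3 ^ 3 + 2 * x0 ^ 3 * x1 * x3 ^ 4 + 5
    * x0 ^ 3 * x2 ^ 5 + 25 * x0 ^ 3 * x2 ^ 4 * x3 + 45 * x0 ^ 3 * x2 ^ 3 * x3 ^ 2 + 51 * x0 ^ 3 *
    x2 ^ 2 * x3 ^ 3 + 23 * x0 ^ 3 * x2 * x3 ^ 4 - 5 * x0 ^ 2 * x1 ^ 5 * x2 - 8 * x0 ^ 2 * x1 ^ 5
    * x3 - 10 * x0 ^ 2 * x1 ^ 4 * x2 ^ 2 - 24 * x0 ^ 2 * x1 ^ 4 * x2 * x3 - 18 * x0 ^ 2 * x1 ^ 4
    * x3 ^ 2 - 8 * x0 ^ 2 * x1 ^ 3 * x2 ^ 3 - 25 * x0 ^ 2 * x1 ^ 3 * x2 ^ 2 * x3 - 31 * x0 ^ 2 *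
    x1 ^ 3 * x2 * x3 ^ 2 - 21 * x0 ^ 2 * x1 ^ 3 * x3 ^ 3 - x0 ^ 2 * x1 ^ 2 * x2 ^ 4 - 2 * x0 ^ 2
    * x1 ^ 2 * x2 ^ 3 * x3 + 2 * x0 ^ 2 * x1 ^ 2 * x2 ^ 2 * x3 ^ 2 - 2 * x0 ^ 2 * x1 ^ 2 * x2 *
    x3 ^ 3 - 9 * x0 ^ 2 * x1 ^ 2 * x3 ^ 4 + 5 * x0 ^ 2 * x1 * x2 ^ 5 + 23 * x0 ^ 2 * x1 * x2 ^ 4
    * x3 + 47 * x0 ^ 2 * x1 * x2 ^ 3 * x3 ^ 2 + 53 * x0 ^ 2 * x1 * x2 ^ 2 * x3 ^ 3 + 23 * x0 ^ 2
    * x1 * x2 * x3 ^ 4 + 4 * x0 ^ 2 * x2 ^ 6 + 17 * x0 ^ 2 * x2 ^ 5 * x3 + 34 * x0 ^ 2 * x2 ^ 4 *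
    x3 ^ 2 + 39 * x0 ^ 2 * x2 ^ 3 * x3 ^ 3 + 32 * x0 ^ 2 * x2 ^ 2 * x3 ^ 4 + 11 * x0 ^ 2 * x2 *
    x3 ^ 5 - 4 * x0 * x1 ^ 6 * x2 - 5 * x0 * x1 ^ 6 * x3 - 12 * x0 * x1 ^ 5 * x2 ^ 2 - 26 * x0 *
    x1 ^ 5 * x2 * x3 - 15 * x0 * x1 ^ 5 * x3 ^ 2 - 17 * x0 * x1 ^ 4 * x2 ^ 3 - 49 * x0 * x1 ^ 4 *
    x2 ^ 2 * x3 - 50 * x0 * x1 ^ 4 * x2 * x3 ^ 2 - 22 * x0 * x1 ^ 4 * x3 ^ 3 - 12 * x0 * x1 ^ 3 *
    x2 ^ 4 - 44 * x0 * x1 ^ 3 * x2 ^ 3 * x3 - 64 * x0 * x1 ^ 3 * x2 ^ 2 * x3 ^ 2 - 48 * x0 *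
    x1 ^ 3 * x2 * x3 ^ 3 - 17 * x0 * x1 ^ 3 * x3 ^ 4 - 4 * x0 * x1 ^ 2 * x2 ^ 5 - 18 * x0 *
    x1 ^ 2 * x2 ^ 4 * x3 - 37 * x0 * x1 ^ 2 * x2 ^ 3 * x3 ^ 2 - 34 * x0 * x1 ^ 2 * x2 ^ 2 *
    x3 ^ 3 - 17 * x0 * x1 ^ 2 * x2 * x3 ^ 4 - 8 * x0 * x1 ^ 2 * x3 ^ 5 + x0 * x1 * x2 ^ 6 + 6 *
    x0 * x1 * x2 ^ 5 * x3 + 8 * x0 * x1 * x2 ^ 4 * x3 ^ 2 + 13 * x0 * x1 * x2 ^ 3 * x3 ^ 3 + 13 *
    x0 * x1 * x2 ^ 2 * x3 ^ 4 + 4 * x0 * x1 * x2 * x3 ^ 5 - x0 * x1 * x3 ^ 6 + 2 * x0 * x2 ^ 7 +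
    8 * x0 * x2 ^ 6 * x3 + 14 * x0 * x2 ^ 5 * x3 ^ 2 + 17 * x0 * x2 ^ 4 * x3 ^ 3 + 12 * x0 *
    x2 ^ 3 * x3 ^ 4 + 8 * x0 * x2 ^ 2 * x3 ^ 5 + 2 * x0 * x2 * x3 ^ 6 - 3 * x1 ^ 7 * x2 - 3 *
    x1 ^ 7 * x3 - 8 * x1 ^ 6 * x2 ^ 2 - 16 * x1 ^ 6 * x2 * x3 - 8 * x1 ^ 6 * x3 ^ 2 - 10 * x1 ^ 5
    * x2 ^ 3 - 29 * x1 ^ 5 * x2 ^ 2 * x3 - 29 * x1 ^ 5 * x2 * x3 ^ 2 - 10 * x1 ^ 5 * x3 ^ 3 - 8 *
    x1 ^ 4 * x2 ^ 4 - 34 * x1 ^ 4 * x2 ^ 3 * x3 - 51 * x1 ^ 4 * x2 ^ 2 * x3 ^ 2 - 33 * x1 ^ 4 *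
    x2 * x3 ^ 3 - 8 * x1 ^ 4 * x3 ^ 4 - 4 * x1 ^ 3 * x2 ^ 5 - 24 * x1 ^ 3 * x2 ^ 4 * x3 - 51 *
    x1 ^ 3 * x2 ^ 3 * x3 ^ 2 - 49 * x1 ^ 3 * x2 ^ 2 * x3 ^ 3 - 22 * x1 ^ 3 * x2 * x3 ^ 4 - 4 *
    x1 ^ 3 * x3 ^ 5 - x1 ^ 2 * x2 ^ 6 - 11 * x1 ^ 2 * x2 ^ 5 * x3 - 33 * x1 ^ 2 * x2 ^ 4 * x3 ^ 2
    - 44 * x1 ^ 2 * x2 ^ 3 * x3 ^ 3 - 29 * x1 ^ 2 * x2 ^ 2 * x3 ^ 4 - 9 * x1 ^ 2 * x2 * x3 ^ 5 -
    x1 ^ 2 * x3 ^ 6 - x1 * x2 ^ 6 * x3 - 6 * x1 * x2 ^ 5 * x3 ^ 2 - 11 * x1 * x2 ^ 4 * x3 ^ 3 - 9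
    * x1 * x2 ^ 3 * x3 ^ 4 - 3 * x1 * x2 ^ 2 * x3 ^ 5 + 2 * x2 ^ 7 * x3 + 4 * x2 ^ 6 * x3 ^ 2 + 5
    * x2 ^ 5 * x3 ^ 3 + 4 * x2 ^ 4 * x3 ^ 4 + 2 * x2 ^ 3 * x3 ^ 5 + x2 ^ 2 * x3 ^ 6) * two

theorem sgn_invs [CharP L 2] {x0 x1 x2 x3 e2 e4 : L}
    (he2 : e2 = x0 ^ 2 + x0 * x1 + x0 * x2 + x0 * x3 + x1 ^ 2 + x1 * x2 + x1 * x3 + x2 ^ 2 + x2 *
      x3 + x3 ^ 2)
    (he4 : e4 = x0 ^ 2 * x1 * x2 + x0 ^ 2 * x1 * x3 + x0 ^ 2 * x2 * x3 + x0 * x1 ^ 2 * x2 + x0 *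
      x1 ^ 2 * x3 + x0 * x1 * x2 ^ 2 + x0 * x1 * x2 * x3 + x0 * x1 * x3 ^ 2 + x0 * x2 ^ 2 * x3 +
      x0 * x2 * x3 ^ 2 + x1 ^ 2 * x2 * x3 + x1 * x2 ^ 2 * x3 + x1 * x2 * x3 ^ 2)
    (h3 : x0 ^ 2 * x1 + x0 ^ 2 * x2 + x0 ^ 2 * x3 + x0 * x1 ^ 2 + x0 * x2 ^ 2 + x0 * x3 ^ 2 +
      x1 ^ 2 * x2 + x1 ^ 2 * x3 + x1 * x2 ^ 2 + x1 * x3 ^ 2 + x2 ^ 2 * x3 + x2 * x3 ^ 2 = 0)
    (h5 : x0 ^ 2 * x1 * x2 * x3 + x0 * x1 ^ 2 * x2 * x3 + x0 * x1 * x2 ^ 2 * x3 + x0 * x1 * x2 *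
      x3 ^ 2 = 1) :
    (x0 + x3) * (x0 * x3 * (e2 + (x0 + x3) ^ 2)) = 1 ∧ (x0 + x2 + x3) * (x1 * (x0 + x1 + x2 + x3)
      * (e2 + (x0 + x2 + x3) ^ 2)) = 1 ∧ x2 * (x2 ^ 4 + e2 * x2 ^ 2 + e4) = 1 ∧ (x1 + x2 + x3) *
      (x0 * (x0 + x1 + x2 + x3) * (e2 + (x1 + x2 + x3) ^ 2)) = 1 ∧ x1 * (x1 ^ 4 + e2 * x1 ^ 2 +
      e4) = 1 ∧ (x2 + x3) * (x2 * x3 * (e2 + (x2 + x3) ^ 2)) = 1 := by
  have two : (2 : L) = 0 := CharTwo.two_eq_zero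
  subst he2 he4
  refine ⟨?_, ?_, ?_, ?_, ?_, ?_⟩
  · linear_combination h5 + (x0 * x3) * h3 + (x0 ^ 4 * x3 + 2 * x0 ^ 3 * x3 ^ 2 + x0 ^ 2 * x1 *
      x3 ^ 2 + x0 ^ 2 * x2 * x3 ^ 2 + 2 * x0 ^ 2 * x3 ^ 3 - x0 * x1 ^ 2 * x2 * x3 - x0 * x1 *
      x2 ^ 2 * x3 + x0 * x3 ^ 4) * two
  · linear_combination h5 + (x0 * x1 + x1 ^ 2 + x1 * x2 + x1 * x3) * h3 + (x0 ^ 4 * x1 + x0 ^ 3 *
      x1 ^ 2 + 3 * x0 ^ 3 * x1 * x2 + 3 * x0 ^ 3 * x1 * x3 + 3 * x0 ^ 2 * x1 ^ 2 * x2 + 3 *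
      x0 ^ 2 * x1 ^ 2 * x3 + 4 * x0 ^ 2 * x1 * x2 ^ 2 + 8 * x0 ^ 2 * x1 * x2 * x3 + 4 * x0 ^ 2 *
      x1 * x3 ^ 2 + x0 * x1 ^ 3 * x2 + x0 * x1 ^ 3 * x3 + 3 * x0 * x1 ^ 2 * x2 ^ 2 + 7 * x0 *
      x1 ^ 2 * x2 * x3 + 3 * x0 * x1 ^ 2 * x3 ^ 2 + 3 * x0 * x1 * x2 ^ 3 + 8 * x0 * x1 * x2 ^ 2 *
      x3 + 8 * x0 * x1 * x2 * x3 ^ 2 + 3 * x0 * x1 * x3 ^ 3 + x1 ^ 3 * x2 * x3 + x1 ^ 2 * x2 ^ 3
      + 3 * x1 ^ 2 * x2 ^ 2 * x3 + 3 * x1 ^ 2 * x2 * x3 ^ 2 + x1 ^ 2 * x3 ^ 3 + x1 * x2 ^ 4 + 3 *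
      x1 * x2 ^ 3 * x3 + 4 * x1 * x2 ^ 2 * x3 ^ 2 + 3 * x1 * x2 * x3 ^ 3 + x1 * x3 ^ 4) * two
  · linear_combination h5 + (x2 ^ 2) * h3 + (x0 * x1 * x2 ^ 3 + x0 * x2 ^ 3 * x3 + x1 * x2 ^ 3 *
      x3 + x2 ^ 5) * two
  · linear_combination h5 + (x0 ^ 2 + x0 * x1 + x0 * x2 + x0 * x3) * h3 + (x0 ^ 3 * x1 * x2 +
      x0 ^ 3 * x1 * x3 + x0 ^ 3 * x2 * x3 + x0 ^ 2 * x1 ^ 3 + 3 * x0 ^ 2 * x1 ^ 2 * x2 + 3 *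
      x0 ^ 2 * x1 ^ 2 * x3 + 3 * x0 ^ 2 * x1 * x2 ^ 2 + 7 * x0 ^ 2 * x1 * x2 * x3 + 3 * x0 ^ 2 *
      x1 * x3 ^ 2 + x0 ^ 2 * x2 ^ 3 + 3 * x0 ^ 2 * x2 ^ 2 * x3 + 3 * x0 ^ 2 * x2 * x3 ^ 2 +
      x0 ^ 2 * x3 ^ 3 + x0 * x1 ^ 4 + 3 * x0 * x1 ^ 3 * x2 + 3 * x0 * x1 ^ 3 * x3 + 4 * x0 *
      x1 ^ 2 * x2 ^ 2 + 8 * x0 * x1 ^ 2 * x2 * x3 + 4 * x0 * x1 ^ 2 * x3 ^ 2 + 3 * x0 * x1 *
      x2 ^ 3 + 8 * x0 * x1 * x2 ^ 2 * x3 + 8 * x0 * x1 * x2 * x3 ^ 2 + 3 * x0 * x1 * x3 ^ 3 + x0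
      * x2 ^ 4 + 3 * x0 * x2 ^ 3 * x3 + 4 * x0 * x2 ^ 2 * x3 ^ 2 + 3 * x0 * x2 * x3 ^ 3 + x0 *
      x3 ^ 4) * two
  · linear_combination h5 + (x1 ^ 2) * h3 + (x0 * x1 ^ 3 * x2 + x0 * x1 ^ 3 * x3 + x1 ^ 5 +
      x1 ^ 3 * x2 * x3) * two
  · linear_combination h5 + (x2 * x3) * h3 + (-x0 ^ 2 * x1 * x2 * x3 - x0 * x1 ^ 2 * x2 * x3 + x0
      * x2 ^ 2 * x3 ^ 2 + x1 * x2 ^ 2 * x3 ^ 2 + x2 ^ 4 * x3 + 2 * x2 ^ 3 * x3 ^ 2 + 2 * x2 ^ 2 *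
      x3 ^ 3 + x2 * x3 ^ 4) * two

theorem sgn_shift [CharP L 2] {a y0 y1 y2 y3 y4 y5 x0 x1 x2 x3 : L} (h0 : y0 = x0 + y5)
    (h1 : y1 = x1 + y5) (h2 : y2 = x2 + y5) (h3 : y3 = x3 + y5)
    (e1 : y0 + y1 + y2 + y3 + y4 + y5 = 0)
    (e2 : y0 * y1 + y0 * y2 + y0 * y3 + y0 * y4 + y0 * y5 + y1 * y2 + y1 * y3 + y1 * y4 + y1 * y5
      + y2 * y3 + y2 * y4 + y2 * y5 + y3 * y4 + y3 * y5 + y4 * y5 = 0)
    (e3 : y0 * y1 * y2 + y0 * y1 * y3 + y0 * y1 * y4 + y0 * y1 * y5 + y0 * y2 * y3 + y0 * y2 * y4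
      + y0 * y2 * y5 + y0 * y3 * y4 + y0 * y3 * y5 + y0 * y4 * y5 + y1 * y2 * y3 + y1 * y2 * y4 +
      y1 * y2 * y5 + y1 * y3 * y4 + y1 * y3 * y5 + y1 * y4 * y5 + y2 * y3 * y4 + y2 * y3 * y5 +
      y2 * y4 * y5 + y3 * y4 * y5 = 0)
    (e4 : y0 * y1 * y2 * y3 + y0 * y1 * y2 * y4 + y0 * y1 * y2 * y5 + y0 * y1 * y3 * y4 + y0 * y1
      * y3 * y5 + y0 * y1 * y4 * y5 + y0 * y2 * y3 * y4 + y0 * y2 * y3 * y5 + y0 * y2 * y4 * y5 +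
      y0 * y3 * y4 * y5 + y1 * y2 * y3 * y4 + y1 * y2 * y3 * y5 + y1 * y2 * y4 * y5 + y1 * y3 *
      y4 * y5 + y2 * y3 * y4 * y5 = a)
    (e5 : y0 * y1 * y2 * y3 * y4 + y0 * y1 * y2 * y3 * y5 + y0 * y1 * y2 * y4 * y5 + y0 * y1 * y3
      * y4 * y5 + y0 * y2 * y3 * y4 * y5 + y1 * y2 * y3 * y4 * y5 = 1) :
    y4 = x0 + x1 + x2 + x3 + y5 ∧ y5 ^ 2 = x0 ^ 2 + x0 * x1 + x0 * x2 + x0 * x3 + x1 ^ 2 + x1 *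
    x2 + x1 * x3 + x2 ^ 2 + x2 * x3 + x3 ^ 2 ∧ a = x0 ^ 2 * x1 * x2 + x0 ^ 2 * x1 * x3 + x0 ^ 2 *
    x2 * x3 + x0 * x1 ^ 2 * x2 + x0 * x1 ^ 2 * x3 + x0 * x1 * x2 ^ 2 + x0 * x1 * x2 * x3 + x0 *
    x1 * x3 ^ 2 + x0 * x2 ^ 2 * x3 + x0 * x2 * x3 ^ 2 + x1 ^ 2 * x2 * x3 + x1 * x2 ^ 2 * x3 + x1
    * x2 * x3 ^ 2 + y5 ^ 4 ∧ x0 ^ 2 * x1 + x0 ^ 2 * x2 + x0 ^ 2 * x3 + x0 * x1 ^ 2 + x0 * x2 ^ 2
    + x0 * x3 ^ 2 + x1 ^ 2 * x2 + x1 ^ 2 * x3 + x1 * x2 ^ 2 + x1 * x3 ^ 2 + x2 ^ 2 * x3 + x2 *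
    x3 ^ 2 = 0 ∧ x0 ^ 2 * x1 * x2 * x3 + x0 * x1 ^ 2 * x2 * x3 + x0 * x1 * x2 ^ 2 * x3 + x0 * x1
    * x2 * x3 ^ 2 = 1 := by
  have two : (2 : L) = 0 := CharTwo.two_eq_zero
  subst h0 h1 h2 h3
  have h4 : y4 = x0 + x1 + x2 + x3 + y5 := by
    linear_combination e1 - (x0 + x1 + x2 + x3 + 3 * y5) * two
  subst h4
  have r2 : y5 ^ 2 = x0 ^ 2 + x0 * x1 + x0 * x2 + x0 * x3 + x1 ^ 2 + x1 * x2 + x1 * x3 + x2 ^ 2 +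
      x2 * x3 + x3 ^ 2 := by
    linear_combination e2 + (-x0 ^ 2 - 2 * x0 * x1 - 2 * x0 * x2 - 2 * x0 * x3 - 5 * x0 * y5 -
      x1 ^ 2 - 2 * x1 * x2 - 2 * x1 * x3 - 5 * x1 * y5 - x2 ^ 2 - 2 * x2 * x3 - 5 * x2 * y5 -
      x3 ^ 2 - 5 * x3 * y5 - 7 * y5 ^ 2) * two
  have r3 : x0 ^ 2 * x1 + x0 ^ 2 * x2 + x0 ^ 2 * x3 + x0 * x1 ^ 2 + x0 * x2 ^ 2 + x0 * x3 ^ 2 +
      x1 ^ 2 * x2 + x1 ^ 2 * x3 + x1 * x2 ^ 2 + x1 * x3 ^ 2 + x2 ^ 2 * x3 + x2 * x3 ^ 2 = 0 := by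
    linear_combination e3 + (-2 * x0 ^ 2 * y5 - 2 * x0 * x1 * x2 - 2 * x0 * x1 * x3 - 6 * x0 * x1
      * y5 - 2 * x0 * x2 * x3 - 6 * x0 * x2 * y5 - 6 * x0 * x3 * y5 - 10 * x0 * y5 ^ 2 - 2 *
      x1 ^ 2 * y5 - 2 * x1 * x2 * x3 - 6 * x1 * x2 * y5 - 6 * x1 * x3 * y5 - 10 * x1 * y5 ^ 2 - 2
      * x2 ^ 2 * y5 - 6 * x2 * x3 * y5 - 10 * x2 * y5 ^ 2 - 2 * x3 ^ 2 * y5 - 10 * x3 * y5 ^ 2 -
      10 * y5 ^ 3) * two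
  have r4 : a = x0 ^ 2 * x1 * x2 + x0 ^ 2 * x1 * x3 + x0 ^ 2 * x2 * x3 + x0 * x1 ^ 2 * x2 + x0 *
      x1 ^ 2 * x3 + x0 * x1 * x2 ^ 2 + x0 * x1 * x2 * x3 + x0 * x1 * x3 ^ 2 + x0 * x2 ^ 2 * x3 +
      x0 * x2 * x3 ^ 2 + x1 ^ 2 * x2 * x3 + x1 * x2 ^ 2 * x3 + x1 * x2 * x3 ^ 2 + y5 ^ 4 := by
    linear_combination -e4 + y5 * r3 - (-x0 ^ 2 * x1 * y5 - x0 ^ 2 * x2 * y5 - x0 ^ 2 * x3 * y5 -
      3 * x0 ^ 2 * y5 ^ 2 - x0 * x1 ^ 2 * y5 - 2 * x0 * x1 * x2 * x3 - 6 * x0 * x1 * x2 * y5 - 6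
      * x0 * x1 * x3 * y5 - 9 * x0 * x1 * y5 ^ 2 - x0 * x2 ^ 2 * y5 - 6 * x0 * x2 * x3 * y5 - 9 *
      x0 * x2 * y5 ^ 2 - x0 * x3 ^ 2 * y5 - 9 * x0 * x3 * y5 ^ 2 - 10 * x0 * y5 ^ 3 - x1 ^ 2 * x2
      * y5 - x1 ^ 2 * x3 * y5 - 3 * x1 ^ 2 * y5 ^ 2 - x1 * x2 ^ 2 * y5 - 6 * x1 * x2 * x3 * y5 -
      9 * x1 * x2 * y5 ^ 2 - x1 * x3 ^ 2 * y5 - 9 * x1 * x3 * y5 ^ 2 - 10 * x1 * y5 ^ 3 - x2 ^ 2
      * x3 * y5 - 3 * x2 ^ 2 * y5 ^ 2 - x2 * x3 ^ 2 * y5 - 9 * x2 * x3 * y5 ^ 2 - 10 * x2 *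
      y5 ^ 3 - 3 * x3 ^ 2 * y5 ^ 2 - 10 * x3 * y5 ^ 3 - 7 * y5 ^ 4) * two
  have r5 : x0 ^ 2 * x1 * x2 * x3 + x0 * x1 ^ 2 * x2 * x3 + x0 * x1 * x2 ^ 2 * x3 + x0 * x1 * x2
      * x3 ^ 2 = 1 := by
    linear_combination e5 - y5 ^ 2 * r3 + (-x0 ^ 2 * x1 * x2 * y5 - x0 ^ 2 * x1 * x3 * y5 -
      x0 ^ 2 * x1 * y5 ^ 2 - x0 ^ 2 * x2 * x3 * y5 - x0 ^ 2 * x2 * y5 ^ 2 - x0 ^ 2 * x3 * y5 ^ 2
      - 2 * x0 ^ 2 * y5 ^ 3 - x0 * x1 ^ 2 * x2 * y5 - x0 * x1 ^ 2 * x3 * y5 - x0 * x1 ^ 2 *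
      y5 ^ 2 - x0 * x1 * x2 ^ 2 * y5 - 5 * x0 * x1 * x2 * x3 * y5 - 6 * x0 * x1 * x2 * y5 ^ 2 -
      x0 * x1 * x3 ^ 2 * y5 - 6 * x0 * x1 * x3 * y5 ^ 2 - 6 * x0 * x1 * y5 ^ 3 - x0 * x2 ^ 2 * x3
      * y5 - x0 * x2 ^ 2 * y5 ^ 2 - x0 * x2 * x3 ^ 2 * y5 - 6 * x0 * x2 * x3 * y5 ^ 2 - 6 * x0 *
      x2 * y5 ^ 3 - x0 * x3 ^ 2 * y5 ^ 2 - 6 * x0 * x3 * y5 ^ 3 - 5 * x0 * y5 ^ 4 - x1 ^ 2 * x2 *
      x3 * y5 - x1 ^ 2 * x2 * y5 ^ 2 - x1 ^ 2 * x3 * y5 ^ 2 - 2 * x1 ^ 2 * y5 ^ 3 - x1 * x2 ^ 2 *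
      x3 * y5 - x1 * x2 ^ 2 * y5 ^ 2 - x1 * x2 * x3 ^ 2 * y5 - 6 * x1 * x2 * x3 * y5 ^ 2 - 6 * x1
      * x2 * y5 ^ 3 - x1 * x3 ^ 2 * y5 ^ 2 - 6 * x1 * x3 * y5 ^ 3 - 5 * x1 * y5 ^ 4 - x2 ^ 2 * x3
      * y5 ^ 2 - 2 * x2 ^ 2 * y5 ^ 3 - x2 * x3 ^ 2 * y5 ^ 2 - 6 * x2 * x3 * y5 ^ 3 - 5 * x2 *
      y5 ^ 4 - 2 * x3 ^ 2 * y5 ^ 3 - 5 * x3 * y5 ^ 4 - 3 * y5 ^ 5) * two
  exact ⟨rfl, r2, r4, r3, r5⟩

/-- The local form of the sign element. -/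
noncomputable def sgnU (u0 u1 u2 u3 u4 u5 : L) : L :=
  u0 / (u0 + u3) + u1 / (u1 + u4) + u2 / (u2 + u5) + (u0 + u3) / (u2 + u5) +
    (u1 + u4) / (u0 + u3) + (u0 + u3) / (u1 + u4)

theorem sgn_sq [CharP L 2] {A B C vA vB vC u0 u1 u2 : L} (hA : A * vA = 1) (hB : B * vB = 1)
    (hC : C * vC = 1) :
    A * B * C * (u0 * vA + u1 * vB + u2 * vC + A * vC + B * vA + A * vB) ^ 2 =
      (u0 ^ 2 + B ^ 2) * B * C * vA + (u1 ^ 2 + A ^ 2) * A * C * vB +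
        (u2 ^ 2 + A ^ 2) * A * B * vC := by
  simp only [CharTwo.add_sq]
  linear_combination ((u0 ^ 2 + B ^ 2) * B * C * vA) * hA + ((u1 ^ 2 + A ^ 2) * A * C * vB) * hB +
    ((u2 ^ 2 + A ^ 2) * A * B * vC) * hC

theorem sgn_key [CharP L 2] {a b : L} {y : Fin 6 → L} (hr : SgnRel a b y) :
    (y 0 + y 3) * (y 1 + y 4) * (y 2 + y 5) * sgnU (y 0) (y 1) (y 2) (y 3) (y 4) (y 5) ^ 2 =
    (y 0 + y 4) * (y 1 + y 5) * (y 2 + y 3) *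
      (sgnU (y 0) (y 1) (y 2) (y 4) (y 5) (y 3) + 1) ^ 2 := by
  have two : (2 : L) = 0 := CharTwo.two_eq_zero
  obtain ⟨x0, hx0⟩ : ∃ x0, y 0 = x0 + y 5 := ⟨y 0 + y 5, by linear_combination -(y 5) * two⟩
  obtain ⟨x1, hx1⟩ : ∃ x1, y 1 = x1 + y 5 := ⟨y 1 + y 5, by linear_combination -(y 5) * two⟩
  obtain ⟨x2, hx2⟩ : ∃ x2, y 2 = x2 + y 5 := ⟨y 2 + y 5, by linear_combination -(y 5) * two⟩
  obtain ⟨x3, hx3⟩ : ∃ x3, y 3 = x3 + y 5 := ⟨y 3 + y 5, by linear_combination -(y 5) * two⟩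
  obtain ⟨hx4, hc, -, e3, e5⟩ := sgn_shift hx0 hx1 hx2 hx3 hr.e1 hr.e2 hr.e3 hr.e4 hr.e5
  obtain ⟨e2, he2⟩ : ∃ e2 : L, e2 = x0 ^ 2 + x0 * x1 + x0 * x2 + x0 * x3 + x1 ^ 2 + x1 * x2 +
    x1 * x3 + x2 ^ 2 + x2 * x3 + x3 ^ 2 := ⟨_, rfl⟩
  obtain ⟨e4, he4⟩ : ∃ e4 : L, e4 = x0 ^ 2 * x1 * x2 + x0 ^ 2 * x1 * x3 + x0 ^ 2 * x2 * x3 +
    x0 * x1 ^ 2 * x2 + x0 * x1 ^ 2 * x3 + x0 * x1 * x2 ^ 2 + x0 * x1 * x2 * x3 +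
    x0 * x1 * x3 ^ 2 + x0 * x2 ^ 2 * x3 + x0 * x2 * x3 ^ 2 + x1 ^ 2 * x2 * x3 +
    x1 * x2 ^ 2 * x3 + x1 * x2 * x3 ^ 2 := ⟨_, rfl⟩
  have hp := sgn_poly he2 he4 e3 e5
  obtain ⟨i03, i14, i25, i04, i15, i23⟩ := sgn_invs he2 he4 e3 e5
  rw [← he2] at hc
  have d03 : y 0 + y 3 = x0 + x3 := by linear_combination hx0 + hx3 + y 5 * two
  have d14 : y 1 + y 4 = x0 + x2 + x3 := by linear_combination hx1 + hx4 + (x1 + y 5) * two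
  have d25 : y 2 + y 5 = x2 := by linear_combination hx2 + y 5 * two
  have d04 : y 0 + y 4 = x1 + x2 + x3 := by linear_combination hx0 + hx4 + (x0 + y 5) * two
  have d15 : y 1 + y 5 = x1 := by linear_combination hx1 + y 5 * two
  have d23 : y 2 + y 3 = x2 + x3 := by linear_combination hx2 + hx3 + y 5 * two
  have q0 : y 0 ^ 2 = x0 ^ 2 + e2 := by rw [hx0, CharTwo.add_sq, hc]
  have q1 : y 1 ^ 2 = x1 ^ 2 + e2 := by rw [hx1, CharTwo.add_sq, hc]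
  have q2 : y 2 ^ 2 = x2 ^ 2 + e2 := by rw [hx2, CharTwo.add_sq, hc]
  unfold sgnU
  rw [d03, d14, d25, d04, d15, d23]
  simp only [div_eq_mul_inv, inv_eq_of_mul_eq_one_right i03, inv_eq_of_mul_eq_one_right i14,
    inv_eq_of_mul_eq_one_right i25, inv_eq_of_mul_eq_one_right i04,
    inv_eq_of_mul_eq_one_right i15, inv_eq_of_mul_eq_one_right i23]
  have aux : ∀ k t p : L, k * t ^ 2 = p → k * (t + 1) ^ 2 = p + k := fun k t p h => by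
    rw [CharTwo.add_sq, one_pow, mul_add, h, mul_one]
  rw [sgn_sq i03 i14 i25, aux _ _ _ (sgn_sq i04 i15 i23), q0, q1, q2]
  exact hp

/-- The products of the three duads of a syntheme. -/
theorem sgn_duad [CharP L 2] {a A B C p1 p2 p3 : L} (hC : C = A + B)
    (hp : p1 + p2 + p3 = A * B + B * C + C * A)
    (hA : A * (a + A ^ 4 + p1 ^ 2) = 1) (hB : B * (a + B ^ 4 + p2 ^ 2) = 1)
    (hC' : C * (a + C ^ 4 + p3 ^ 2) = 1) :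
    p1 ^ 2 * (B * C) = A + (B * C) ^ 3 := by
  have two : (2 : L) = 0 := CharTwo.two_eq_zero
  have hA0 : A ≠ 0 := fun e => by simp [e] at hA
  have hsq : p1 ^ 2 + p2 ^ 2 + p3 ^ 2 = A ^ 2 * B ^ 2 + B ^ 2 * C ^ 2 + C ^ 2 * A ^ 2 := by
    have := congrArg (fun t => t ^ 2) hp
    simp only [CharTwo.add_sq, mul_pow] at this
    exact this
  have h4 : C ^ 4 = A ^ 4 + B ^ 4 := by
    rw [hC]
    linear_combination (2 * A ^ 3 * B + 3 * A ^ 2 * B ^ 2 + 2 * A * B ^ 3) * two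
  -- `a A B C = (AB + BC + CA)^2 A B C + (AB + BC + CA)`
  have ha : a * (A * B * C) = (A ^ 2 * B ^ 2 + B ^ 2 * C ^ 2 + C ^ 2 * A ^ 2) * (A * B * C) +
      (A * B + B * C + C * A) := by
    linear_combination B * C * hA + A * C * hB + A * B * hC' - A * B * C * hsq -
      A * B * C * h4 - (A * B * C * (a + A ^ 4 + B ^ 4)) * two -
      (A ^ 2 * B ^ 2 + B ^ 2 * C ^ 2 + C ^ 2 * A ^ 2) * (A * B * C) * two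
  refine mul_left_cancel₀ hA0 ?_
  subst hC
  linear_combination B * (A + B) * hA - ha - (A ^ 2 + A * B + A * B * (A + B) *
    (B ^ 2 * (A + B) ^ 2 + A ^ 2 * (A ^ 2 + B ^ 2 + A * B))) * two

theorem sgn_eq_of_sq [CharP L 2] {s t : L} (h : s ^ 2 = t ^ 2) : s = t := by
  have two : (2 : L) = 0 := CharTwo.two_eq_zero
  have h1 : (s + t) ^ 2 = 0 := by
    rw [CharTwo.add_sq, h]
    linear_combination t ^ 2 * two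
  have h2 : s + t = 0 := pow_eq_zero_iff two_ne_zero |>.mp h1
  linear_combination h2 - t * two

theorem sgn_local [CharP L 2] {a b p q u0 u1 u2 u3 u4 u5 : L} (h1 : u0 + u1 + u2 + u3 + u4 + u5 = 0)
    (h2 : u0 * u1 + u0 * u2 + u0 * u3 + u0 * u4 + u0 * u5 + u1 * u2 + u1 * u3 + u1 * u4 +
      u1 * u5 + u2 * u3 + u2 * u4 + u2 * u5 + u3 * u4 + u3 * u5 + u4 * u5 = 0)
    (h6 : u0 * u1 * u2 * u3 * u4 * u5 = b)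
    (hA : (u0 + u3) * (a + (u0 + u3) ^ 4 + (u0 * u3) ^ 2) = 1)
    (hB : (u1 + u4) * (a + (u1 + u4) ^ 4 + (u1 * u4) ^ 2) = 1)
    (hC : (u2 + u5) * (a + (u2 + u5) ^ 4 + (u2 * u5) ^ 2) = 1)
    (hpq : (p + q) * (b + (p + q) ^ 4 + (p * q) ^ 2) = 1)
    (hD : (p + q) ^ 2 = (u0 + u3) * (u1 + u4) * (u2 + u5)) :
    p / (p + q) = sgnU u0 u1 u2 u3 u4 u5 ∨ p / (p + q) = sgnU u0 u1 u2 u3 u4 u5 + 1 := by
  have two : (2 : L) = 0 := CharTwo.two_eq_zero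
  obtain ⟨A, rfl⟩ : ∃ A, u3 = A + u0 := ⟨u3 + u0, by linear_combination -u0 * two⟩
  obtain ⟨B, rfl⟩ : ∃ B, u4 = B + u1 := ⟨u4 + u1, by linear_combination -u1 * two⟩
  obtain ⟨C, rfl⟩ : ∃ C, u5 = C + u2 := ⟨u5 + u2, by linear_combination -u2 * two⟩
  have eA : u0 + (A + u0) = A := by linear_combination u0 * two
  have eB : u1 + (B + u1) = B := by linear_combination u1 * two
  have eC : u2 + (C + u2) = C := by linear_combination u2 * two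
  unfold sgnU
  rw [eA] at hA hD ⊢
  rw [eB] at hB hD ⊢
  rw [eC] at hC hD ⊢
  have hCAB : C = A + B := by linear_combination h1 - (u0 + u1 + u2 + A + B) * two
  obtain ⟨p1, hp1⟩ : ∃ p1, p1 = u0 * (A + u0) := ⟨_, rfl⟩
  obtain ⟨p2, hp2⟩ : ∃ p2, p2 = u1 * (B + u1) := ⟨_, rfl⟩
  obtain ⟨p3, hp3⟩ : ∃ p3, p3 = u2 * (C + u2) := ⟨_, rfl⟩
  rw [← hp1] at hA
  rw [← hp2] at hB
  rw [← hp3] at hC
  have hsum : p1 + p2 + p3 = A * B + B * C + C * A := by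
    linear_combination h2 + hp1 + hp2 + hp3 - (A * B + B * C + C * A + u0 * B + u1 * A +
      2 * u0 * u1 + u0 * C + u2 * A + 2 * u0 * u2 + u1 * C + u2 * B + 2 * u1 * u2) * two
  have r1 : p1 ^ 2 * (B * C) = A + (B * C) ^ 3 := sgn_duad hCAB hsum hA hB hC
  have r2 : p2 ^ 2 * (C * A) = B + (C * A) ^ 3 :=
    sgn_duad (by linear_combination -hCAB - B * two)
      (by linear_combination hsum) hB hC hA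
  have r3 : p3 ^ 2 * (A * B) = C + (A * B) ^ 3 :=
    sgn_duad (by linear_combination -hCAB - A * two)
      (by linear_combination hsum) hC hA hB
  have hb : p1 * p2 * p3 = b := by rw [hp1, hp2, hp3, ← h6]; ring
  have hA0 : A ≠ 0 := fun e => by simp [e] at hA
  have hB0 : B ≠ 0 := fun e => by simp [e] at hB
  have hC0 : C ≠ 0 := fun e => by simp [e] at hC
  have hi0 : p + q ≠ 0 := fun e => by simp [e] at hpq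
  have hE : (A * B + B * C + C * A) ^ 2 = A ^ 2 * B ^ 2 + B ^ 2 * C ^ 2 + C ^ 2 * A ^ 2 := by
    simp only [CharTwo.add_sq, mul_pow]
  have hN : (p * q) ^ 2 * (A * B * C) = (A * B + B * C + C * A) ^ 2 := by
    apply sgn_eq_of_sq
    have h1' : (A * B * C) * (b ^ 2 + (A * B * C) ^ 4 + (p * q) ^ 4) = 1 := by
      have e : (b + (p + q) ^ 4 + (p * q) ^ 2) ^ 2 = b ^ 2 + ((p + q) ^ 2) ^ 4 + (p * q) ^ 4 := by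
        rw [CharTwo.add_sq (b + (p + q) ^ 4) ((p * q) ^ 2), CharTwo.add_sq b ((p + q) ^ 4)]
        ring
      rw [← hD, ← e, ← mul_pow, hpq, one_pow]
    have rr : b ^ 2 * (A * B * C) ^ 2 =
        (A + (B * C) ^ 3) * (B + (C * A) ^ 3) * (C + (A * B) ^ 3) := by
      rw [← r1, ← r2, ← r3, ← hb]
      ring
    have h4 : C ^ 4 = A ^ 4 + B ^ 4 := by
      rw [hCAB]
      linear_combination (2 * A ^ 3 * B + 3 * A ^ 2 * B ^ 2 + 2 * A * B ^ 3) * two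
    have hS : (A ^ 2 * B ^ 2 + B ^ 2 * C ^ 2 + C ^ 2 * A ^ 2) ^ 2 =
        A ^ 4 * B ^ 4 + B ^ 4 * C ^ 4 + C ^ 4 * A ^ 4 := by
      rw [CharTwo.add_sq, CharTwo.add_sq]
      ring
    rw [hE, hS]
    linear_combination (A * B * C) * h1' - rr - (A * B * C) ^ 3 * h4 -
      (A ^ 4 * B ^ 4 + B ^ 4 * C ^ 4 + C ^ 4 * A ^ 4 + (A * B * C) ^ 3 * (A ^ 4 + B ^ 4) +
        (A * B * C) ^ 6) * two
  obtain ⟨iA, hiA, hiA'⟩ : ∃ i, A⁻¹ = i ∧ A * i = 1 := ⟨_, rfl, mul_inv_cancel₀ hA0⟩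
  obtain ⟨iB, hiB, hiB'⟩ : ∃ i, B⁻¹ = i ∧ B * i = 1 := ⟨_, rfl, mul_inv_cancel₀ hB0⟩
  obtain ⟨iC, hiC, hiC'⟩ : ∃ i, C⁻¹ = i ∧ C * i = 1 := ⟨_, rfl, mul_inv_cancel₀ hC0⟩
  obtain ⟨i, hi, hi'⟩ : ∃ i, (p + q)⁻¹ = i ∧ (p + q) * i = 1 := ⟨_, rfl, mul_inv_cancel₀ hi0⟩
  simp only [div_eq_mul_inv]
  rw [hiA, hiB, hiC, hi]
  obtain ⟨U, hU⟩ : ∃ U, U = u0 * iA + u1 * iB + u2 * iC + A * iC + B * iA + A * iB := ⟨_, rfl⟩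
  rw [← hU]
  have c1 : U ^ 2 + U = (p1 + B * C) * iA ^ 2 + (p2 + C * A) * iB ^ 2 + (p3 + A * B) * iC ^ 2 := by
    rw [hU]
    simp only [CharTwo.add_sq]
    linear_combination -(u0 * iA + B * iA) * hiA' - (u1 * iB + A * iB) * hiB' -
      (u2 * iC + A * iC) * hiC' - iA ^ 2 * hp1 - iB ^ 2 * hp2 - iC ^ 2 * hp3 +
      (A * iC ^ 2 - B * iA ^ 2 - A * iB ^ 2) * hCAB + A ^ 2 * iC ^ 2 * two
  have c2 : (U ^ 2 + U) ^ 2 * (A * B * C) ^ 3 = (A * B + B * C + C * A) ^ 2 := by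
    have k1 : ((p1 + B * C) * iA ^ 2) ^ 2 * (A * B * C) ^ 3 = B ^ 2 * C ^ 2 := by
      linear_combination iA ^ 4 * A ^ 3 * B ^ 2 * C ^ 2 * r1 +
        B ^ 2 * C ^ 2 * ((A * iA) ^ 3 + (A * iA) ^ 2 + A * iA + 1) * hiA' +
        iA ^ 4 * A ^ 3 * B ^ 2 * C ^ 2 * ((B * C) ^ 3 + p1 * (B * C) ^ 2) * two
    have k2 : ((p2 + C * A) * iB ^ 2) ^ 2 * (A * B * C) ^ 3 = C ^ 2 * A ^ 2 := by
      linear_combination iB ^ 4 * B ^ 3 * C ^ 2 * A ^ 2 * r2 +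
        C ^ 2 * A ^ 2 * ((B * iB) ^ 3 + (B * iB) ^ 2 + B * iB + 1) * hiB' +
        iB ^ 4 * B ^ 3 * C ^ 2 * A ^ 2 * ((C * A) ^ 3 + p2 * (C * A) ^ 2) * two
    have k3 : ((p3 + A * B) * iC ^ 2) ^ 2 * (A * B * C) ^ 3 = A ^ 2 * B ^ 2 := by
      linear_combination iC ^ 4 * C ^ 3 * A ^ 2 * B ^ 2 * r3 +
        A ^ 2 * B ^ 2 * ((C * iC) ^ 3 + (C * iC) ^ 2 + C * iC + 1) * hiC' +
        iC ^ 4 * C ^ 3 * A ^ 2 * B ^ 2 * ((A * B) ^ 3 + p3 * (A * B) ^ 2) * two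
    rw [c1, hE, CharTwo.add_sq, CharTwo.add_sq, add_mul, add_mul, k1, k2, k3]
    ring
  have c3 : ((p * i) ^ 2 + p * i) ^ 2 * (A * B * C) ^ 3 = (A * B + B * C + C * A) ^ 2 := by
    have e1 : (p * i) ^ 2 + p * i = i ^ 2 * (p * q) := by
      linear_combination -(p * i) * hi' + p ^ 2 * i ^ 2 * two
    have e2 : i ^ 2 * (A * B * C) = 1 := by
      rw [← hD, ← mul_pow, mul_comm, hi', one_pow]
    rw [e1, ← hN]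
    linear_combination ((p * q) ^ 2 * (A * B * C)) * (i ^ 2 * (A * B * C) + 1) * e2
  have c4 : (p * i) ^ 2 + p * i = U ^ 2 + U := by
    apply sgn_eq_of_sq
    exact mul_right_cancel₀ (pow_ne_zero 3 (mul_ne_zero (mul_ne_zero hA0 hB0) hC0))
      (c3.trans c2.symm)
  have c5 : (p * i + U) * (p * i + (U + 1)) = 0 := by
    linear_combination c4 + (p * i * U + U ^ 2 + U) * two
  rcases mul_eq_zero.mp c5 with h | h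
  · left
    linear_combination h - U * two
  · right
    linear_combination h - (U + 1) * two

theorem sgn_comp [CharP L 2] {a b : L} {y : Fin 6 → L} (h : IsRoots a b y) {p : Fin 6 → Fin 6}
    (hp : Function.Bijective p) : IsRoots a b (y ∘ p) := by
  unfold IsRoots at *
  rw [h, ← hp.prod_comp]
  rfl

theorem sgn_twin_sq [CharP L 2] {a b : L} {y z : Fin 6 → L} (h : Twin a b y z)
    {p : Fin 6 → Fin 6} (hp : Function.Bijective p) {s t : Fin 6} (h0 : mt s t (p 0) = p 3)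
    (h1 : mt s t (p 1) = p 4) (h2 : mt s t (p 2) = p 5) :
    (z s + z t) ^ 2 = (y (p 0) + y (p 3)) * (y (p 1) + y (p 4)) * (y (p 2) + y (p 5)) := by
  apply sgn_eq_of_sq
  have h3 : mt s t (p 3) = p 0 := by rw [← h0, mt_mt]
  have h4 : mt s t (p 4) = p 1 := by rw [← h1, mt_mt]
  have h5 : mt s t (p 5) = p 2 := by rw [← h2, mt_mt]
  have := h.2.2 s t
  rw [← hp.prod_comp (fun i => y i + y (mt s t i)), Fin.prod_univ_six, h0, h1, h2, h3, h4, h5]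
    at this
  rw [← pow_mul, this]
  ring

/-- The sign element of a pair of totals. -/
theorem sgn_inst [CharP L 2] {a b : L} {y z : Fin 6 → L} (h : Twin a b y z) (s t u : Fin 6)
    (p : Fin 6 → Fin 6) (hst : s ≠ t) (hsu : s ≠ u) (htu : t ≠ u) (hp : Function.Bijective p)
    (h0 : mt s t (p 0) = p 3) (h1 : mt s t (p 1) = p 4) (h2 : mt s t (p 2) = p 5)
    (k0 : mt s u (p 0) = p 4) (k1 : mt s u (p 1) = p 5) (k2 : mt s u (p 2) = p 3) :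
    z s / (z s + z t) = sgnU (y (p 0)) (y (p 1)) (y (p 2)) (y (p 3)) (y (p 4)) (y (p 5)) := by
  have two : (2 : L) = 0 := CharTwo.two_eq_zero
  have hy := sgn_comp h.1 hp
  have hr := sgn_rel hy
  have hyi := sgn_inj hy
  have hzi := sgn_inj h.2.1
  have pr : ∀ i j : Fin 6, i ≠ j → (y (p i) + y (p j)) * (a + (y (p i) + y (p j)) ^ 4 +
      (y (p i) * y (p j)) ^ 2) = 1 := fun i j hij =>
    sgn_pair (sgn_root hy i) (sgn_root hy j) (fun e => hij (hyi e))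
  have pz : ∀ i j : Fin 6, i ≠ j → (z i + z j) * (b + (z i + z j) ^ 4 + (z i * z j) ^ 2) = 1 :=
    fun i j hij => sgn_pair (sgn_root h.2.1 i) (sgn_root h.2.1 j) (fun e => hij (hzi e))
  have hkey := sgn_key hr
  obtain ⟨f1, f2, -, -, -, f6⟩ := hr
  simp only [Function.comp_apply] at f1 f2 f6
  have hD1 := sgn_twin_sq h hp h0 h1 h2
  have hp' : Function.Bijective (p ∘ ![0, 1, 2, 4, 5, 3]) := hp.comp (by decide)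
  have hD2 : (z s + z u) ^ 2 = (y (p 0) + y (p 4)) * (y (p 1) + y (p 5)) * (y (p 2) + y (p 3)) :=
    sgn_twin_sq h hp' k0 k1 k2
  have l1 : z s / (z s + z t) = sgnU (y (p 0)) (y (p 1)) (y (p 2)) (y (p 3)) (y (p 4)) (y (p 5)) ∨
      z s / (z s + z t) = sgnU (y (p 0)) (y (p 1)) (y (p 2)) (y (p 3)) (y (p 4)) (y (p 5)) + 1 :=
    sgn_local f1 f2 f6 (pr 0 3 (by decide)) (pr 1 4 (by decide)) (pr 2 5 (by decide))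
      (pz s t hst) hD1
  have l2 : z s / (z s + z u) = sgnU (y (p 0)) (y (p 1)) (y (p 2)) (y (p 4)) (y (p 5)) (y (p 3)) ∨
      z s / (z s + z u) = sgnU (y (p 0)) (y (p 1)) (y (p 2)) (y (p 4)) (y (p 5)) (y (p 3)) + 1 :=
    sgn_local (a := a) (b := b)
      (by linear_combination f1) (by linear_combination f2) (by linear_combination f6)
      (pr 0 4 (by decide)) (pr 1 5 (by decide)) (pr 2 3 (by decide)) (pz s u hsu) hD2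
  simp only [Function.comp_apply] at hkey
  rw [← hD1, ← hD2] at hkey
  have n1 : z s + z t ≠ 0 := fun e => hst (hzi (by linear_combination e - z t * two))
  have n2 : z s + z u ≠ 0 := fun e => hsu (hzi (by linear_combination e - z u * two))
  rcases l1 with l1 | l1
  · exact l1
  · exfalso
    rw [div_eq_iff n1] at l1
    rcases l2 with l2 | l2
    · rw [div_eq_iff n2] at l2
      apply htu
      apply hzi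
      have : (z s + z t) ^ 2 = (z s + z u) ^ 2 := by
        have e1 := congrArg (fun t => t ^ 2) l1
        have e2 := congrArg (fun t => t ^ 2) l2
        simp only [mul_pow, CharTwo.add_sq, one_pow] at e1 e2 hkey ⊢
        linear_combination e2 - e1 - hkey - (z s ^ 2 + z u ^ 2) * two
      have := sgn_eq_of_sq this
      linear_combination this
    · rw [div_eq_iff n2] at l2
      apply pow_ne_zero 2 n1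
      have e1 := congrArg (fun t => t ^ 2) l1
      have e2 := congrArg (fun t => t ^ 2) l2
      simp only [mul_pow, CharTwo.add_sq, one_pow] at e1 e2 hkey ⊢
      linear_combination e2 - e1 - hkey

/-- The cyclic part. -/
def sgnC (u0 u1 u2 u3 u4 u5 : L) : L :=
  (u0 + u3) * ((u2 + u5) ^ 4 + (u2 * u5) ^ 2) + (u1 + u4) * ((u0 + u3) ^ 4 + (u0 * u3) ^ 2) +
    (u2 + u5) * ((u1 + u4) ^ 4 + (u1 * u4) ^ 2)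

theorem sgn_U_eq [CharP L 2] {a u0 u1 u2 u3 u4 u5 : L} (h1 : u0 + u1 + u2 + u3 + u4 + u5 = 0)
    (hA : (u0 + u3) * (a + (u0 + u3) ^ 4 + (u0 * u3) ^ 2) = 1)
    (hB : (u1 + u4) * (a + (u1 + u4) ^ 4 + (u1 * u4) ^ 2) = 1)
    (hC : (u2 + u5) * (a + (u2 + u5) ^ 4 + (u2 * u5) ^ 2) = 1) :
    sgnU u0 u1 u2 u3 u4 u5 = u0 / (u0 + u3) + u1 / (u1 + u4) + u2 / (u2 + u5) +
      sgnC u0 u1 u2 u3 u4 u5 + 1 := by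
  have two : (2 : L) = 0 := CharTwo.two_eq_zero
  unfold sgnU sgnC
  simp only [div_eq_mul_inv, inv_eq_of_mul_eq_one_right hA, inv_eq_of_mul_eq_one_right hB,
    inv_eq_of_mul_eq_one_right hC]
  linear_combination (a + (a + (u1 + u4) ^ 4 + (u1 * u4) ^ 2)) * h1 - hB -
    (1 + (u2 + u5) * (a + (u1 + u4) ^ 4 + (u1 * u4) ^ 2)) * two

/-- The sign element of a pair of totals, second form. -/
theorem sgn_inst' [CharP L 2] {a b : L} {y z : Fin 6 → L} (h : Twin a b y z) (s t u : Fin 6)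
    (p : Fin 6 → Fin 6) (hst : s ≠ t) (hsu : s ≠ u) (htu : t ≠ u) (hp : Function.Bijective p)
    (h0 : mt s t (p 0) = p 3) (h1 : mt s t (p 1) = p 4) (h2 : mt s t (p 2) = p 5)
    (k0 : mt s u (p 0) = p 4) (k1 : mt s u (p 1) = p 5) (k2 : mt s u (p 2) = p 3) :
    z s / (z s + z t) = y (p 0) / (y (p 0) + y (p 3)) + y (p 1) / (y (p 1) + y (p 4)) +
      y (p 2) / (y (p 2) + y (p 5)) +
      sgnC (y (p 0)) (y (p 1)) (y (p 2)) (y (p 3)) (y (p 4)) (y (p 5)) + 1 := by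
  have hy := sgn_comp h.1 hp
  have hyi := sgn_inj hy
  have pr : ∀ i j : Fin 6, i ≠ j → (y (p i) + y (p j)) * (a + (y (p i) + y (p j)) ^ 4 +
      (y (p i) * y (p j)) ^ 2) = 1 := fun i j hij =>
    sgn_pair (sgn_root hy i) (sgn_root hy j) (fun e => hij (hyi e))
  rw [sgn_inst h s t u p hst hsu htu hp h0 h1 h2 k0 k1 k2]
  exact sgn_U_eq (sgn_rel hy).e1 (pr 0 3 (by decide)) (pr 1 4 (by decide)) (pr 2 5 (by decide))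

theorem sgn_cyc_sum [CharP L 2] {y0 y1 y2 y3 y4 y5 : L}
    (e1 : y0 + y1 + y2 + y3 + y4 + y5 = 0)
    (e2 : y0 * y1 + y0 * y2 + y0 * y3 + y0 * y4 + y0 * y5 + y1 * y2 + y1 * y3 + y1 * y4 + y1 * y5
      + y2 * y3 + y2 * y4 + y2 * y5 + y3 * y4 + y3 * y5 + y4 * y5 = 0)
    (e3 : y0 * y1 * y2 + y0 * y1 * y3 + y0 * y1 * y4 + y0 * y1 * y5 + y0 * y2 * y3 + y0 * y2 * y4
      + y0 * y2 * y5 + y0 * y3 * y4 + y0 * y3 * y5 + y0 * y4 * y5 + y1 * y2 * y3 + y1 * y2 * y4 +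
      y1 * y2 * y5 + y1 * y3 * y4 + y1 * y3 * y5 + y1 * y4 * y5 + y2 * y3 * y4 + y2 * y3 * y5 +
      y2 * y4 * y5 + y3 * y4 * y5 = 0)
    (e5 : y0 * y1 * y2 * y3 * y4 + y0 * y1 * y2 * y3 * y5 + y0 * y1 * y2 * y4 * y5 + y0 * y1 * y3
      * y4 * y5 + y0 * y2 * y3 * y4 * y5 + y1 * y2 * y3 * y4 * y5 = 1) :
    sgnC y0 y4 y2 y1 y5 y3 + sgnC y0 y3 y1 y2 y5 y4 + sgnC y0 y2 y1 y3 y4 y5 + sgnC y0 y1 y2 y4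
      y3 y5 + sgnC y0 y1 y3 y5 y2 y4 + sgnC y0 y1 y2 y5 y3 y4 + sgnC y0 y1 y3 y4 y2 y5 + sgnC y0
      y3 y1 y2 y4 y5 + sgnC y0 y2 y1 y3 y5 y4 + sgnC y0 y2 y3 y1 y5 y4 + sgnC y0 y4 y1 y3 y5 y2 +
      sgnC y0 y1 y2 y4 y5 y3 + sgnC y0 y2 y1 y5 y3 y4 + sgnC y0 y1 y4 y2 y3 y5 + sgnC y0 y2 y3 y1
      y4 y5 = 1 := by
  have two : (2 : L) = 0 := CharTwo.two_eq_zero
  have h5 : y5 = y0 + y1 + y2 + y3 + y4 := by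
    linear_combination e1 - (y0 + y1 + y2 + y3 + y4) * two
  subst h5
  unfold sgnC
  linear_combination e5 + (y2 ^ 2 * y3 + y2 ^ 2 * y4 + y2 * y3 ^ 2 + y2 * y4 ^ 2 + y3 ^ 2 * y4 +
    y3 * y4 ^ 2) * e2 + (y2 ^ 2 + y2 * y3 + y2 * y4 + y3 * y4 + y4 ^ 2) * e3 + (6 * y0 ^ 5 + 44 *
    y0 ^ 4 * y1 + 41 * y0 ^ 4 * y2 + 44 * y0 ^ 4 * y3 + 24 * y0 ^ 4 * y4 + 90 * y0 ^ 3 * y1 ^ 2 +
    158 * y0 ^ 3 * y1 * y2 + 160 * y0 ^ 3 * y1 * y3 + 124 * y0 ^ 3 * y1 * y4 + 77 * y0 ^ 3 *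
    y2 ^ 2 + 158 * y0 ^ 3 * y2 * y3 + 122 * y0 ^ 3 * y2 * y4 + 90 * y0 ^ 3 * y3 ^ 2 + 124 *
    y0 ^ 3 * y3 * y4 + 43 * y0 ^ 3 * y4 ^ 2 + 90 * y0 ^ 2 * y1 ^ 3 + 233 * y0 ^ 2 * y1 ^ 2 * y2 +
    235 * y0 ^ 2 * y1 ^ 2 * y3 + 189 * y0 ^ 2 * y1 ^ 2 * y4 + 212 * y0 ^ 2 * y1 * y2 ^ 2 + 407 *
    y0 ^ 2 * y1 * y2 * y3 + 363 * y0 ^ 2 * y1 * y2 * y4 + 235 * y0 ^ 2 * y1 * y3 ^ 2 + 357 *
    y0 ^ 2 * y1 * y3 * y4 + 157 * y0 ^ 2 * y1 * y4 ^ 2 + 72 * y0 ^ 2 * y2 ^ 3 + 206 * y0 ^ 2 *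
    y2 ^ 2 * y3 + 208 * y0 ^ 2 * y2 ^ 2 * y4 + 213 * y0 ^ 2 * y2 * y3 ^ 2 + 362 * y0 ^ 2 * y2 *
    y3 * y4 + 183 * y0 ^ 2 * y2 * y4 ^ 2 + 90 * y0 ^ 2 * y3 ^ 3 + 207 * y0 ^ 2 * y3 ^ 2 * y4 +
    161 * y0 ^ 2 * y3 * y4 ^ 2 + 47 * y0 ^ 2 * y4 ^ 3 + 44 * y0 * y1 ^ 4 + 158 * y0 * y1 ^ 3 * y2
    + 160 * y0 * y1 ^ 3 * y3 + 124 * y0 * y1 ^ 3 * y4 + 212 * y0 * y1 ^ 2 * y2 ^ 2 + 407 * y0 *
    y1 ^ 2 * y2 * y3 + 363 * y0 * y1 ^ 2 * y2 * y4 + 235 * y0 * y1 ^ 2 * y3 ^ 2 + 357 * y0 *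
    y1 ^ 2 * y3 * y4 + 157 * y0 * y1 ^ 2 * y4 ^ 2 + 134 * y0 * y1 * y2 ^ 3 + 363 * y0 * y1 *
    y2 ^ 2 * y3 + 395 * y0 * y1 * y2 ^ 2 * y4 + 378 * y0 * y1 * y2 * y3 ^ 2 + 711 * y0 * y1 * y2
    * y3 * y4 + 359 * y0 * y1 * y2 * y4 ^ 2 + 160 * y0 * y1 * y3 ^ 3 + 380 * y0 * y1 * y3 ^ 2 *
    y4 + 315 * y0 * y1 * y3 * y4 ^ 2 + 106 * y0 * y1 * y4 ^ 3 + 35 * y0 * y2 ^ 4 + 124 * y0 *
    y2 ^ 3 * y3 + 164 * y0 * y2 ^ 3 * y4 + 169 * y0 * y2 ^ 2 * y3 ^ 2 + 379 * y0 * y2 ^ 2 * y3 *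
    y4 + 243 * y0 * y2 ^ 2 * y4 ^ 2 + 126 * y0 * y2 * y3 ^ 3 + 356 * y0 * y2 * y3 ^ 2 * y4 + 367
    * y0 * y2 * y3 * y4 ^ 2 + 148 * y0 * y2 * y4 ^ 3 + 44 * y0 * y3 ^ 4 + 152 * y0 * y3 ^ 3 * y4
    + 190 * y0 * y3 ^ 2 * y4 ^ 2 + 112 * y0 * y3 * y4 ^ 3 + 29 * y0 * y4 ^ 4 + 6 * y1 ^ 5 + 41 *
    y1 ^ 4 * y2 + 44 * y1 ^ 4 * y3 + 24 * y1 ^ 4 * y4 + 77 * y1 ^ 3 * y2 ^ 2 + 158 * y1 ^ 3 * y2
    * y3 + 122 * y1 ^ 3 * y2 * y4 + 90 * y1 ^ 3 * y3 ^ 2 + 124 * y1 ^ 3 * y3 * y4 + 43 * y1 ^ 3 *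
    y4 ^ 2 + 72 * y1 ^ 2 * y2 ^ 3 + 206 * y1 ^ 2 * y2 ^ 2 * y3 + 208 * y1 ^ 2 * y2 ^ 2 * y4 + 213
    * y1 ^ 2 * y2 * y3 ^ 2 + 362 * y1 ^ 2 * y2 * y3 * y4 + 183 * y1 ^ 2 * y2 * y4 ^ 2 + 90 *
    y1 ^ 2 * y3 ^ 3 + 207 * y1 ^ 2 * y3 ^ 2 * y4 + 161 * y1 ^ 2 * y3 * y4 ^ 2 + 47 * y1 ^ 2 *
    y4 ^ 3 + 35 * y1 * y2 ^ 4 + 124 * y1 * y2 ^ 3 * y3 + 164 * y1 * y2 ^ 3 * y4 + 169 * y1 *
    y2 ^ 2 * y3 ^ 2 + 379 * y1 * y2 ^ 2 * y3 * y4 + 243 * y1 * y2 ^ 2 * y4 ^ 2 + 126 * y1 * y2 *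
    y3 ^ 3 + 356 * y1 * y2 * y3 ^ 2 * y4 + 367 * y1 * y2 * y3 * y4 ^ 2 + 148 * y1 * y2 * y4 ^ 3 +
    44 * y1 * y3 ^ 4 + 152 * y1 * y3 ^ 3 * y4 + 190 * y1 * y3 ^ 2 * y4 ^ 2 + 112 * y1 * y3 *
    y4 ^ 3 + 29 * y1 * y4 ^ 4 + 6 * y2 ^ 5 + 30 * y2 ^ 4 * y3 + 56 * y2 ^ 4 * y4 + 45 * y2 ^ 3 *
    y3 ^ 2 + 154 * y2 ^ 3 * y3 * y4 + 118 * y2 ^ 3 * y4 ^ 2 + 39 * y2 ^ 2 * y3 ^ 3 + 183 * y2 ^ 2
    * y3 ^ 2 * y4 + 241 * y2 ^ 2 * y3 * y4 ^ 2 + 116 * y2 ^ 2 * y4 ^ 3 + 22 * y2 * y3 ^ 4 + 118 *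
    y2 * y3 ^ 3 * y4 + 196 * y2 * y3 ^ 2 * y4 ^ 2 + 154 * y2 * y3 * y4 ^ 3 + 53 * y2 * y4 ^ 4 + 6
    * y3 ^ 5 + 42 * y3 ^ 4 * y4 + 76 * y3 ^ 3 * y4 ^ 2 + 69 * y3 ^ 2 * y4 ^ 3 + 33 * y3 * y4 ^ 4
    + 6 * y4 ^ 5) * two

/-- The sign elements of twins agree. -/
theorem ss_twin [CharP L 2] {a b : L} {y z : Fin 6 → L} (h : Twin a b y z) : ss z = ss y := by
  have two : (2 : L) = 0 := CharTwo.two_eq_zero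
  have i01 := sgn_inst' h 0 1 5 ![0, 4, 2, 1, 5, 3] (by decide) (by decide) (by decide)
    (by decide) (by decide) (by decide) (by decide) (by decide) (by decide) (by decide)
  have i02 := sgn_inst' h 0 2 5 ![0, 3, 1, 2, 5, 4] (by decide) (by decide) (by decide)
    (by decide) (by decide) (by decide) (by decide) (by decide) (by decide) (by decide)
  have i03 := sgn_inst' h 0 3 4 ![0, 2, 1, 3, 4, 5] (by decide) (by decide) (by decide)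
    (by decide) (by decide) (by decide) (by decide) (by decide) (by decide) (by decide)
  have i04 := sgn_inst' h 0 4 3 ![0, 1, 2, 4, 3, 5] (by decide) (by decide) (by decide)
    (by decide) (by decide) (by decide) (by decide) (by decide) (by decide) (by decide)
  have i05 := sgn_inst' h 0 5 2 ![0, 1, 3, 5, 2, 4] (by decide) (by decide) (by decide)
    (by decide) (by decide) (by decide) (by decide) (by decide) (by decide) (by decide)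
  have i12 := sgn_inst' h 1 2 5 ![0, 1, 2, 5, 3, 4] (by decide) (by decide) (by decide)
    (by decide) (by decide) (by decide) (by decide) (by decide) (by decide) (by decide)
  have i13 := sgn_inst' h 1 3 4 ![0, 1, 3, 4, 2, 5] (by decide) (by decide) (by decide)
    (by decide) (by decide) (by decide) (by decide) (by decide) (by decide) (by decide)
  have i14 := sgn_inst' h 1 4 3 ![0, 3, 1, 2, 4, 5] (by decide) (by decide) (by decide)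
    (by decide) (by decide) (by decide) (by decide) (by decide) (by decide) (by decide)
  have i15 := sgn_inst' h 1 5 2 ![0, 2, 1, 3, 5, 4] (by decide) (by decide) (by decide)
    (by decide) (by decide) (by decide) (by decide) (by decide) (by decide) (by decide)
  have i23 := sgn_inst' h 2 3 1 ![0, 2, 3, 1, 5, 4] (by decide) (by decide) (by decide)
    (by decide) (by decide) (by decide) (by decide) (by decide) (by decide) (by decide)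
  have i24 := sgn_inst' h 2 4 1 ![0, 4, 1, 3, 5, 2] (by decide) (by decide) (by decide)
    (by decide) (by decide) (by decide) (by decide) (by decide) (by decide) (by decide)
  have i25 := sgn_inst' h 2 5 1 ![0, 1, 2, 4, 5, 3] (by decide) (by decide) (by decide)
    (by decide) (by decide) (by decide) (by decide) (by decide) (by decide) (by decide)
  have i34 := sgn_inst' h 3 4 0 ![0, 2, 1, 5, 3, 4] (by decide) (by decide) (by decide)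
    (by decide) (by decide) (by decide) (by decide) (by decide) (by decide) (by decide)
  have i35 := sgn_inst' h 3 5 0 ![0, 1, 4, 2, 3, 5] (by decide) (by decide) (by decide)
    (by decide) (by decide) (by decide) (by decide) (by decide) (by decide) (by decide)
  have i45 := sgn_inst' h 4 5 0 ![0, 2, 3, 1, 4, 5] (by decide) (by decide) (by decide)
    (by decide) (by decide) (by decide) (by decide) (by decide) (by decide) (by decide)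
  have hr := sgn_rel h.1
  have hc := sgn_cyc_sum hr.e1 hr.e2 hr.e3 hr.e5
  rw [sgn_expand z, i01, i02, i03, i04, i05, i12, i13, i14, i15, i23, i24, i25, i34, i35, i45]
  have hs := sgn_expand y
  simp only [Matrix.cons_val]
  linear_combination hc - 3 * hs + (ss y + 8) * two

end sgn

end MP7fX
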