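import Pool.Agent.Lib.MP_7f581e_ntX.Gal
import Pool.Agent.Lib.MP_7f581e_ntX.Sgn
import Pool.Agent.Lib.MP_7f581e_ntX.Param

/-!
Moving the roots of one pair of twin sextics, all other data fixed.
-/

set_option autoImplicit false

universe u

namespace MP7fX

open Polynomial Equiv

section main

variable {M L : Type u} [Field M] [Field L] [Algebra M L] [CharP L 2] {k : ℕ}

theorem mem_of_isRoots {F L : Type u} [Field F] [Field L] [Algebra F L] {a b : L}
    {y : Fin 6 → L} (h : IsRoots a b y) (ha : IsAlgebraic F a) (hb : IsAlgebraic F b) (i : Fin 6) :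
    IsAlgebraic F (y i) := by
  have h1 : IsAlgebraic (algebraicClosure F L) (y i) := by
    let a' : algebraicClosure F L := ⟨a, mem_algebraicClosure_iff.mpr ha⟩
    let b' : algebraicClosure F L := ⟨b, mem_algebraicClosure_iff.mpr hb⟩
    refine ⟨X ^ 6 + C a' * X ^ 2 + X + C b', ?_, ?_⟩
    · have h4 : (X ^ 6 + C a' * X ^ 2 + X + C b').Monic := by monicity!
      exact h4.ne_zero
    · have h5 := congrArg (eval (y i)) h
      rw [eval_prod, Finset.prod_eq_zero (Finset.mem_univ i) (by simp)] at h5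
      rw [← h5, ← eval_map_algebraMap]
      simp only [Polynomial.map_add, Polynomial.map_mul, Polynomial.map_pow, map_X, map_C]
      rfl
  have h2 : y i ∈ algebraicClosure F L := by
    have h3 : Algebra.IsAlgebraic F (algebraicClosure F L) := inferInstance
    exact mem_algebraicClosure_iff.mpr (h1.restrictScalars F)
  exact mem_algebraicClosure_iff.mp h2

theorem exists_move (e : Fin k × ZMod 2 → L) (he : AlgebraicIndependent M e)
    (y z : Fin k → Fin 6 → L)
    (ht : ∀ j, Twin (th (e (j, 0)) (e (j, 1)) + e (j, 0)) (th (e (j, 0)) (e (j, 1)) + e (j, 1))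
      (y j) (z j))
    (hs : ∀ j, ss (y j) = th (e (j, 0)) (e (j, 1)))
    (hgen : IntermediateField.adjoin M
      (Set.range e ∪ ⋃ j, (Set.range (y j) ∪ Set.range (z j))) = ⊤)
    (j₀ : Fin k) (P Q : Perm (Fin 6)) (hc : Cmp P Q) (hP : Perm.sign P = 1) :
    ∃ τ : L ≃ₐ[M] L, (∀ x, τ (e x) = e x) ∧
      (∀ j, j ≠ j₀ → ∀ i, τ (y j i) = y j i ∧ τ (z j i) = z j i) ∧
      ∀ i, τ (y j₀ i) = y j₀ (P i) ∧ τ (z j₀ i) = z j₀ (Q i) := by
  classical
  obtain ⟨S, hS⟩ : ∃ S : Set L, S = e '' {x | x.1 ≠ j₀} := ⟨_, rfl⟩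
  let F₀ : IntermediateField M L := IntermediateField.adjoin M S
  have hind0 : AlgebraicIndependent F₀ ![e (j₀, 0), e (j₀, 1)] := by
    subst hS
    exact algInd_pair he j₀
  let A : IntermediateField F₀ L := algebraicClosure F₀ L
  have hindA : AlgebraicIndependent A ![e (j₀, 0), e (j₀, 1)] := hind0.algebraicClosure
  obtain ⟨a, ha⟩ : ∃ a : Fin k → L, ∀ j, a j = th (e (j, 0)) (e (j, 1)) + e (j, 0) :=
    ⟨_, fun _ => rfl⟩
  obtain ⟨b, hb⟩ : ∃ b : Fin k → L, ∀ j, b j = th (e (j, 0)) (e (j, 1)) + e (j, 1) :=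
    ⟨_, fun _ => rfl⟩
  simp only [← ha, ← hb] at ht
  have hab : AlgebraicIndependent A ![a j₀, b j₀] := by
    rw [ha, hb]
    exact algInd_ab hindA
  have hMA : ∀ m : M, algebraMap M L m ∈ A := by
    intro m
    rw [IsScalarTower.algebraMap_apply M F₀ L]
    exact A.algebraMap_mem _
  have hF₀A : ∀ x : L, x ∈ F₀ → x ∈ A := fun x hx => A.algebraMap_mem (⟨x, hx⟩ : F₀)
  have hAe : ∀ x : Fin k × ZMod 2, x.1 ≠ j₀ → e x ∈ A := by
    intro x hx
    refine hF₀A _ (IntermediateField.subset_adjoin _ _ ?_)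
    rw [hS]
    exact ⟨x, hx, rfl⟩
  have hAth : ∀ j, j ≠ j₀ → th (e (j, 0)) (e (j, 1)) ∈ A := by
    intro j hj
    exact A.div_mem (A.add_mem (A.mul_mem (hAe (j, 0) hj) (hAe (j, 1) hj)) A.one_mem)
      (A.add_mem (A.add_mem A.one_mem (hAe (j, 0) hj)) (hAe (j, 1) hj))
  have hAa : ∀ j, j ≠ j₀ → a j ∈ A := by
    intro j hj
    rw [ha]
    exact A.add_mem (hAth j hj) (hAe (j, 0) hj)
  have hAb : ∀ j, j ≠ j₀ → b j ∈ A := by
    intro j hj
    rw [hb]
    exact A.add_mem (hAth j hj) (hAe (j, 1) hj)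
  have hAy : ∀ j, j ≠ j₀ → ∀ i, y j i ∈ A := fun j hj i =>
    mem_algebraicClosure_iff.mpr (mem_of_isRoots (ht j).1
      (mem_algebraicClosure_iff.mp (hAa j hj)) (mem_algebraicClosure_iff.mp (hAb j hj)) i)
  have hAz : ∀ j, j ≠ j₀ → ∀ i, z j i ∈ A := fun j hj i =>
    mem_algebraicClosure_iff.mpr (mem_of_isRoots (ht j).2.1
      (mem_algebraicClosure_iff.mp (hAb j hj)) (mem_algebraicClosure_iff.mp (hAa j hj)) i)
  have hgen' : IntermediateField.adjoin A
      ({a j₀, b j₀} ∪ (Set.range (y j₀) ∪ Set.range (z j₀))) = ⊤ := by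
    set T := IntermediateField.adjoin A
      ({a j₀, b j₀} ∪ (Set.range (y j₀) ∪ Set.range (z j₀))) with hT
    have hTA : ∀ x : L, x ∈ A → x ∈ T := fun x hx => T.algebraMap_mem (⟨x, hx⟩ : A)
    have hTa : a j₀ ∈ T := IntermediateField.subset_adjoin _ _ (Or.inl (Or.inl rfl))
    have hTb : b j₀ ∈ T := IntermediateField.subset_adjoin _ _ (Or.inl (Or.inr rfl))
    have hTy : ∀ i, y j₀ i ∈ T := fun i =>
      IntermediateField.subset_adjoin _ _ (Or.inr (Or.inl ⟨i, rfl⟩))
    have hTz : ∀ i, z j₀ i ∈ T := fun i =>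
      IntermediateField.subset_adjoin _ _ (Or.inr (Or.inr ⟨i, rfl⟩))
    have hTth : th (e (j₀, 0)) (e (j₀, 1)) ∈ T := by
      rw [← hs]
      exact ss_mem T.toSubfield (y j₀) hTy
    have hTe : ∀ x : Fin k × ZMod 2, e x ∈ T := by
      rintro ⟨j, c⟩
      by_cases hj : j = j₀
      · subst hj
        rcases (by decide : ∀ b : ZMod 2, b = 0 ∨ b = 1) c with rfl | rfl
        · have h1 : e (j, 0) = a j - th (e (j, 0)) (e (j, 1)) := by
            rw [ha]
            ring
          rw [h1]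
          exact T.sub_mem hTa hTth
        · have h1 : e (j, 1) = b j - th (e (j, 0)) (e (j, 1)) := by
            rw [hb]
            ring
          rw [h1]
          exact T.sub_mem hTb hTth
      · exact hTA _ (hAe _ hj)
    let T' : IntermediateField M L := T.toSubfield.toIntermediateField fun m => hTA _ (hMA m)
    have hT' : (⊤ : IntermediateField M L) ≤ T' := by
      rw [← hgen, IntermediateField.adjoin_le_iff]
      rintro x (⟨x, rfl⟩ | hx)
      · exact hTe x
      · obtain ⟨j, hj⟩ := Set.mem_iUnion.mp hx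
        by_cases hjj : j = j₀
        · subst hjj
          rcases hj with ⟨i, rfl⟩ | ⟨i, rfl⟩
          · exact hTy i
          · exact hTz i
        · rcases hj with ⟨i, rfl⟩ | ⟨i, rfl⟩
          · exact hTA _ (hAy j hjj i)
          · exact hTA _ (hAz j hjj i)
    rw [eq_top_iff]
    intro x _
    exact hT' (IntermediateField.mem_top)
  obtain ⟨τ, hτa, hτb, hτ⟩ := gal_six' hab (ht j₀) hgen' P hP
  have hτA : ∀ x : L, x ∈ A → τ x = x := fun x hx => τ.commutes ⟨x, hx⟩
  have hτth : τ (th (e (j₀, 0)) (e (j₀, 1))) = th (e (j₀, 0)) (e (j₀, 1)) := by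
    have h1 := map_ss (τ : L →+* L) (y j₀)
    have h2 : ((τ : L →+* L) ∘ y j₀) = y j₀ ∘ P := funext fun i => hτ i
    rw [h2, ss_comp (ht j₀).1.injective, if_pos hP, add_zero, hs] at h1
    exact h1
  have hτe : ∀ x : Fin k × ZMod 2, τ (e x) = e x := by
    rintro ⟨j, c⟩
    by_cases hj : j = j₀
    · subst hj
      rcases (by decide : ∀ b : ZMod 2, b = 0 ∨ b = 1) c with rfl | rfl
      · have h1 : e (j, 0) = a j - th (e (j, 0)) (e (j, 1)) := by
          rw [ha]
          ring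
        rw [h1, map_sub, hτa, hτth]
      · have h1 : e (j, 1) = b j - th (e (j, 0)) (e (j, 1)) := by
          rw [hb]
          ring
        rw [h1, map_sub, hτb, hτth]
    · exact hτA _ (hAe _ hj)
  have hτz : ∀ i, τ (z j₀ i) = z j₀ (Q i) := by
    have h1 := (ht j₀).map (τ : L →+* L)
    have h2 : ((τ : L →+* L) ∘ y j₀) = y j₀ ∘ P := funext fun i => hτ i
    have h3 : (τ : L →+* L) (a j₀) = a j₀ := hτa
    have h4 : (τ : L →+* L) (b j₀) = b j₀ := hτb
    rw [h2, h3, h4] at h1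
    have h5 := h1.unique ((ht j₀).comp hc)
    intro i
    exact congrFun h5 i
  refine ⟨AlgEquiv.ofRingEquiv (f := (τ : L ≃+* L)) fun m => hτA _ (hMA m), hτe, ?_, ?_⟩
  · intro j hj i
    exact ⟨hτA _ (hAy j hj i), hτA _ (hAz j hj i)⟩
  · intro i
    exact ⟨hτ i, hτz i⟩

end main

end MP7fX
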