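import Pool.Agent.Lib.MP_7f581e_ntE.Hom
import Pool.Agent.Lib.MP_7f581e_ntX.Move
import Pool.Agent.Lib.MP_7f581e_ntX.Bits
import Pool.Agent.Lib.MP_7f581e_ntX.Assemble

/-!
Realisation of an extension with kernel `A_6 ^ k` in characteristic two, over the field of
invariants of the twisted action.
-/

set_option autoImplicit false

universe u

namespace MP7fX

open Polynomial Equiv

section lift

variable {M F N Ω : Type u} [Field M] [Field F] [Field N] [Field Ω] [Algebra F N] [Algebra M N]
  [Algebra N Ω] [Algebra F Ω] [IsScalarTower F N Ω] [Algebra M Ω] [IsScalarTower M N Ω]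
  [Normal F Ω] {I : Type}

theorem exists_lift_move (e : I → N) (hgenN : IntermediateField.adjoin M (Set.range e) = ⊤)
    (L : IntermediateField M Ω) (heL : ∀ j, algebraMap N Ω (e j) ∈ L) (τ : L ≃ₐ[M] L)
    (hτe : ∀ j, τ ⟨algebraMap N Ω (e j), heL j⟩ = ⟨algebraMap N Ω (e j), heL j⟩) :
    ∃ τ' : Ω ≃ₐ[F] Ω, (∀ x : N, τ' (algebraMap N Ω x) = algebraMap N Ω x) ∧
      ∀ x : L, τ' (x : Ω) = (τ x : Ω) := by
  have hNL : ∀ x : N, algebraMap N Ω x ∈ L := by
    intro x
    have h1 : (⊤ : IntermediateField M N) ≤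
        (L.toSubfield.comap (algebraMap N Ω)).toIntermediateField (by
          intro m
          change algebraMap N Ω (algebraMap M N m) ∈ L
          rw [← IsScalarTower.algebraMap_apply]
          exact L.algebraMap_mem m) := by
      rw [← hgenN, IntermediateField.adjoin_le_iff]
      rintro _ ⟨j, rfl⟩
      exact heL j
    exact h1 (IntermediateField.mem_top (x := x))
  let φN : N →+* L := (algebraMap N Ω).codRestrict L hNL
  have hφN : ∀ x, ((φN x : L) : Ω) = algebraMap N Ω x := fun _ => rfl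
  have hτN : ∀ x : N, τ (φN x) = φN x := by
    intro x
    have h1 : (⊤ : IntermediateField M N) ≤
        (RingHom.eqLocusField ((τ : L →+* L).comp φN) φN).toIntermediateField (by
          intro m
          change τ (φN (algebraMap M N m)) = φN (algebraMap M N m)
          have h2 : φN (algebraMap M N m) = algebraMap M L m := by
            apply Subtype.ext
            rw [hφN, ← IsScalarTower.algebraMap_apply]
            rfl
          rw [h2, AlgEquiv.commutes]) := by
      rw [← hgenN, IntermediateField.adjoin_le_iff]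
      rintro _ ⟨j, rfl⟩
      exact hτe j
    exact h1 (IntermediateField.mem_top (x := x))
  let _ : Algebra F L := (φN.comp (algebraMap F N)).toAlgebra
  have htow : IsScalarTower F L Ω := IsScalarTower.of_algebraMap_eq fun x => by
    rw [IsScalarTower.algebraMap_apply F N Ω]
    rfl
  let τF : L ≃ₐ[F] L := AlgEquiv.ofRingEquiv (f := (τ : L ≃+* L)) fun x => hτN (algebraMap F N x)
  refine ⟨τF.liftNormal Ω, fun x => ?_, fun x => ?_⟩
  · have h1 := AlgEquiv.liftNormal_commutes τF Ω (φN x)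
    have h2 : algebraMap L Ω (φN x) = algebraMap N Ω x := rfl
    rw [h2] at h1
    rw [h1]
    change ((τ (φN x) : L) : Ω) = _
    rw [hτN, hφN]
  · exact AlgEquiv.liftNormal_commutes τF Ω x

end lift

section descent

variable {L L' : Type*} [Field L] [Field L']

theorem IsRoots.of_map {a b : L} {y : Fin 6 → L} (f : L →+* L')
    (h : IsRoots (f a) (f b) (f ∘ y)) : IsRoots a b y := by
  apply Polynomial.map_injective f f.injective
  simp only [Polynomial.map_add, Polynomial.map_mul, Polynomial.map_pow, map_X, map_C,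
    Polynomial.map_prod, Polynomial.map_sub]
  exact h

theorem Twin.of_map {a b : L} {y z : Fin 6 → L} (f : L →+* L')
    (h : Twin (f a) (f b) (f ∘ y) (f ∘ z)) : Twin a b y z := by
  refine ⟨h.1.of_map f, h.2.1.of_map f, fun s t => f.injective ?_⟩
  rw [map_pow, map_add, map_prod]
  simp only [map_add]
  exact h.2.2 s t

end descent

section roots

variable {Ω : Type u} [Field Ω] [CharP Ω 2] [IsSepClosed Ω]

/-- Twin sextics with normalised sign element. -/
theorem exists_pair {a b θ : Ω} (hθ : θ ^ 2 + θ = 1 + a * b) :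
    ∃ y z : Fin 6 → Ω, Twin a b y z ∧ ss y = θ := by
  have two0 : (2 : Ω) = 0 := CharTwo.two_eq_zero
  obtain ⟨y, hy⟩ := exists_isRoots a b
  obtain ⟨z, hz⟩ := exists_twin hy
  have h1 := ss_rel hy
  rw [← hθ] at h1
  have h3 : (ss y - θ) * (ss y - (θ + 1)) = 0 := by
    linear_combination h1 + (θ ^ 2 + θ - ss y - θ * ss y) * two0
  rcases mul_eq_zero.mp h3 with h | h
  · exact ⟨y, z, hz, sub_eq_zero.mp h⟩
  · obtain ⟨Q, hQ⟩ := exists_cmp (swap (0 : Fin 6) 1)
    refine ⟨_, _, hz.comp hQ, ?_⟩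
    rw [ss_comp hy.injective, Perm.sign_swap (by decide), if_neg (by decide),
      sub_eq_zero.mp h]
    linear_combination two0

end roots

/-- Points and totals together. -/
def yz {Ω : Type*} (y z : Fin 6 → Ω) (x : ZMod 2 × Fin 6) : Ω := if x.1 = 0 then y x.2 else z x.2

theorem yz_injective {Ω : Type*} {y z : Fin 6 → Ω} (hy : Function.Injective y)
    (hz : Function.Injective z) (h : ∀ i s, y i ≠ z s) : Function.Injective (yz y z) := by
  rintro ⟨c, i⟩ ⟨c', i'⟩ hx
  rcases zmod2_cases c with rfl | rfl <;> rcases zmod2_cases c' with rfl | rfl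
  · exact Prod.ext rfl (hy hx)
  · exact absurd hx (h _ _)
  · exact absurd hx.symm (h _ _)
  · exact Prod.ext rfl (hz hx)

section core

variable {K M F N : Type u} [Field K] [Field M] [Field F] [Field N] [Algebra K M]
  [Algebra F N] [Algebra M N] [FiniteDimensional F N] [IsGalois F N] {k : ℕ}

theorem core_aux [Algebra K F] (Ω : Type u) [Field Ω] [Algebra N Ω] [Algebra F Ω]
    [IsScalarTower F N Ω]
    [Algebra M Ω] [IsScalarTower M N Ω] [Algebra K Ω] [IsScalarTower K M Ω] [CharP Ω 2]
    [IsSepClosed Ω] [IsGalois F Ω] (δ : ZMod 2)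
    (hδ : ∀ (a b : Ω) (y z : Fin 6 → Ω), AlgebraicIndependent K ![a, b] →
      Twin a b y z → ss z = ss y + (if δ = 0 then 0 else 1))
    (ι : (M ≃ₐ[K] M) ≃* (N ≃ₐ[F] N))
    (act : (M ≃ₐ[K] M) →* Perm (Fin k)) (bit sw : (M ≃ₐ[K] M) → Fin k → ZMod 2)
    (e : Fin k × ZMod 2 → N)
    (hKFN : ∀ a : K, algebraMap M N (algebraMap K M a) = algebraMap F N (algebraMap K F a))
    (hι : ∀ g m, ι g (algebraMap M N m) = algebraMap M N (g m))
    (hιe : ∀ g j c, ι g (e (j, c)) = e (act g j, c + sw g j) + (if bit g j = 0 then 0 else 1))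
    (hind : AlgebraicIndependent M e)
    (hgenN : IntermediateField.adjoin M (Set.range e) = ⊤)
    {E : Type} [Group E] (cls : E →* (M ≃ₐ[K] M)) (T : E → Fin k → H)
    (hT1 : ∀ e e' j, T (e * e') j = T e (act (cls e') j) * T e' j)
    (hT2 : ∀ e j, qm δ (T e j) = Multiplicative.ofAdd (bit (cls e) j, sw (cls e) j))
    (hT3 : ∀ (g : M ≃ₐ[K] M) (τ : Fin k → H),
      (∀ j, qm δ (τ j) = Multiplicative.ofAdd (bit g j, sw g j)) →
      ∃! e : E, cls e = g ∧ T e = τ) :
    ∃ (L : Type u) (_ : Field L) (_ : Algebra F L) (_ : FiniteDimensional F L)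
      (_ : IsGalois F L) (e' : (L ≃ₐ[F] L) ≃* E) (j : M →+* L),
      (∀ a : K, j (algebraMap K M a) = algebraMap F L (algebraMap K F a)) ∧
      ∀ (σ : L ≃ₐ[F] L) (x : M), σ (j x) = j (cls (e' σ) x) := by
  classical
  have two0 : (2 : Ω) = 0 := CharTwo.two_eq_zero
  obtain ⟨EE, hEE⟩ : ∃ EE : Fin k × ZMod 2 → Ω, ∀ j, EE j = algebraMap N Ω (e j) :=
    ⟨_, fun _ => rfl⟩
  have hEE' : EE = algebraMap N Ω ∘ e := funext hEE
  have hindΩ : AlgebraicIndependent M EE := by
    rw [hEE']
    exact hind.map' (f := IsScalarTower.toAlgHom M N Ω) (algebraMap N Ω).injective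
  have hpair : ∀ j, AlgebraicIndependent M ![EE (j, 0), EE (j, 1)] := algInd_pair' hindΩ
  obtain ⟨θ, hθ⟩ : ∃ θ : Fin k → Ω, ∀ j, θ j = th (EE (j, 0)) (EE (j, 1)) := ⟨_, fun _ => rfl⟩
  have hrel : ∀ j, θ j ^ 2 + θ j = 1 + (θ j + EE (j, 0)) * (θ j + EE (j, 1)) := by
    intro j
    rw [hθ]
    exact th_rel (den_ne (hpair j))
  choose y z hyz hss using fun j => exists_pair (hrel j)
  have hKab : ∀ j, AlgebraicIndependent K ![θ j + EE (j, 0), θ j + EE (j, 1)] := by
    intro j
    rw [hθ]
    exact (algInd_ab (hpair j)).restrictScalars (algebraMap K M).injective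
  have hssz : ∀ j, ss (z j) = θ j + (if δ = 0 then 0 else 1) := by
    intro j
    rw [hδ _ _ _ _ (hKab j) (hyz j), hss]
  have hinj : ∀ j, Function.Injective (y j) := fun j => (hyz j).1.injective
  have hinjz : ∀ j, Function.Injective (z j) := fun j => (hyz j).2.1.injective
  -- the projection
  let π : (Ω ≃ₐ[F] Ω) →* (M ≃ₐ[K] M) :=
    ι.symm.toMonoidHom.comp (AlgEquiv.restrictNormalHom (F := F) (K₁ := Ω) N)
  have hπN : ∀ (γ : Ω ≃ₐ[F] Ω) (x : N), γ (algebraMap N Ω x) = algebraMap N Ω (ι (π γ) x) := by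
    intro γ x
    have h1 : ι (π γ) = AlgEquiv.restrictNormalHom (F := F) (K₁ := Ω) N γ :=
      ι.apply_symm_apply _
    rw [h1]
    exact (AlgEquiv.restrictNormal_commutes γ N x).symm
  have hπM : ∀ (γ : Ω ≃ₐ[F] Ω) (m : M), γ (algebraMap M Ω m) = algebraMap M Ω (π γ m) := by
    intro γ m
    rw [IsScalarTower.algebraMap_apply M N Ω, hπN, hι, ← IsScalarTower.algebraMap_apply]
  have hπK : ∀ (γ : Ω ≃ₐ[F] Ω) (a : K), γ (algebraMap K Ω a) = algebraMap K Ω a := by
    intro γ a
    rw [IsScalarTower.algebraMap_apply K M Ω, hπM, AlgEquiv.commutes]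
  have hπE : ∀ (γ : Ω ≃ₐ[F] Ω) (j : Fin k) (c : ZMod 2), γ (EE (j, c)) =
      EE (act (π γ) j, c + sw (π γ) j) + (if bit (π γ) j = 0 then 0 else 1) := by
    intro γ j c
    rw [hEE, hπN, hιe, map_add, hEE]
    split_ifs <;> simp
  have hπθ : ∀ (γ : Ω ≃ₐ[F] Ω) (j : Fin k),
      γ (θ j) = θ (act (π γ) j) + (if bit (π γ) j = 0 then 0 else 1) := by
    intro γ j
    rw [hθ, hθ]
    have h1 := map_th (γ : Ω →+* Ω) (EE (j, 0)) (EE (j, 1))
    have h2 : (γ : Ω →+* Ω) (EE (j, 0)) = _ := hπE γ j 0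
    have h3 : (γ : Ω →+* Ω) (EE (j, 1)) = _ := hπE γ j 1
    rw [h2, h3] at h1
    have h4 : γ (th (EE (j, 0)) (EE (j, 1))) = _ := h1
    rw [h4]
    have hd := den_ne (hpair (act (π γ) j))
    rcases zmod2_cases (sw (π γ) j) with hs | hs
    · rw [hs]
      simp only [add_zero]
      split_ifs
      · rw [add_zero, add_zero, add_zero]
      · exact th_shift _ _ hd
    · rw [hs]
      have e1 : (0 + 1 : ZMod 2) = 1 := by decide
      have e2 : (1 + 1 : ZMod 2) = 0 := by decide
      rw [e1, e2]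
      split_ifs
      · rw [add_zero, add_zero, add_zero, th_comm]
      · rw [th_comm (EE (act (π γ) j, 1) + 1)]
        exact th_shift _ _ hd
  have hπA : ∀ (γ : Ω ≃ₐ[F] Ω) (j : Fin k) (c : ZMod 2),
      γ (θ j + EE (j, c)) = θ (act (π γ) j) + EE (act (π γ) j, c + sw (π γ) j) := by
    intro γ j c
    rw [map_add, hπθ, hπE]
    split_ifs
    · rw [add_zero, add_zero]
    · linear_combination two0
  have hπsurj : Function.Surjective π :=
    ι.symm.surjective.comp (AlgEquiv.restrictNormalHom_surjective (F := F) (K₁ := N) Ω)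
  have hπ1 : ∀ γ : Ω ≃ₐ[F] Ω, π γ = 1 ↔ ∀ x : N, γ (algebraMap N Ω x) = algebraMap N Ω x := by
    intro γ
    constructor
    · intro h x
      rw [hπN, h, map_one]
      rfl
    · intro h
      apply ι.injective
      rw [map_one]
      ext x
      apply (algebraMap N Ω).injective
      rw [← hπN, h]
      rfl
  have hfdN : FiniteDimensional F (IsScalarTower.toAlgHom F N Ω).fieldRange :=
    (AlgEquiv.ofInjectiveField (IsScalarTower.toAlgHom F N Ω)).toLinearEquiv.finiteDimensional
  suffices hsuff : ∃ (Φ : (Ω ≃ₐ[F] Ω) →* E) (L : IntermediateField F Ω), Function.Surjective Φ ∧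
      FiniteDimensional F L ∧ Φ.ker = L.fixingSubgroup ∧ ∀ γ, cls (Φ γ) = π γ by
    obtain ⟨Φ, L, h1, h2, h3, h4⟩ := hsuff
    refine MP7fE.sol_of_hom (algebraMap M Ω) (fun a => ?_) cls Φ h1 L h3 (fun γ m => ?_)
    · rw [IsScalarTower.algebraMap_apply M N Ω, hKFN, ← IsScalarTower.algebraMap_apply F N Ω]
    · rw [hπM, h4]
  refine assembly H (qm δ) π hπsurj (IsScalarTower.toAlgHom F N Ω).fieldRange ?_ act
    (fun g j => Multiplicative.ofAdd (bit g j, sw g j)) (fun j => yz (y j) (z j))
    (fun j => yz_injective (hinj j) (hinjz j) ((hyz j).ne ?_)) ?_ ?_ cls T hT1 hT2 hT3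
  · ext γ
    rw [MonoidHom.mem_ker, hπ1, IntermediateField.mem_fixingSubgroup_iff]
    constructor
    · rintro h _ ⟨x, rfl⟩
      exact h x
    · intro h x
      exact h _ ⟨x, rfl⟩
  · exact ne_of_algInd (hKab j)
  · -- permutations
    intro γ j
    obtain ⟨j', hj'⟩ : ∃ j', j' = act (π γ) j := ⟨_, rfl⟩
    have hmap := (hyz j).map (γ : Ω →+* Ω)
    have ha : (γ : Ω →+* Ω) (θ j + EE (j, 0)) = _ := hπA γ j 0
    have hb : (γ : Ω →+* Ω) (θ j + EE (j, 1)) = _ := hπA γ j 1
    have hsg : ss ((γ : Ω →+* Ω) ∘ y j) = θ j' + (if bit (π γ) j = 0 then 0 else 1) := by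
      rw [← map_ss, hss, hj']
      exact hπθ γ j
    rw [ha, hb, ← hj'] at hmap
    rcases zmod2_cases (sw (π γ) j) with hs | hs
    · rw [hs, add_zero, add_zero] at hmap
      obtain ⟨P, hP⟩ := isRoots_unique (hyz j').1 hmap.1
      obtain ⟨Q, hQ⟩ := exists_cmp P
      have h1 := (hyz j').comp hQ
      rw [hP] at hmap hsg
      have h2 := hmap.unique h1
      obtain ⟨p, hp0, hp1⟩ := exists_h 0 hQ
      refine ⟨p, ?_, ?_⟩
      · rintro ⟨c, i⟩
        rw [← hj']
        rcases zmod2_cases c with rfl | rfl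
        · rw [hp0]
          exact congrFun hP i
        · rw [hp1]
          exact congrFun h2 i
      · obtain ⟨h3, h4⟩ := h_unique p hp0
        apply Multiplicative.toAdd.injective
        rw [qm_apply, h3, h4, mul_zero, add_zero, toAdd_ofAdd, hs]
        congr 1
        rw [ss_comp (hinj j'), hss] at hsg
        unfold asg
        rcases zmod2_cases (bit (π γ) j) with hb | hb
        · rw [hb] at hsg ⊢
          rw [if_pos rfl] at hsg
          by_contra hne
          rw [if_neg (fun h => hne (if_pos h))] at hsg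
          exact one_ne_zero (α := Ω) (by linear_combination hsg)
        · rw [hb] at hsg ⊢
          rw [if_neg (by decide : ¬ ((1 : ZMod 2) = 0))] at hsg
          by_contra hne
          have h5 : Perm.sign P = 1 := by
            by_contra h6
            exact hne (if_neg h6)
          rw [if_pos h5] at hsg
          exact one_ne_zero (α := Ω) (by linear_combination -hsg)
    · rw [hs, zero_add, (by decide : (1 + 1 : ZMod 2) = 0)] at hmap
      have hsym := (hyz j').symm
      obtain ⟨P, hP⟩ := isRoots_unique hsym.1 hmap.1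
      obtain ⟨Q, hQ⟩ := exists_cmp P
      have h1 := hsym.comp hQ
      rw [hP] at hmap hsg
      have h2 := hmap.unique h1
      obtain ⟨p, hp0, hp1⟩ := exists_h 1 hQ
      refine ⟨p, ?_, ?_⟩
      · rintro ⟨c, i⟩
        rw [← hj']
        rcases zmod2_cases c with rfl | rfl
        · rw [hp0]
          exact congrFun hP i
        · rw [hp1]
          exact congrFun h2 i
      · obtain ⟨h3, h4⟩ := h_unique p hp0
        apply Multiplicative.toAdd.injective
        rw [qm_apply, h3, h4, mul_one, toAdd_ofAdd, hs]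
        congr 1
        rw [ss_comp (hinjz j'), hssz] at hsg
        unfold asg
        have e1 : (1 + 1 : ZMod 2) = 0 := by decide
        have ne1 : ¬ ((1 : ZMod 2) = 0) := by decide
        rcases zmod2_cases (bit (π γ) j) with hb | hb <;> rcases zmod2_cases δ with hd | hd <;>
          by_cases h5 : Perm.sign P = 1 <;> rw [hb, hd] <;> rw [hb, hd] at hsg <;>
          simp only [h5, if_true, if_false, ne1, add_zero, zero_add, e1] at hsg ⊢
        all_goals first
          | exact absurd (by linear_combination hsg) (one_ne_zero (α := Ω))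
          | exact absurd (by linear_combination -hsg) (one_ne_zero (α := Ω))
  · -- moves
    intro j₀ σ hσ
    rw [qm_eq_one] at hσ
    obtain ⟨hσ0, hσ1⟩ := hσ
    let S : Set Ω := Set.range EE ∪ ⋃ j, (Set.range (y j) ∪ Set.range (z j))
    let L : IntermediateField M Ω := IntermediateField.adjoin M S
    have heL : ∀ j, EE j ∈ L := fun j =>
      IntermediateField.subset_adjoin _ _ (Or.inl ⟨j, rfl⟩)
    have hyL : ∀ j i, y j i ∈ L := fun j i =>
      IntermediateField.subset_adjoin _ _ (Or.inr (Set.mem_iUnion.mpr ⟨j, Or.inl ⟨i, rfl⟩⟩))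
    have hzL : ∀ j i, z j i ∈ L := fun j i =>
      IntermediateField.subset_adjoin _ _ (Or.inr (Set.mem_iUnion.mpr ⟨j, Or.inr ⟨i, rfl⟩⟩))
    have hcharL : CharP L 2 := (algebraMap L Ω).charP (algebraMap L Ω).injective 2
    have hθL : ∀ j, θ j ∈ L := by
      intro j
      rw [hθ]
      exact L.div_mem (L.add_mem (L.mul_mem (heL _) (heL _)) L.one_mem)
        (L.add_mem (L.add_mem L.one_mem (heL _)) (heL _))
    have hth : ∀ j, algebraMap L Ω (th (⟨EE (j, 0), heL _⟩ : L) ⟨EE (j, 1), heL _⟩) = θ j := by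
      intro j
      rw [map_th, hθ]
      rfl
    obtain ⟨τ, hτ1, hτ2, hτ3⟩ := exists_move (fun x => (⟨EE x, heL x⟩ : L))
      (AlgebraicIndependent.of_comp (f := L.val) hindΩ)
      (fun j i => (⟨y j i, hyL j i⟩ : L)) (fun j i => (⟨z j i, hzL j i⟩ : L))
      (fun j => Twin.of_map (algebraMap L Ω) (by
        rw [map_add, map_add, hth]
        exact hyz j))
      (fun j => (algebraMap L Ω).injective (by
        rw [map_ss, hth]
        exact hss j))
      (by
        apply IntermediateField.map_injective L.val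
        rw [IntermediateField.adjoin_map, ← AlgHom.fieldRange_eq_map,
          IntermediateField.fieldRange_val, Set.image_union, ← Set.range_comp, Set.image_iUnion]
        change IntermediateField.adjoin M (Set.range EE ∪ _) = IntermediateField.adjoin M S
        congr 2
        apply Set.iUnion_congr
        intro j
        rw [Set.image_union, ← Set.range_comp, ← Set.range_comp]
        rfl) j₀ (hP σ) (hQ σ) (h_cmp σ) hσ1
    obtain ⟨τ', h1, h2⟩ := exists_lift_move (F := F) e hgenN L
      (fun j => by rw [← hEE]; exact heL j) τ (fun j => by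
        have h3 := hτ1 j
        have h4 : (⟨algebraMap N Ω (e j), by rw [← hEE]; exact heL j⟩ : L) = ⟨EE j, heL j⟩ :=
          Subtype.ext (hEE j).symm
        rw [h4]
        exact h3)
    refine ⟨τ', (hπ1 τ').mpr h1, ?_, ?_⟩
    · rintro j hj ⟨c, i⟩
      rcases zmod2_cases c with rfl | rfl
      · change τ' (y j i) = y j i
        rw [h2 ⟨y j i, hyL j i⟩, (hτ2 j hj i).1]
      · change τ' (z j i) = z j i
        rw [h2 ⟨z j i, hzL j i⟩, (hτ2 j hj i).2]
    · rintro ⟨c, i⟩
      rcases zmod2_cases c with rfl | rfl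
      · rw [h_zero, hσ0]
        change τ' (y j₀ i) = y j₀ (hP σ i)
        rw [h2 ⟨y j₀ i, hyL j₀ i⟩, (hτ3 i).1]
      · rw [h_one, hσ0]
        change τ' (z j₀ i) = z j₀ (hQ σ i)
        rw [h2 ⟨z j₀ i, hzL j₀ i⟩, (hτ3 i).2]

/-- The main step. -/
theorem core [Algebra K F] [CharP K 2] (δ : ZMod 2)
    (hδ : ∀ (Ω : Type u) [Field Ω] [Algebra K Ω] [IsSepClosed Ω] (a b : Ω) (y z : Fin 6 → Ω),
      AlgebraicIndependent K ![a, b] → Twin a b y z → ss z = ss y + (if δ = 0 then 0 else 1))
    (ι : (M ≃ₐ[K] M) ≃* (N ≃ₐ[F] N))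
    (act : (M ≃ₐ[K] M) →* Perm (Fin k)) (bit sw : (M ≃ₐ[K] M) → Fin k → ZMod 2)
    (e : Fin k × ZMod 2 → N)
    (hKFN : ∀ a : K, algebraMap M N (algebraMap K M a) = algebraMap F N (algebraMap K F a))
    (hι : ∀ g m, ι g (algebraMap M N m) = algebraMap M N (g m))
    (hιe : ∀ g j c, ι g (e (j, c)) = e (act g j, c + sw g j) + (if bit g j = 0 then 0 else 1))
    (hind : AlgebraicIndependent M e)
    (hgenN : IntermediateField.adjoin M (Set.range e) = ⊤)
    {E : Type} [Group E] (cls : E →* (M ≃ₐ[K] M)) (T : E → Fin k → H)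
    (hT1 : ∀ e e' j, T (e * e') j = T e (act (cls e') j) * T e' j)
    (hT2 : ∀ e j, qm δ (T e j) = Multiplicative.ofAdd (bit (cls e) j, sw (cls e) j))
    (hT3 : ∀ (g : M ≃ₐ[K] M) (τ : Fin k → H),
      (∀ j, qm δ (τ j) = Multiplicative.ofAdd (bit g j, sw g j)) →
      ∃! e : E, cls e = g ∧ T e = τ) :
    ∃ (L : Type u) (_ : Field L) (_ : Algebra F L) (_ : FiniteDimensional F L)
      (_ : IsGalois F L) (e' : (L ≃ₐ[F] L) ≃* E) (j : M →+* L),
      (∀ a : K, j (algebraMap K M a) = algebraMap F L (algebraMap K F a)) ∧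
      ∀ (σ : L ≃ₐ[F] L) (x : M), σ (j x) = j (cls (e' σ) x) := by
  let Ω := SeparableClosure N
  let _ : Algebra F Ω := ((algebraMap N Ω).comp (algebraMap F N)).toAlgebra
  have h1 : IsScalarTower F N Ω := IsScalarTower.of_algebraMap_eq fun _ => rfl
  let _ : Algebra M Ω := ((algebraMap N Ω).comp (algebraMap M N)).toAlgebra
  have h2 : IsScalarTower M N Ω := IsScalarTower.of_algebraMap_eq fun _ => rfl
  let _ : Algebra K Ω := ((algebraMap M Ω).comp (algebraMap K M)).toAlgebra
  have h3 : IsScalarTower K M Ω := IsScalarTower.of_algebraMap_eq fun _ => rfl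
  have h4 : CharP Ω 2 := charP_of_injective_algebraMap (algebraMap K Ω).injective 2
  have h5 : Algebra.IsSeparable F Ω := Algebra.IsSeparable.trans F N Ω
  have h6 : IsSepClosure F Ω := ⟨inferInstance, h5⟩
  have h7 : IsGalois F Ω := inferInstance
  exact core_aux Ω δ (hδ Ω) ι act bit sw e hKFN hι hιe hind hgenN cls T hT1 hT2 hT3

end core

end MP7fX
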