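import Pool.Agent.Lib.MP_7f581e_ntX.Sgn

/-!
The facts on twin sextics used in the construction.
-/

set_option autoImplicit false

universe u

namespace MP7fX

theorem exists_delta (K : Type u) [Field K] [CharP K 2] : ∃ δ : ZMod 2, ∀ (Ω : Type u) [Field Ω]
    [Algebra K Ω] [IsSepClosed Ω] (a b : Ω) (y z : Fin 6 → Ω), AlgebraicIndependent K ![a, b] →
    Twin a b y z → ss z = ss y + (if δ = 0 then 0 else 1) := by
  refine ⟨0, fun Ω _ _ _ a b y z _ h => ?_⟩
  have h4 : CharP Ω 2 := charP_of_injective_algebraMap (algebraMap K Ω).injective 2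
  rw [if_pos rfl, add_zero]
  exact ss_twin h

end MP7fX
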