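import Pool.Agent.Lib.MP_7f581e_ntE.Defs
import Pool.Agent.Lib.MP_7f581e_ntA.Twist
import Pool.Agent.Lib.MP_7f581e_ntX.Aut
import Pool.Agent.Lib.MP_7f581e_ntX.Facts
import Pool.Agent.Lib.MP_7f581e_ntX.Core

/-!
Embedding problems with kernel a power of `A_6` in characteristic two.
-/

set_option autoImplicit false

universe u

namespace MP7fX

open Polynomial Equiv

theorem center_six : Subgroup.center (alternatingGroup (Fin 6)) = ⊥ :=
  alternatingGroup.center_eq_bot (by simp)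

theorem solvesOver_alt6 {K : Type u} [Field K] [CharP K 2] {k : ℕ} {E : Type} [Group E] [Finite E]
    (N : Subgroup E) [N.Normal] (φ : N ≃* (Fin k → alternatingGroup (Fin 6))) :
    MP7fE.SolvesOver K (FractionRing (MvPolynomial (Fin (k * 2)) K)) (QuotientGroup.mk' N) := by
  intro M _ _ hfd hgal i
  obtain ⟨δ, hδ⟩ := exists_delta K
  have hsimple : IsSimpleGroup (alternatingGroup (Fin 6)) :=
    alternatingGroup.isSimpleGroup (by simp)
  obtain ⟨act, T, hT1, hTm, hT3⟩ := exists_aut_data center_six kap kap_injective aut_six N φ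
  have hkap : ∀ p : H, p ∈ kap.range ↔ qm δ p = 1 := by
    intro p
    rw [mem_range_kap, qm_eq_one]
    constructor
    · rintro ⟨P, Q, h1, h2, h3, h4⟩
      obtain ⟨h5, h6⟩ := h_unique p h3
      exact ⟨h5, by rw [h6]; exact h2⟩
    · rintro ⟨h1, h2⟩
      refine ⟨hP p, hQ p, h_cmp p, h2, fun i => ?_, fun s => ?_⟩
      · rw [h_zero, h1]
      · rw [h_one, h1]
        rfl
  have hclN : ∀ (e : E) (m : N) j, qm δ (T (e * m) j) = qm δ (T e j) := by
    intro e m j
    have h1 : ((m : E) : E ⧸ N) = 1 := (QuotientGroup.eq_one_iff (m : E)).mpr m.2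
    rw [hT1, h1, map_one, Perm.one_apply, map_mul, hTm, (hkap _).mp ⟨φ m j, rfl⟩, mul_one]
  have hcl : ∀ e e' : E, (e : E ⧸ N) = (e' : E ⧸ N) → ∀ j, qm δ (T e j) = qm δ (T e' j) := by
    intro e e' h j
    have h1 : e'⁻¹ * e ∈ N := QuotientGroup.eq.1 h.symm
    have h2 := hclN e' ⟨_, h1⟩ j
    rw [← h2]
    simp
  obtain ⟨cl, hcl'⟩ : ∃ cl : E ⧸ N → Fin k → Multiplicative (ZMod 2 × ZMod 2),
      ∀ (e : E) j, qm δ (T e j) = cl (e : E ⧸ N) j :=
    ⟨fun g j => qm δ (T (Quotient.out g) j), fun e j =>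
      hcl e _ (Quotient.out_eq' (e : E ⧸ N)).symm j⟩
  have hclmul : ∀ (g h : E ⧸ N) j, cl (g * h) j = cl g (act h j) * cl h j := by
    intro g h j
    obtain ⟨g, rfl⟩ := QuotientGroup.mk_surjective g
    obtain ⟨h, rfl⟩ := QuotientGroup.mk_surjective h
    have h1 := congrArg (qm δ) (hT1 g h j)
    rw [map_mul, hcl', hcl', hcl'] at h1
    exact h1
  obtain ⟨bit, hbit⟩ : ∃ bit : (M ≃ₐ[K] M) → Fin k → ZMod 2,
      ∀ g j, bit g j = (Multiplicative.toAdd (cl (i g) j)).1 := ⟨_, fun _ _ => rfl⟩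
  obtain ⟨sw, hsw⟩ : ∃ sw : (M ≃ₐ[K] M) → Fin k → ZMod 2,
      ∀ g j, sw g j = (Multiplicative.toAdd (cl (i g) j)).2 := ⟨_, fun _ _ => rfl⟩
  have hbitmul : ∀ g h j, bit (g * h) j = bit g (act (i h) j) + bit h j := by
    intro g h j
    rw [hbit, hbit, hbit, map_mul, hclmul, toAdd_mul, Prod.fst_add]
  have hswmul : ∀ g h j, sw (g * h) j = sw g (act (i h) j) + sw h j := by
    intro g h j
    rw [hsw, hsw, hsw, map_mul, hclmul, toAdd_mul, Prod.snd_add]
  have hsw1 : ∀ j, sw 1 j = 0 := by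
    intro j
    have h1 := hswmul 1 1 j
    rw [mul_one, map_one, map_one, Perm.one_apply] at h1
    exact left_eq_add.mp h1
  let act2 : (M ≃ₐ[K] M) →* Perm (Fin k × ZMod 2) := MonoidHom.toHomPerm
    { toFun := fun g x => (act (i g) x.1, x.2 + sw g x.1)
      map_one' := by
        funext x
        change (act (i 1) x.1, x.2 + sw 1 x.1) = x
        rw [map_one, map_one, hsw1, add_zero]
        rfl
      map_mul' := fun g h => by
        funext x
        change (act (i (g * h)) x.1, x.2 + sw (g * h) x.1) =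
          (act (i g) (act (i h) x.1), x.2 + sw h x.1 + sw g (act (i h) x.1))
        rw [map_mul, map_mul, hswmul, Perm.mul_apply, add_assoc, add_comm (sw h x.1)] }
  have hact2 : ∀ g j c, act2 g (j, c) = (act (i g) j, c + sw g j) := fun g j c => rfl
  let ix : Fin k × ZMod 2 ≃ Fin (k * 2) := (finProdFinEquiv : Fin k × Fin 2 ≃ Fin (k * 2))
  let act3 : (M ≃ₐ[K] M) →* Perm (Fin (k * 2)) := ix.permCongrHom.toMonoidHom.comp act2
  have hact3 : ∀ g x, act3 g (ix x) = ix (act2 g x) := by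
    intro g x
    change ix (act2 g (ix.symm (ix x))) = _
    rw [Equiv.symm_apply_apply]
  obtain ⟨Nf, _, _, _, ι, e, h1, h2, h3, h4, h5, h6', h7'⟩ :=
    Pool.Agent.Lib.MP_7f581e_ntA.exists_twisted_field (K := K) (M := M) act3
      (fun γ x => bit γ (ix.symm x).1) (by
        intro γ γ' x
        obtain ⟨⟨j, c⟩, rfl⟩ := ix.surjective x
        rw [hact3, Equiv.symm_apply_apply, Equiv.symm_apply_apply, hact2]
        exact hbitmul γ γ' j)
  refine core (F := FractionRing (MvPolynomial (Fin (k * 2)) K)) (N := Nf) δ hδ ι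
    (act.comp i.toMonoidHom) bit sw (e ∘ ix) h7' h3 ?_ (h5.comp ix ix.injective) ?_
    (i.symm.toMonoidHom.comp (QuotientGroup.mk' N)) T ?_ ?_ ?_
  · intro g j c
    rw [Function.comp_apply, h4, hact3, hact2, Equiv.symm_apply_apply]
    rfl
  · rw [ix.surjective.range_comp]
    exact h6'
  · intro e e' j
    rw [hT1]
    congr 2
    change act (e' : E ⧸ N) j = act (i (i.symm (e' : E ⧸ N))) j
    rw [MulEquiv.apply_symm_apply]
  · intro e j
    have h8 : i ((i.symm.toMonoidHom.comp (QuotientGroup.mk' N)) e) = (e : E ⧸ N) :=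
      i.apply_symm_apply _
    rw [hcl', hbit, hsw, h8]
    rfl
  · intro γ τ hτ
    obtain ⟨e, he⟩ := QuotientGroup.mk_surjective (i γ)
    obtain ⟨e', ⟨he1, he2⟩, he3⟩ := hT3 e τ (by
      intro j
      rw [hkap, map_mul, map_inv, hτ j, hcl', he, hbit, hsw]
      exact inv_mul_cancel _)
    refine ⟨e', ⟨?_, he2⟩, fun e'' he'' => he3 e'' ⟨?_, he''.2⟩⟩
    · change i.symm (e' : E ⧸ N) = γ
      rw [he1, he, MulEquiv.symm_apply_apply]
    · have h7 : i.symm (e'' : E ⧸ N) = γ := he''.1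
      rw [he, ← h7, MulEquiv.apply_symm_apply]

end MP7fX
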