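import Mathlib

/-!
Kernels which are powers of `A_6` in characteristic two: the combinatorics of the six totals,
twin sextics `X^6 + a X^2 + X + b` and `X^6 + b X^2 + X + a`, and the group `Aut(A_6)` as a group
of permutations of the twelve points and totals.
-/

set_option autoImplicit false

namespace MP7fX

open Equiv Polynomial

/-- `mt s t i` is the partner of the point `i` in the syntheme common to the totals `s ≠ t`
(and `mt s s i = i`). The numbering of the six totals is chosen such that points and totals play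
symmetric roles: `mt s t i = j ↔ mt i j s = t`. -/
def mt : Fin 6 → Fin 6 → Fin 6 → Fin 6 :=
  ![![![0, 1, 2, 3, 4, 5],
     ![1, 0, 3, 2, 5, 4],
     ![2, 4, 0, 5, 1, 3],
     ![3, 5, 4, 0, 2, 1],
     ![4, 3, 5, 1, 0, 2],
     ![5, 2, 1, 4, 3, 0]],
    ![![1, 0, 3, 2, 5, 4],
     ![0, 1, 2, 3, 4, 5],
     ![5, 3, 4, 1, 2, 0],
     ![4, 2, 1, 5, 0, 3],
     ![2, 5, 0, 4, 3, 1],
     ![3, 4, 5, 0, 1, 2]],
    ![![2, 4, 0, 5, 1, 3],
     ![5, 3, 4, 1, 2, 0],
     ![0, 1, 2, 3, 4, 5],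
     ![1, 0, 5, 4, 3, 2],
     ![3, 2, 1, 0, 5, 4],
     ![4, 5, 3, 2, 0, 1]],
    ![![3, 5, 4, 0, 2, 1],
     ![4, 2, 1, 5, 0, 3],
     ![1, 0, 5, 4, 3, 2],
     ![0, 1, 2, 3, 4, 5],
     ![5, 4, 3, 2, 1, 0],
     ![2, 3, 0, 1, 5, 4]],
    ![![4, 3, 5, 1, 0, 2],
     ![2, 5, 0, 4, 3, 1],
     ![3, 2, 1, 0, 5, 4],
     ![5, 4, 3, 2, 1, 0],
     ![0, 1, 2, 3, 4, 5],
     ![1, 0, 4, 5, 2, 3]],
    ![![5, 2, 1, 4, 3, 0],
     ![3, 4, 5, 0, 1, 2],
     ![4, 5, 3, 2, 0, 1],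
     ![2, 3, 0, 1, 5, 4],
     ![1, 0, 4, 5, 2, 3],
     ![0, 1, 2, 3, 4, 5]]]

theorem mt_dual : ∀ s t i j : Fin 6, mt s t i = j ↔ mt i j s = t := by decide

theorem mt_symm : ∀ s t i : Fin 6, mt s t i = mt t s i := by decide

theorem mt_mt : ∀ s t i : Fin 6, mt s t (mt s t i) = i := by decide

theorem mt_self : ∀ s i : Fin 6, mt s s i = i := by decide

theorem mt_ne : ∀ s t i : Fin 6, s ≠ t → mt s t i ≠ i := by decide

/-- The permutation `Q` of the totals is the one induced by the permutation `P` of the points. -/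
def Cmp (P Q : Perm (Fin 6)) : Prop := ∀ s t i, P (mt s t i) = mt (Q s) (Q t) (P i)

instance (P Q : Perm (Fin 6)) : Decidable (Cmp P Q) := by unfold Cmp; infer_instance

theorem Cmp.one : Cmp 1 1 := fun _ _ _ => rfl

theorem Cmp.mul {P Q P' Q' : Perm (Fin 6)} (h : Cmp P Q) (h' : Cmp P' Q') :
    Cmp (P * P') (Q * Q') := fun s t i => by
  simp only [Perm.mul_apply]
  rw [h' s t i, h (Q' s) (Q' t) (P' i)]

theorem pai (P : Perm (Fin 6)) (x : Fin 6) : P (P⁻¹ x) = x := P.apply_symm_apply x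

theorem Cmp.inv {P Q : Perm (Fin 6)} (h : Cmp P Q) : Cmp P⁻¹ Q⁻¹ := fun s t i => by
  rw [Perm.inv_eq_iff_eq, h, pai, pai, pai]

theorem Cmp.symm {P Q : Perm (Fin 6)} (h : Cmp P Q) : Cmp Q P := fun i j s => by
  obtain ⟨t, ht⟩ : ∃ t, mt i j s = t := ⟨_, rfl⟩
  rw [ht]
  symm
  rw [← mt_dual]
  rw [← mt_dual] at ht
  rw [← h, ht]

/-- The group `Aut(A_6) = Aut(S_6)` as a group of permutations of the six points `(0, i)` and the
six totals `(1, s)`. -/
def H : Subgroup (Perm (ZMod 2 × Fin 6)) where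
  carrier := {p | ∃ (b : ZMod 2) (P Q : Perm (Fin 6)), Cmp P Q ∧ (∀ i, p (0, i) = (b, P i)) ∧
    ∀ s, p (1, s) = (b + 1, Q s)}
  one_mem' := ⟨0, 1, 1, Cmp.one, fun _ => rfl, fun _ => rfl⟩
  mul_mem' := by
    have key : ∀ b : ZMod 2, b = 0 ∨ b = 1 := by decide
    rintro p p' ⟨b, P, Q, h, h0, h1⟩ ⟨b', P', Q', h', h0', h1'⟩
    rcases key b' with rfl | rfl
    · refine ⟨b, P * P', Q * Q', h.mul h', fun i => ?_, fun s => ?_⟩
      · rw [Perm.mul_apply, h0', h0]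
        rfl
      · rw [Perm.mul_apply, h1', zero_add, h1]
        rfl
    · refine ⟨b + 1, Q * P', P * Q', h.symm.mul h', fun i => ?_, fun s => ?_⟩
      · rw [Perm.mul_apply, h0', h1]
        rfl
      · have e1 : (1 + 1 : ZMod 2) = 0 := by decide
        have e2 : b + 1 + 1 = b := by rw [add_assoc, e1, add_zero]
        rw [Perm.mul_apply, h1', e1, h0, e2]
        rfl
  inv_mem' := by
    have key : ∀ b : ZMod 2, b = 0 ∨ b = 1 := by decide
    rintro p ⟨b, P, Q, h, h0, h1⟩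
    rcases key b with rfl | rfl
    · refine ⟨0, P⁻¹, Q⁻¹, h.inv, fun i => ?_, fun s => ?_⟩
      · rw [Perm.inv_eq_iff_eq, h0, pai]
      · rw [Perm.inv_eq_iff_eq, zero_add, h1, pai]
        rfl
    · refine ⟨1, Q⁻¹, P⁻¹, h.symm.inv, fun i => ?_, fun s => ?_⟩
      · rw [Perm.inv_eq_iff_eq, h1, pai]
        rfl
      · rw [Perm.inv_eq_iff_eq]
        change _ = p (0, _)
        rw [h0, pai]

section ring

variable {L : Type*} [Field L]

/-- The `y i` are the roots of `X^6 + a X^2 + X + b`. -/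
def IsRoots (a b : L) (y : Fin 6 → L) : Prop :=
  X ^ 6 + C a * X ^ 2 + X + C b = ∏ i, (X - C (y i))

/-- Twins: the roots `y i` of `X^6 + a X^2 + X + b` and the roots `z s` of
`X^6 + b X^2 + X + a`, matched with the points and the totals. -/
def Twin (a b : L) (y z : Fin 6 → L) : Prop :=
  IsRoots a b y ∧ IsRoots b a z ∧ ∀ s t, (z s + z t) ^ 4 = ∏ i, (y i + y (mt s t i))

/-- The sign element. -/
noncomputable def ss (y : Fin 6 → L) : L :=
  ∑ i : Fin 6, ∑ j ∈ Finset.Ioi i, y i / (y i + y j)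

end ring

end MP7fX
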