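import Pool.Agent.Lib.MP_7f581e_ntX.Defs

/-!
Permutation groups of degree six: the outer automorphism of `S_6` and a criterion for a subgroup
of `S_6` to contain `A_6`.
-/

set_option autoImplicit false

namespace MP7fX

open Equiv

/-- The permutation of the totals induced by the transposition of the points `i` and `j`. -/
def sq (i j : Fin 6) : Perm (Fin 6) := ⟨mt i j, mt i j, mt_mt i j, mt_mt i j⟩

theorem cmp_swap : ∀ i j : Fin 6, Cmp (swap i j) (sq i j) := by
  decide +kernel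

theorem sign_sq : ∀ i j : Fin 6, i ≠ j → Perm.sign (sq i j) = -1 := by
  decide +kernel

theorem exists_cmp (P : Perm (Fin 6)) : ∃ Q, Cmp P Q := by
  induction P using Perm.swap_induction_on with
  | one => exact ⟨1, Cmp.one⟩
  | swap_mul f x y _ ih =>
    obtain ⟨Q, hQ⟩ := ih
    exact ⟨sq x y * Q, (cmp_swap x y).mul hQ⟩

theorem mt_pair : ∀ s t u v : Fin 6, s ≠ t → (∀ i, mt s t i = mt u v i) → u = s ∨ u = t := by
  decide +kernel

theorem exists_two : ∀ s : Fin 6, ∃ t t' : Fin 6, s ≠ t ∧ s ≠ t' ∧ t ≠ t' := by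
  decide +kernel

theorem Cmp.eq_one {R : Perm (Fin 6)} (h : Cmp 1 R) : R = 1 := by
  ext1 s
  obtain ⟨t, t', h1, h2, h3⟩ := exists_two s
  have e1 := mt_pair s t (R s) (R t) h1 fun i => by
    have := h s t i
    simpa using this
  have e2 := mt_pair s t' (R s) (R t') h2 fun i => by
    have := h s t' i
    simpa using this
  rw [Perm.one_apply]
  rcases e1 with e1 | e1
  · exact e1
  · rcases e2 with e2 | e2
    · exact e2
    · exact absurd (e1.symm.trans e2) h3

theorem Cmp.unique {P Q Q' : Perm (Fin 6)} (h : Cmp P Q) (h' : Cmp P Q') : Q = Q' := by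
  have h1 : Cmp (P⁻¹ * P) (Q⁻¹ * Q') := h.inv.mul h'
  rw [inv_mul_cancel] at h1
  have h2 := h1.eq_one
  rw [inv_mul_eq_one] at h2
  exact h2

theorem Cmp.pow {P Q : Perm (Fin 6)} (h : Cmp P Q) (n : ℕ) : Cmp (P ^ n) (Q ^ n) := by
  induction n with
  | zero => exact Cmp.one
  | succ n ih => rw [pow_succ, pow_succ]; exact ih.mul h

theorem Cmp.sign {P Q : Perm (Fin 6)} (h : Cmp P Q) : Perm.sign Q = Perm.sign P := by
  induction P using Perm.swap_induction_on generalizing Q with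
  | one => rw [h.eq_one]
  | swap_mul f x y hxy ih =>
    obtain ⟨Q', hQ'⟩ := exists_cmp f
    rw [h.unique ((cmp_swap x y).mul hQ'), map_mul, map_mul, ih hQ', sign_sq x y hxy,
      Perm.sign_swap hxy]

/-- A representative of the class of the products of two 3-cycles. -/
def c33 : Perm (Fin 6) := swap 0 1 * swap 1 2 * (swap 3 4 * swap 4 5)

/-- The permutation of the totals induced by `c33`. -/
def d33 : Perm (Fin 6) := sq 0 1 * sq 1 2 * (sq 3 4 * sq 4 5)

theorem cmp_c33 : Cmp c33 d33 := ((cmp_swap 0 1).mul (cmp_swap 1 2)).mul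
  ((cmp_swap 3 4).mul (cmp_swap 4 5))

theorem d33_isThreeCycle : d33.IsThreeCycle := by
  rw [← card_support_eq_three_iff]
  decide +kernel

theorem cycleType_of_pow_three {P : Perm (Fin 6)} (h3 : P ^ 3 = 1) :
    ∃ n, P.cycleType = Multiset.replicate n 3 ∧ 3 * n = P.support.card := by
  have : Fact (Nat.Prime 3) := ⟨Nat.prime_three⟩
  rw [Perm.pow_prime_eq_one_iff] at h3
  have h := Multiset.eq_replicate_card.2 h3
  refine ⟨_, h, ?_⟩
  rw [← Perm.sum_cycleType, h]
  simp [mul_comm]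

theorem c33_pow : c33 ^ 3 = 1 := by
  decide +kernel

theorem c33_card : c33.support.card = 6 := by
  decide +kernel

theorem isThreeCycle_or_conj_c33 {P : Perm (Fin 6)} (h3 : P ^ 3 = 1) (h1 : P ≠ 1) :
    P.IsThreeCycle ∨ IsConj c33 P := by
  obtain ⟨n, hn, hc⟩ := cycleType_of_pow_three h3
  obtain ⟨m, hm, hc'⟩ := cycleType_of_pow_three c33_pow
  rw [c33_card] at hc'
  have hle : P.support.card ≤ 6 := (Finset.card_le_univ _).trans (by simp)
  have hn2 : n ≤ 2 := by omega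
  have hm2 : m = 2 := by omega
  subst hm2
  interval_cases n
  · exact absurd (Perm.cycleType_eq_zero.1 (by simpa using hn)) h1
  · left
    simpa [Perm.IsThreeCycle] using hn
  · right
    rw [Perm.isConj_iff_cycleType_eq, hn, hm]

theorem Cmp.three {P Q : Perm (Fin 6)} (h : Cmp P Q) (h3 : P ^ 3 = 1) (h1 : P ≠ 1) :
    P.IsThreeCycle ∨ Q.IsThreeCycle := by
  rcases isThreeCycle_or_conj_c33 h3 h1 with h | h'
  · exact Or.inl h
  · right
    obtain ⟨g, hg⟩ := isConj_iff.1 h'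
    obtain ⟨g', hg'⟩ := exists_cmp g
    have h2 := (hg'.mul cmp_c33).mul hg'.inv
    rw [hg] at h2
    rw [h.unique h2]
    unfold Perm.IsThreeCycle
    rw [Perm.cycleType_conj]
    exact d33_isThreeCycle

theorem isMultiplyPretransitive_two {G : Subgroup (Perm (Fin 6))}
    (h1 : ∀ i j, ∃ g ∈ G, g i = j) (x : Fin 6)
    (h2 : ∀ i j, i ≠ x → j ≠ x → ∃ g ∈ G, g x = x ∧ g i = j) :
    MulAction.IsMultiplyPretransitive G (Fin 6) 2 := by
  rw [MulAction.is_two_pretransitive_iff]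
  intro a b c d hab hcd
  obtain ⟨g, hg, ga⟩ := h1 a x
  obtain ⟨g', hg', gc⟩ := h1 c x
  obtain ⟨h, hh, hx, hi⟩ := h2 (g b) (g' d) (fun e => hab (g.injective (ga.trans e.symm)))
    (fun e => hcd (g'.injective (gc.trans e.symm)))
  refine ⟨⟨g'⁻¹ * h * g, mul_mem (mul_mem (inv_mem hg') hh) hg⟩, ?_, ?_⟩
  · change (g'⁻¹ * h * g) a = c
    rw [Perm.mul_apply, Perm.mul_apply, ga, hx, ← gc]
    exact g'.symm_apply_apply c
  · change (g'⁻¹ * h * g) b = d
    rw [Perm.mul_apply, Perm.mul_apply, hi]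
    exact g'.symm_apply_apply d

theorem thirty_dvd_card {G : Subgroup (Perm (Fin 6))}
    (h : MulAction.IsMultiplyPretransitive G (Fin 6) 2) : 30 ∣ Nat.card G := by
  have e : Fin 2 ↪ Fin 6 := ⟨Fin.castLE (by norm_num), Fin.castLE_injective _⟩
  have h1 := @MulAction.index_stabilizer_of_transitive G (Fin 2 ↪ Fin 6) _ _ e h
  have h2 : Nat.card (Fin 2 ↪ Fin 6) = 30 := by
    rw [Nat.card_eq_fintype_card, Fintype.card_embedding_eq]
    rfl
  rw [h2] at h1
  rw [← h1]
  exact Subgroup.index_dvd_card _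

/-- The group of permutations of the totals induced by a group of permutations of the points. -/
def dual (G : Subgroup (Perm (Fin 6))) : Subgroup (Perm (Fin 6)) where
  carrier := {Q | ∃ P ∈ G, Cmp P Q}
  one_mem' := ⟨1, G.one_mem, Cmp.one⟩
  mul_mem' := by
    rintro Q Q' ⟨P, hP, h⟩ ⟨P', hP', h'⟩
    exact ⟨P * P', G.mul_mem hP hP', h.mul h'⟩
  inv_mem' := by
    rintro Q ⟨P, hP, h⟩
    exact ⟨P⁻¹, G.inv_mem hP, h.inv⟩

theorem alt_le_of_three {G : Subgroup (Perm (Fin 6))} (h1 : ∀ i j, ∃ g ∈ G, g i = j) (x : Fin 6)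
    (h2 : ∀ i j, i ≠ x → j ≠ x → ∃ g ∈ G, g x = x ∧ g i = j) {g : Perm (Fin 6)} (hg : g ∈ G)
    (h3 : g.IsThreeCycle) : alternatingGroup (Fin 6) ≤ G :=
  Perm.alternatingGroup_le_of_isPreprimitive_of_isThreeCycle_mem
    (MulAction.isPreprimitive_of_is_two_pretransitive (isMultiplyPretransitive_two h1 x h2)) h3 hg

theorem exists_fixed_of_five {Q : Perm (Fin 6)} (h5 : Q ^ 5 = 1) (h1 : Q ≠ 1) :
    ∃ x, Q x = x ∧ ∀ i j, i ≠ x → j ≠ x → ∃ n : ℤ, (Q ^ n) i = j := by
  have : Fact (Nat.Prime 5) := ⟨Nat.prime_five⟩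
  rw [Perm.pow_prime_eq_one_iff] at h5
  have h := Multiset.eq_replicate_card.2 h5
  have hs := Perm.sum_cycleType Q
  rw [h] at hs
  simp only [Multiset.sum_replicate, smul_eq_mul] at hs
  have hle : Q.support.card ≤ 6 := (Finset.card_le_univ _).trans (by simp)
  have h0 : Q.cycleType.card ≠ 0 := fun h0 => h1 (Perm.cycleType_eq_zero.1
    (Multiset.card_eq_zero.1 h0))
  have hc1 : Q.cycleType.card = 1 := by omega
  have hcyc : Q.IsCycle := Perm.card_cycleType_eq_one.1 hc1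
  have hcard : Q.support.card = 5 := by omega
  have hcompl : Q.supportᶜ.card = 1 := by
    rw [Finset.card_compl, hcard]
    simp
  obtain ⟨x, hx⟩ := Finset.card_eq_one.1 hcompl
  have hmem : ∀ i, i ≠ x → Q i ≠ i := fun i hi h => by
    have : i ∈ Q.supportᶜ := by
      rw [Finset.mem_compl, Perm.mem_support, not_not]
      exact h
    rw [hx, Finset.mem_singleton] at this
    exact hi this
  refine ⟨x, ?_, fun i j hi hj => hcyc.exists_zpow_eq (hmem i hi) (hmem j hj)⟩
  have : x ∈ Q.supportᶜ := by rw [hx]; exact Finset.mem_singleton_self x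
  rwa [Finset.mem_compl, Perm.mem_support, not_not] at this

theorem alt_le (G : Subgroup (Perm (Fin 6))) (h1 : ∀ i j, ∃ g ∈ G, g i = j)
    (h2 : ∀ i j, i ≠ 0 → j ≠ 0 → ∃ g ∈ G, g 0 = 0 ∧ g i = j)
    (h3 : ∀ s t, ∃ g ∈ G, ∃ Q, Cmp g Q ∧ Q s = t) : alternatingGroup (Fin 6) ≤ G := by
  have hdvd := thirty_dvd_card (isMultiplyPretransitive_two h1 0 h2)
  have f3 : Fact (Nat.Prime 3) := ⟨Nat.prime_three⟩
  have f5 : Fact (Nat.Prime 5) := ⟨Nat.prime_five⟩
  obtain ⟨g, hg⟩ := exists_prime_orderOf_dvd_card' (G := G) 3 (dvd_trans (by norm_num) hdvd)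
  obtain ⟨k, hk⟩ := exists_prime_orderOf_dvd_card' (G := G) 5 (dvd_trans (by norm_num) hdvd)
  have hg3 : (g : Perm (Fin 6)) ^ 3 = 1 := by
    have := pow_orderOf_eq_one g
    rw [hg] at this
    exact_mod_cast congrArg Subtype.val this
  have hg1 : (g : Perm (Fin 6)) ≠ 1 := fun e => by
    have : g = 1 := Subtype.ext e
    rw [this, orderOf_one] at hg
    omega
  have hk5 : (k : Perm (Fin 6)) ^ 5 = 1 := by
    have := pow_orderOf_eq_one k
    rw [hk] at this
    exact_mod_cast congrArg Subtype.val this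
  have hk1 : (k : Perm (Fin 6)) ≠ 1 := fun e => by
    have : k = 1 := Subtype.ext e
    rw [this, orderOf_one] at hk
    omega
  obtain ⟨Q, hQ⟩ := exists_cmp g
  rcases hQ.three hg3 hg1 with h | h
  · exact alt_le_of_three h1 0 h2 g.2 h
  · obtain ⟨R, hR⟩ := exists_cmp k
    have hR5 : R ^ 5 = 1 := by
      have := hR.pow 5
      rw [hk5] at this
      exact this.eq_one
    have hR1 : R ≠ 1 := fun e => by
      rw [e] at hR
      exact hk1 hR.symm.eq_one
    obtain ⟨x, hx, hx'⟩ := exists_fixed_of_five hR5 hR1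
    have hRx : ∀ n : ℤ, (R ^ n) x = x := fun n => Perm.zpow_apply_eq_self_of_apply_eq_self hx n
    have hmemR : R ∈ dual G := ⟨k, k.2, hR⟩
    have hle : alternatingGroup (Fin 6) ≤ dual G := by
      refine alt_le_of_three (fun s t => ?_) x (fun i j hi hj => ?_) (g := Q) ⟨g, g.2, hQ⟩ h
      · obtain ⟨g, hg, Q, hQ, e⟩ := h3 s t
        exact ⟨Q, ⟨g, hg, hQ⟩, e⟩
      · obtain ⟨n, hn⟩ := hx' i j hi hj
        exact ⟨R ^ n, zpow_mem hmemR n, hRx n, hn⟩
    intro P hP
    obtain ⟨Q, hQ⟩ := exists_cmp P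
    have hQ' : Q ∈ alternatingGroup (Fin 6) := by
      rw [Perm.mem_alternatingGroup, hQ.sign]
      exact hP
    obtain ⟨P', hP', h'⟩ := hle hQ'
    rw [hQ.symm.unique h'.symm]
    exact hP'

end MP7fX
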