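import Pool.Agent.Lib.MP_7f581e_ntX.Twin
import Pool.Agent.Lib.MP_7f581e_ntX.Grp

/-!
The Galois group of `X ^ 6 + a X ^ 2 + X + b` over a field `A(a, b)` of rational functions
contains `A_6`.
-/

set_option autoImplicit false

universe u

namespace MP7fX

open Equiv Polynomial

section lin

variable {K : Type*} [Field K]

theorem lin_irr (P Q : K[X]) (hQ : Q ≠ 0) (hc : IsCoprime P Q) :
    Irreducible (P.map (C : K →+* K[X]) + C X * Q.map (C : K →+* K[X]) : K[X][X]) := by
  have h : Bivariate.swap (C Q * X + C P : K[X][X]) =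
      P.map (C : K →+* K[X]) + C X * Q.map (C : K →+* K[X]) := by
    rw [map_add, map_mul, Bivariate.swap_C, Bivariate.swap_C, Bivariate.swap_Y]
    ring
  rw [← h]
  exact (MulEquiv.irreducible_iff (Bivariate.swap (R := K))).mpr
    (irreducible_C_mul_X_add_C hQ hc.symm.isRelPrime)

theorem lin_irr' (P Q : K[X]) (hQ : Q ≠ 0) (hc : IsCoprime P Q)
    (hd : (P.map (C : K →+* K[X]) + C X * Q.map (C : K →+* K[X])).natDegree ≠ 0) :
    Irreducible ((P.map (C : K →+* K[X]) + C X * Q.map (C : K →+* K[X])).map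
      (algebraMap K[X] (RatFunc K))) := by
  have h1 := lin_irr P Q hQ hc
  exact ((h1.isPrimitive hd).irreducible_iff_irreducible_map_fraction_map
    (K := RatFunc K)).mp h1

variable {A L : Type*} [Field A] [Field L] [Algebra A L]

/-- Roots of a polynomial which is linear in a transcendental parameter are conjugate. -/
theorem exists_aut {s t : L} (K : IntermediateField A L) (hK : K = IntermediateField.adjoin A {s})
    (ht : Transcendental K t)
    (T : IntermediateField A L) (hT : T = IntermediateField.adjoin A {s, t}) [Normal T L]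
    (P Q : K[X]) (hQ : Q ≠ 0) (hc : IsCoprime P Q)
    (hd : (P.map (C : K →+* K[X]) + C X * Q.map C).natDegree ≠ 0)
    (u u' : L) (hu : aeval u P + t * aeval u Q = 0) (hu' : aeval u' P + t * aeval u' Q = 0) :
    ∃ σ : L ≃ₐ[T] L, σ u = u' := by
  have hinj : Function.Injective (aeval t : K[X] →ₐ[K] L) := transcendental_iff_injective.mp ht
  let φ : RatFunc K →+* L := IsFractionRing.lift (A := K[X]) (K := RatFunc K)
    (g := (aeval t : K[X] →ₐ[K] L).toRingHom) hinj
  have hφ : ∀ p : K[X], φ (algebraMap K[X] (RatFunc K) p) = aeval t p := fun p =>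
    IsFractionRing.lift_algebraMap _ p
  have hsT : s ∈ T := by rw [hT]; exact IntermediateField.subset_adjoin _ _ (by simp)
  have htT : t ∈ T := by rw [hT]; exact IntermediateField.subset_adjoin _ _ (by simp)
  have hsK : s ∈ K := by rw [hK]; exact IntermediateField.subset_adjoin _ _ rfl
  have hKT : K ≤ T := by
    rw [hK, IntermediateField.adjoin_le_iff]
    rintro x rfl
    exact hsT
  have hmemT : ∀ p : K[X], aeval t p ∈ T := by
    intro p
    induction p using Polynomial.induction_on' with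
    | add p q hp hq => rw [map_add]; exact add_mem hp hq
    | monomial n c =>
      rw [aeval_monomial]
      exact mul_mem (hKT c.2) (pow_mem htT _)
  have hφT : ∀ k, φ k ∈ T := by
    intro k
    induction k using RatFunc.induction_on with
    | _ p q hq =>
      rw [map_div₀, hφ, hφ]
      exact div_mem (hmemT p) (hmemT q)
  let R : IntermediateField A L := φ.fieldRange.toIntermediateField (fun x => by
    refine ⟨algebraMap K[X] (RatFunc K) (C (algebraMap A K x)), ?_⟩
    rw [hφ, aeval_C]
    rfl)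
  have hTR : T ≤ R := by
    rw [hT, IntermediateField.adjoin_le_iff]
    rintro x (rfl | rfl)
    · exact ⟨algebraMap K[X] (RatFunc K) (C ⟨x, hsK⟩), by rw [hφ, aeval_C]; rfl⟩
    · exact ⟨algebraMap K[X] (RatFunc K) X, by rw [hφ, aeval_X]⟩
  let e : RatFunc K ≃+* T := RingEquiv.ofBijective (φ.codRestrict T hφT)
    ⟨fun _ _ h => φ.injective (congrArg Subtype.val h), fun x => by
      obtain ⟨k, hk⟩ := hTR x.2
      exact ⟨k, Subtype.ext hk⟩⟩
  set G := (P.map (C : K →+* K[X]) + C X * Q.map C).map (algebraMap K[X] (RatFunc K)) with hG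
  have hirr : Irreducible (G.map (e : RatFunc K →+* T)) :=
    (MulEquiv.irreducible_iff (mapEquiv e)).mpr (lin_irr' P Q hQ hc hd)
  have key : ∀ w : L, aeval w P + t * aeval w Q = 0 →
      aeval w (G.map (e : RatFunc K →+* T)) = 0 := by
    intro w hw
    rw [← eval_map_algebraMap, Polynomial.map_map]
    have hcomp : (algebraMap T L).comp (e : RatFunc K →+* T) = φ := by
      ext k
      rfl
    have hcomp2 : φ.comp (algebraMap K[X] (RatFunc K)) = (aeval t : K[X] →ₐ[K] L).toRingHom := by
      ext1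
      · ext c
        exact hφ _
      · exact hφ _
    have hcomp3 : ((aeval t : K[X] →ₐ[K] L).toRingHom).comp (C : K →+* K[X]) =
        algebraMap K L := by
      ext c
      change aeval t (C c) = _
      rw [aeval_C]
    rw [hcomp, hG, Polynomial.map_map, hcomp2, Polynomial.map_add, Polynomial.map_mul,
      Polynomial.map_map, Polynomial.map_map, hcomp3, map_C, eval_add, eval_mul, eval_C,
      eval_map_algebraMap, eval_map_algebraMap]
    have h4 : (aeval t : K[X] →ₐ[K] L).toRingHom X = t := aeval_X t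
    rw [h4, hw]
  have h1 : minpoly T u = minpoly T u' := by
    have e1 := minpoly.eq_of_irreducible hirr (key u hu)
    have e2 := minpoly.eq_of_irreducible hirr (key u' hu')
    rw [← e1, ← e2]
  obtain ⟨σ, hσ⟩ := (Normal.minpoly_eq_iff_mem_orbit L).mp h1.symm
  exact ⟨σ, hσ⟩

end lin

section six

variable {A L : Type*} [Field A] [Field L] [Algebra A L]

theorem root_eq {a b : L} {y : Fin 6 → L} (h : IsRoots a b y) (i : Fin 6) :
    y i ^ 6 + a * y i ^ 2 + y i + b = 0 := by
  have h1 := congrArg (eval (y i)) h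
  simp only [eval_add, eval_pow, eval_X, eval_mul, eval_C, eval_prod] at h1
  rw [h1]
  exact Finset.prod_eq_zero (Finset.mem_univ i) (by simp)

theorem eq_root {a b : L} {y : Fin 6 → L} (h : IsRoots a b y) {x : L}
    (hx : x ^ 6 + a * x ^ 2 + x + b = 0) : ∃ i, y i = x := by
  have h1 := congrArg (eval x) h
  simp only [eval_add, eval_pow, eval_X, eval_mul, eval_C, eval_prod] at h1
  rw [hx] at h1
  obtain ⟨i, -, hi⟩ := Finset.prod_eq_zero_iff.mp h1.symm
  refine ⟨i, ?_⟩
  simp only [eval_sub, eval_X, eval_C] at hi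
  exact (sub_eq_zero.mp hi).symm

theorem normal_of {a b : L} {y : Fin 6 → L} (h : IsRoots a b y)
    (hgen : IntermediateField.adjoin A ({a, b} ∪ Set.range y) = ⊤)
    (T : IntermediateField A L) (ha : a ∈ T) (hb : b ∈ T) : Normal T L := by
  set f : T[X] := X ^ 6 + C ⟨a, ha⟩ * X ^ 2 + X + C ⟨b, hb⟩ with hf
  have hmap : f.map (algebraMap T L) = ∏ i, (X - C (y i)) := by
    rw [← h, hf]
    simp only [Polynomial.map_add, Polynomial.map_mul, Polynomial.map_pow, map_X, map_C]
    rfl
  have hf0 : f ≠ 0 := by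
    intro h0
    have h1 := congrArg (fun p : T[X] => p.coeff 6) h0
    simp [hf, coeff_X] at h1
  have hroot : f.rootSet L = Set.range y := by
    ext x
    rw [mem_rootSet, ← eval_map_algebraMap, hmap, eval_prod, Finset.prod_eq_zero_iff]
    constructor
    · rintro ⟨-, i, -, hi⟩
      rw [eval_sub, eval_X, eval_C, sub_eq_zero] at hi
      exact ⟨i, hi.symm⟩
    · rintro ⟨i, rfl⟩
      exact ⟨hf0, i, Finset.mem_univ i, by simp⟩
  have hsp : f.IsSplittingField T L := by
    rw [isSplittingField_iff_intermediateField]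
    refine ⟨by rw [hmap]; exact Splits.prod fun i _ => Splits.X_sub_C _, ?_⟩
    rw [hroot, eq_top_iff]
    have h1 : (⊤ : IntermediateField A L) ≤
        (IntermediateField.adjoin T (Set.range y)).restrictScalars A := by
      rw [← hgen, IntermediateField.adjoin_le_iff]
      have hT : ∀ x ∈ T, x ∈ IntermediateField.adjoin T (Set.range y) := fun x hx =>
        (IntermediateField.adjoin T (Set.range y)).algebraMap_mem ⟨x, hx⟩
      rintro x ((rfl | rfl) | hx) <;> rw [SetLike.mem_coe, IntermediateField.mem_restrictScalars]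
      · exact hT _ ha
      · exact hT _ hb
      · exact IntermediateField.subset_adjoin _ _ hx
    intro x _
    have h2 : x ∈ (IntermediateField.adjoin T (Set.range y)).restrictScalars A :=
      h1 IntermediateField.mem_top
    rwa [IntermediateField.mem_restrictScalars] at h2
  exact Normal.of_isSplittingField f

theorem normal_of_two {a b : L} {y z : Fin 6 → L} (h : IsRoots a b y) (h' : IsRoots b a z)
    (hgen : IntermediateField.adjoin A ({a, b} ∪ (Set.range y ∪ Set.range z)) = ⊤)
    (T : IntermediateField A L) (ha : a ∈ T) (hb : b ∈ T) : Normal T L := by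
  set f : T[X] := (X ^ 6 + C ⟨a, ha⟩ * X ^ 2 + X + C ⟨b, hb⟩) *
    (X ^ 6 + C ⟨b, hb⟩ * X ^ 2 + X + C ⟨a, ha⟩) with hf
  have hmap : f.map (algebraMap T L) = (∏ i, (X - C (y i))) * ∏ i, (X - C (z i)) := by
    rw [← h, ← h', hf]
    simp only [Polynomial.map_add, Polynomial.map_mul, Polynomial.map_pow, map_X, map_C]
    rfl
  have hf0 : f ≠ 0 := by
    have h1 : f.map (algebraMap T L) ≠ 0 := by
      rw [hmap]
      exact mul_ne_zero (Finset.prod_ne_zero_iff.mpr fun i _ => X_sub_C_ne_zero _)
        (Finset.prod_ne_zero_iff.mpr fun i _ => X_sub_C_ne_zero _)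
    rintro h0
    rw [h0, Polynomial.map_zero] at h1
    exact h1 rfl
  have hroot : f.rootSet L = Set.range y ∪ Set.range z := by
    ext x
    rw [mem_rootSet, ← eval_map_algebraMap, hmap, eval_mul, eval_prod, eval_prod, mul_eq_zero,
      Finset.prod_eq_zero_iff, Finset.prod_eq_zero_iff]
    constructor
    · rintro ⟨-, ⟨i, -, hi⟩ | ⟨i, -, hi⟩⟩
      · rw [eval_sub, eval_X, eval_C, sub_eq_zero] at hi
        exact Or.inl ⟨i, hi.symm⟩
      · rw [eval_sub, eval_X, eval_C, sub_eq_zero] at hi
        exact Or.inr ⟨i, hi.symm⟩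
    · rintro (⟨i, rfl⟩ | ⟨i, rfl⟩)
      · exact ⟨hf0, Or.inl ⟨i, Finset.mem_univ i, by simp⟩⟩
      · exact ⟨hf0, Or.inr ⟨i, Finset.mem_univ i, by simp⟩⟩
  have hsp : f.IsSplittingField T L := by
    rw [isSplittingField_iff_intermediateField]
    refine ⟨by
      rw [hmap]
      exact (Splits.prod fun i _ => Splits.X_sub_C _).mul
        (Splits.prod fun i _ => Splits.X_sub_C _), ?_⟩
    rw [hroot, eq_top_iff]
    have h1 : (⊤ : IntermediateField A L) ≤
        (IntermediateField.adjoin T (Set.range y ∪ Set.range z)).restrictScalars A := by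
      rw [← hgen, IntermediateField.adjoin_le_iff]
      have hT : ∀ x ∈ T, x ∈ IntermediateField.adjoin T (Set.range y ∪ Set.range z) :=
        fun x hx =>
        (IntermediateField.adjoin T (Set.range y ∪ Set.range z)).algebraMap_mem ⟨x, hx⟩
      rintro x ((rfl | rfl) | hx) <;> rw [SetLike.mem_coe, IntermediateField.mem_restrictScalars]
      · exact hT _ ha
      · exact hT _ hb
      · exact IntermediateField.subset_adjoin _ _ hx
    intro x _
    have h2 : x ∈ (IntermediateField.adjoin T (Set.range y ∪ Set.range z)).restrictScalars A :=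
      h1 IntermediateField.mem_top
    rwa [IntermediateField.mem_restrictScalars] at h2
  exact Normal.of_isSplittingField f

theorem transc_pair {s t : L} (hab : AlgebraicIndependent A ![s, t]) :
    Transcendental (IntermediateField.adjoin A {s}) t := by
  rw [IntermediateField.transcendental_adjoin_iff]
  have h := hab.transcendental_adjoin (s := {0}) (i := 1) (by simp)
  rw [Set.image_singleton] at h
  exact h

theorem fin_two_eq : ∀ j : Fin 2, j ≠ 1 → j = 0 := by decide

theorem swap_pair {s t : L} (hab : AlgebraicIndependent A ![s, t]) :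
    AlgebraicIndependent A ![t, s] := by
  have h := hab.comp (Equiv.swap (0 : Fin 2) 1) (Equiv.injective _)
  have e : ![s, t] ∘ (Equiv.swap (0 : Fin 2) 1) = ![t, s] := by
    ext i
    fin_cases i <;> rfl
  rwa [e] at h

/-- Exchange. -/
theorem transc_root {a b y : L} (hab : AlgebraicIndependent A ![a, b])
    (hy : y ^ 6 + a * y ^ 2 + y + b = 0) : Transcendental (IntermediateField.adjoin A {y}) a := by
  have h1 : Transcendental (Algebra.adjoin A {a}) y := by
    intro halg
    have h2 := transc_pair hab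
    rw [IntermediateField.transcendental_adjoin_iff] at h2
    apply h2
    have h3 : b = -(y ^ 6 + a * y ^ 2 + y) := by linear_combination hy
    have ha : IsAlgebraic (Algebra.adjoin A {a}) a :=
      isAlgebraic_algebraMap (⟨a, Algebra.subset_adjoin rfl⟩ : Algebra.adjoin A {a})
    rw [h3]
    exact (((halg.pow 6).add (ha.mul (halg.pow 2))).add halg).neg
  have h2 : AlgebraicIndependent A ![a, y] := by
    rw [AlgebraicIndependent.iff_transcendental_adjoin_image 1]
    constructor
    · have h3 : AlgebraicIndependent A (fun j : {j : Fin 2 // j ≠ 1} => ![a, b] j) :=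
        hab.comp _ Subtype.val_injective
      convert h3 using 1
      ext ⟨j, hj⟩
      obtain rfl := fin_two_eq j hj
      rfl
    · have e : (![a, y] : Fin 2 → L) '' {1}ᶜ = {a} := by
        ext x
        constructor
        · rintro ⟨j, hj, rfl⟩
          obtain rfl := fin_two_eq j hj
          rfl
        · rintro rfl
          exact ⟨0, by simp, rfl⟩
      rw [e]
      exact h1
  exact transc_pair (swap_pair h2)

theorem conj_roots {a b : L} (hab : AlgebraicIndependent A ![a, b])
    [Normal (IntermediateField.adjoin A {a, b}) L] {u u' : L}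
    (hu : u ^ 6 + a * u ^ 2 + u + b = 0) (hu' : u' ^ 6 + a * u' ^ 2 + u' + b = 0) :
    ∃ τ : L ≃ₐ[A] L, τ a = a ∧ τ b = b ∧ τ u = u' := by
  obtain ⟨K, hK⟩ : ∃ K : IntermediateField A L, K = IntermediateField.adjoin A {a} := ⟨_, rfl⟩
  have haK : a ∈ K := by rw [hK]; exact IntermediateField.subset_adjoin _ _ rfl
  have ht : Transcendental K b := by rw [hK]; exact transc_pair hab
  obtain ⟨σ, hσ⟩ := exists_aut K hK ht (IntermediateField.adjoin A {a, b}) rfl
    (X ^ 6 + C ⟨a, haK⟩ * X ^ 2 + X) 1 one_ne_zero isCoprime_one_right (by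
      intro h
      have h1 := coeff_eq_zero_of_natDegree_lt (n := 6) (by rw [h]; norm_num)
      simp [coeff_X] at h1) u u' (by
      simp only [map_add, map_mul, map_pow, aeval_X, aeval_C, map_one, mul_one]
      exact hu) (by
      simp only [map_add, map_mul, map_pow, aeval_X, aeval_C, map_one, mul_one]
      exact hu')
  exact ⟨σ.restrictScalars A,
    σ.commutes ⟨a, IntermediateField.subset_adjoin _ _ (by simp)⟩,
    σ.commutes ⟨b, IntermediateField.subset_adjoin _ _ (by simp)⟩, hσ⟩

theorem quintic [CharP L 2] {a b y w : L} (hy : y ^ 6 + a * y ^ 2 + y + b = 0)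
    (hw : w ^ 6 + a * w ^ 2 + w + b = 0) (hne : w ≠ y) :
    (w + y) ^ 5 + y ^ 2 * (w + y) ^ 3 + y ^ 4 * (w + y) + 1 + a * (w + y) = 0 := by
  have two0 : (2 : L) = 0 := CharTwo.two_eq_zero
  have h0 : w + y ≠ 0 := by
    intro h
    apply hne
    linear_combination h - y * two0
  have h1 : (w + y) * ((w + y) ^ 5 + y ^ 2 * (w + y) ^ 3 + y ^ 4 * (w + y) + 1 + a * (w + y)) =
      0 := by
    linear_combination hw + hy + (3 * w ^ 5 * y + 8 * w ^ 4 * y ^ 2 + 12 * w ^ 3 * y ^ 3 +
      11 * w ^ 2 * y ^ 4 + 6 * w * y ^ 5 + y ^ 6 + a * w * y - b) * two0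
  exact (mul_eq_zero.mp h1).resolve_left h0

theorem conj_two [CharP L 2] {a b y : L} (hab : AlgebraicIndependent A ![a, b])
    [Normal (IntermediateField.adjoin A {y, a}) L] (hy : y ^ 6 + a * y ^ 2 + y + b = 0)
    {w w' : L} (hw : w ^ 6 + a * w ^ 2 + w + b = 0) (hw' : w' ^ 6 + a * w' ^ 2 + w' + b = 0)
    (hne : w ≠ y) (hne' : w' ≠ y) :
    ∃ τ : L ≃ₐ[A] L, τ a = a ∧ τ b = b ∧ τ y = y ∧ τ w = w' := by
  obtain ⟨K, hK⟩ : ∃ K : IntermediateField A L, K = IntermediateField.adjoin A {y} := ⟨_, rfl⟩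
  have hyK : y ∈ K := by rw [hK]; exact IntermediateField.subset_adjoin _ _ rfl
  have ht : Transcendental K a := by rw [hK]; exact transc_root hab hy
  have hc : IsCoprime (X ^ 5 + C (⟨y, hyK⟩ ^ 2) * X ^ 3 + C (⟨y, hyK⟩ ^ 4) * X + 1 : K[X]) X :=
    ⟨1, -(X ^ 4 + C (⟨y, hyK⟩ ^ 2) * X ^ 2 + C (⟨y, hyK⟩ ^ 4)), by ring⟩
  obtain ⟨σ, hσ⟩ := exists_aut K hK ht (IntermediateField.adjoin A {y, a}) rfl _ X X_ne_zero hc (by
      intro h
      have h1 := coeff_eq_zero_of_natDegree_lt (n := 5) (by rw [h]; norm_num)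
      simp [coeff_one] at h1) (w + y) (w' + y) (by
      simp only [map_add, map_mul, map_pow, aeval_X, aeval_C, map_one]
      exact quintic hy hw hne) (by
      simp only [map_add, map_mul, map_pow, aeval_X, aeval_C, map_one]
      exact quintic hy hw' hne')
  have h1 : σ a = a := σ.commutes ⟨a, IntermediateField.subset_adjoin _ _ (by simp)⟩
  have h2 : σ y = y := σ.commutes ⟨y, IntermediateField.subset_adjoin _ _ (by simp)⟩
  refine ⟨σ.restrictScalars A, h1, ?_, h2, ?_⟩
  · change σ b = b
    have h3 : b = -(y ^ 6 + a * y ^ 2 + y) := by linear_combination hy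
    rw [h3]
    simp only [map_neg, map_add, map_mul, map_pow, h1, h2]
  · change σ w = w'
    rw [map_add, h2] at hσ
    exact add_right_cancel hσ

theorem gal_six_aux [CharP L 2] {a b : L} {y z : Fin 6 → L}
    (hab : AlgebraicIndependent A ![a, b]) (h : Twin a b y z)
    (hnorm : ∀ T : IntermediateField A L, a ∈ T → b ∈ T → Normal T L)
    (hyinj : Function.Injective y) (hzinj : Function.Injective z)
    (H1 : ∀ y', IsRoots a b y' → ∃ P : Perm (Fin 6), y' = y ∘ P)
    (H2 : ∀ (P Q : Perm (Fin 6)) (z' : Fin 6 → L), Cmp P Q → Twin a b (y ∘ P) z' → z' = z ∘ Q)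
    (H3 : ∀ P : Perm (Fin 6), ∃ Q, Cmp P Q)
    (H4 : ∀ G : Subgroup (Perm (Fin 6)), (∀ i j, ∃ g ∈ G, g i = j) →
      (∀ i j, i ≠ 0 → j ≠ 0 → ∃ g ∈ G, g 0 = 0 ∧ g i = j) →
      (∀ s t, ∃ g ∈ G, ∃ Q, Cmp g Q ∧ Q s = t) → alternatingGroup (Fin 6) ≤ G)
    (P : Perm (Fin 6)) (hP : Perm.sign P = 1) :
    ∃ τ : L ≃ₐ[A] L, τ a = a ∧ τ b = b ∧ ∀ i, τ (y i) = y (P i) := by
  have hy := h.1
  have hz := h.2.1
  have ha' : a ∈ IntermediateField.adjoin A {a, b} :=
    IntermediateField.subset_adjoin _ _ (by simp)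
  have hb' : b ∈ IntermediateField.adjoin A {a, b} :=
    IntermediateField.subset_adjoin _ _ (by simp)
  have hn1 : Normal (IntermediateField.adjoin A {a, b}) L := hnorm _ ha' hb'
  have hn2 : Normal (IntermediateField.adjoin A {b, a}) L := by
    rw [Set.pair_comm]; exact hn1
  have ha2 : a ∈ IntermediateField.adjoin A {y 0, a} :=
    IntermediateField.subset_adjoin _ _ (by simp)
  have hy2 : y 0 ∈ IntermediateField.adjoin A {y 0, a} :=
    IntermediateField.subset_adjoin _ _ (by simp)
  have hb2 : b ∈ IntermediateField.adjoin A {y 0, a} := by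
    have h3 : b = -(y 0 ^ 6 + a * y 0 ^ 2 + y 0) := by linear_combination root_eq hy 0
    rw [h3]
    exact neg_mem (add_mem (add_mem (pow_mem hy2 _) (mul_mem ha2 (pow_mem hy2 _))) hy2)
  have hn3 : Normal (IntermediateField.adjoin A {y 0, a}) L := hnorm _ ha2 hb2
  -- automorphisms permute the roots
  have hperm : ∀ τ : L ≃ₐ[A] L, τ a = a → τ b = b → ∃ P : Perm (Fin 6), τ ∘ y = y ∘ P := by
    intro τ h1 h2
    apply H1
    have h3 := congrArg (Polynomial.map (τ : L →+* L)) hy
    unfold IsRoots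
    rw [Polynomial.map_prod] at h3
    simp only [Polynomial.map_add, Polynomial.map_mul, Polynomial.map_pow, map_X, map_C,
      Polynomial.map_sub, RingHom.coe_coe, h1, h2] at h3
    exact h3
  let G : Subgroup (Perm (Fin 6)) :=
    { carrier := {P | ∃ τ : L ≃ₐ[A] L, τ a = a ∧ τ b = b ∧ ∀ i, τ (y i) = y (P i)}
      one_mem' := ⟨1, rfl, rfl, fun _ => rfl⟩
      mul_mem' := by
        rintro P P' ⟨τ, h1, h2, h3⟩ ⟨τ', h1', h2', h3'⟩
        refine ⟨τ * τ', ?_, ?_, fun i => ?_⟩
        · rw [AlgEquiv.mul_apply, h1', h1]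
        · rw [AlgEquiv.mul_apply, h2', h2]
        · rw [AlgEquiv.mul_apply, h3', h3]; rfl
      inv_mem' := by
        rintro P ⟨τ, h1, h2, h3⟩
        refine ⟨τ.symm, ?_, ?_, fun i => ?_⟩
        · rw [AlgEquiv.symm_apply_eq, h1]
        · rw [AlgEquiv.symm_apply_eq, h2]
        · rw [AlgEquiv.symm_apply_eq, h3, pai] }
  refine H4 G ?_ ?_ ?_ (Equiv.Perm.mem_alternatingGroup.mpr hP)
  · intro i j
    obtain ⟨τ, h1, h2, h3⟩ := conj_roots hab (root_eq hy i) (root_eq hy j)
    obtain ⟨P, hP⟩ := hperm τ h1 h2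
    have hP' : ∀ k, τ (y k) = y (P k) := fun k => congrFun hP k
    exact ⟨P, ⟨τ, h1, h2, hP'⟩, hyinj (by rw [← hP', h3])⟩
  · intro i j hi hj
    obtain ⟨τ, h1, h2, h4, h3⟩ := conj_two hab (root_eq hy 0) (root_eq hy i) (root_eq hy j)
      (fun h => hi (hyinj h)) (fun h => hj (hyinj h))
    obtain ⟨P, hP⟩ := hperm τ h1 h2
    have hP' : ∀ k, τ (y k) = y (P k) := fun k => congrFun hP k
    exact ⟨P, ⟨τ, h1, h2, hP'⟩, hyinj (by rw [← hP', h4]), hyinj (by rw [← hP', h3])⟩
  · intro s t
    obtain ⟨τ, h2, h1, h3⟩ := conj_roots (swap_pair hab) (root_eq hz s) (root_eq hz t)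
    obtain ⟨P, hP⟩ := hperm τ h1 h2
    have hP' : ∀ k, τ (y k) = y (P k) := fun k => congrFun hP k
    obtain ⟨Q, hQ⟩ := H3 P
    refine ⟨P, ⟨τ, h1, h2, hP'⟩, Q, hQ, ?_⟩
    have h4 : Twin a b (y ∘ P) (τ ∘ z) := by
      rw [← hP]
      refine ⟨?_, ?_, fun s t => ?_⟩
      · have h3 := congrArg (Polynomial.map (τ : L →+* L)) hy
        unfold IsRoots
        rw [Polynomial.map_prod] at h3
        simp only [Polynomial.map_add, Polynomial.map_mul, Polynomial.map_pow, map_X, map_C,
          Polynomial.map_sub, RingHom.coe_coe, h1, h2] at h3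
        exact h3
      · have h3 := congrArg (Polynomial.map (τ : L →+* L)) hz
        unfold IsRoots
        rw [Polynomial.map_prod] at h3
        simp only [Polynomial.map_add, Polynomial.map_mul, Polynomial.map_pow, map_X, map_C,
          Polynomial.map_sub, RingHom.coe_coe, h1, h2] at h3
        exact h3
      · have h5 := congrArg τ (h.2.2 s t)
        simp only [map_pow, map_add, map_prod] at h5
        exact h5
    have h5 := congrFun (H2 P Q _ hQ h4) s
    have h6 : z t = z (Q s) := by rw [← h3]; exact h5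
    exact (hzinj h6).symm

end six

/-- The Galois group of `X ^ 6 + a X ^ 2 + X + b` over `A(a, b)` contains `A_6`. -/
theorem gal_six {A L : Type u} [Field A] [Field L] [Algebra A L] [CharP L 2] {a b : L}
    {y z : Fin 6 → L} (hab : AlgebraicIndependent A ![a, b]) (h : Twin a b y z)
    (hgen : IntermediateField.adjoin A ({a, b} ∪ Set.range y) = ⊤) (P : Perm (Fin 6))
    (hP : Perm.sign P = 1) :
    ∃ τ : L ≃ₐ[A] L, τ a = a ∧ τ b = b ∧ ∀ i, τ (y i) = y (P i) :=
  gal_six_aux hab h (normal_of h.1 hgen) h.1.injective h.2.1.injective (fun _ h' => isRoots_unique h.1 h')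
    (fun _ _ _ hc h' => Twin.unique h' (h.comp hc)) exists_cmp alt_le P hP

/-- The same, the field generated by the roots of both twins. -/
theorem gal_six' {A L : Type u} [Field A] [Field L] [Algebra A L] [CharP L 2] {a b : L}
    {y z : Fin 6 → L} (hab : AlgebraicIndependent A ![a, b]) (h : Twin a b y z)
    (hgen : IntermediateField.adjoin A ({a, b} ∪ (Set.range y ∪ Set.range z)) = ⊤)
    (P : Perm (Fin 6)) (hP : Perm.sign P = 1) :
    ∃ τ : L ≃ₐ[A] L, τ a = a ∧ τ b = b ∧ ∀ i, τ (y i) = y (P i) :=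
  gal_six_aux hab h (normal_of_two h.1 h.2.1 hgen) h.1.injective h.2.1.injective
    (fun _ h' => isRoots_unique h.1 h')
    (fun _ _ _ hc h' => Twin.unique h' (h.comp hc)) exists_cmp alt_le P hP

end MP7fX
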