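import Mathlib

/-!
Twin sextics, part 1: polynomial identities in characteristic two between the elementary symmetric
functions of five elements `p, q, r, s, t = p + q + r + s` with third elementary symmetric function
zero and those of the five products `p (q + r) (s + t)`, ... (the five synthemes of a total).
-/

set_option autoImplicit false
namespace MP7fX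
open Equiv Polynomial
section five
variable {L : Type*} [CommRing L]
def tF1 (v w x y z : L) : L := v + w + x + y + z
def tF2 (v w x y z : L) : L := v * w + v * x + v * y + v * z + w * x + w * y + w * z + x * y + x * z + y * z
def tF3 (v w x y z : L) : L := v * w * x + v * w * y + v * w * z + v * x * y + v * x * z + v * y * z + w * x * y + w * x * z + w * y * z + x * y * z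
def tF4 (v w x y z : L) : L := v * w * x * y + v * w * x * z + v * w * y * z + v * x * y * z + w * x * y * z
def tF5 (v w x y z : L) : L := v * w * x * y * z
end five
section ids
variable {L : Type*} [Field L] [CharP L 2]
theorem tw_two0 : (2 : L) = 0 := by exact_mod_cast CharP.cast_eq_zero L 2

theorem tw_e1d (p q r s : L) : tF1 (p * (q + r) * (s + (p + q + r + s))) (q * (p + s) * (r + (p + q + r + s))) (r * (p + (p + q + r + s)) * (q + s)) (s * (p + r) * (q + (p + q + r + s))) ((p + q + r + s) * (p + q) * (r + s)) = 0 := by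
  unfold tF1
  linear_combination (p^2*q + p^2*r + p^2*s + p*q^2 + 4*p*q*r + 4*p*q*s + p*r^2 + 4*p*r*s + p*s^2 + q^2*r + q^2*s + q*r^2 + 4*q*r*s + q*s^2 + r^2*s + r*s^2) * tw_two0 (L := L)

theorem tw_e3d (p q r s : L) (h : tF3 p q r s (p + q + r + s) = 0) : tF3 (p * (q + r) * (s + (p + q + r + s))) (q * (p + s) * (r + (p + q + r + s))) (r * (p + (p + q + r + s)) * (q + s)) (s * (p + r) * (q + (p + q + r + s))) ((p + q + r + s) * (p + q) * (r + s)) = 0 := by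
  unfold tF3 at h ⊢
  linear_combination (p^4*q*r + p^4*r*s + p^3*q^2*r + p^3*q*r^2 + p^3*r^2*s + p^3*r*s^2 + p^2*q^3*s + p^2*q*r^3 + p^2*q*r^2*s + p^2*q*r*s^2 + p^2*q*s^3 + p^2*r*s^3 + p*q^4*s + p*q^3*s^2 + p*q^2*r^3 + p*q^2*r^2*s + p*q^2*r*s^2 + p*q^2*s^3 + p*q*r^4 + p*q*s^4 + p*r^2*s^3 + p*r*s^4 + q^4*r*s + q^3*r^2*s + q^3*r*s^2 + q^2*r^3*s + q*r^4*s + q*r^3*s^2) * h + (p^6*q^2*s + p^6*q*r*s + p^6*q*s^2 + 2*p^5*q^3*r + 4*p^5*q^3*s + 4*p^5*q^2*r^2 + 18*p^5*q^2*r*s + 10*p^5*q^2*s^2 + 2*p^5*q*r^3 + 15*p^5*q*r^2*s + 18*p^5*q*r*s^2 + 4*p^5*q*s^3 + 2*p^5*r^3*s + 4*p^5*r^2*s^2 + 2*p^5*r*s^3 + 5*p^4*q^4*r + 5*p^4*q^4*s + 19*p^4*q^3*r^2 + 54*p^4*q^3*r*s + 24*p^4*q^3*s^2 + 18*p^4*q^2*r^3 + 101*p^4*q^2*r^2*s +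 110*p^4*q^2*r*s^2 + 24*p^4*q^2*s^3 + 4*p^4*q*r^4 + 50*p^4*q*r^3*s + 101*p^4*q*r^2*s^2 + 53*p^4*q*r*s^3 + 5*p^4*q*s^4 + 5*p^4*r^4*s + 19*p^4*r^3*s^2 + 18*p^4*r^2*s^3 + 4*p^4*r*s^4 + 4*p^3*q^5*r + 2*p^3*q^5*s + 24*p^3*q^4*r^2 + 54*p^3*q^4*r*s + 19*p^3*q^4*s^2 + 38*p^3*q^3*r^3 + 182*p^3*q^3*r^2*s + 182*p^3*q^3*r*s^2 + 38*p^3*q^3*s^3 + 18*p^3*q^2*r^4 + 176*p^3*q^2*r^3*s + 333*p^3*q^2*r^2*s^2 + 180*p^3*q^2*r*s^3 + 19*p^3*q^2*s^4 + 2*p^3*q*r^5 + 53*p^3*q*r^4*s + 180*p^3*q*r^3*s^2 + 176*p^3*q*r^2*s^3 + 50*p^3*q*r*s^4 + 2*p^3*q*s^5 + 4*p^3*r^5*s + 24*p^3*r^4*s^2 + 38*p^3*r^3*s^3 + 18*p^3*r^2*s^4 + 2*p^3*r*s^5 + p^2*q^6*r + 10*p^2*q^5*r^2 + 18*p^2*q^5*r*s + 4*p^2*q^5*s^2 + 24*p^2*q^4*r^3 + 110*p^2*q^4*r^2*s + 101*p^2*q^4*r*s^2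 + 18*p^2*q^4*s^3 + 19*p^2*q^3*r^4 + 180*p^2*q^3*r^3*s + 333*p^2*q^3*r^2*s^2 + 176*p^2*q^3*r*s^3 + 18*p^2*q^3*s^4 + 4*p^2*q^2*r^5 + 101*p^2*q^2*r^4*s + 333*p^2*q^2*r^3*s^2 + 333*p^2*q^2*r^2*s^3 + 101*p^2*q^2*r*s^4 + 4*p^2*q^2*s^5 + 18*p^2*q*r^5*s + 110*p^2*q*r^4*s^2 + 182*p^2*q*r^3*s^3 + 101*p^2*q*r^2*s^4 + 15*p^2*q*r*s^5 + p^2*r^6*s + 10*p^2*r^5*s^2 + 24*p^2*r^4*s^3 + 19*p^2*r^3*s^4 + 4*p^2*r^2*s^5 + p*q^6*r^2 + p*q^6*r*s + 4*p*q^5*r^3 + 18*p*q^5*r^2*s + 15*p*q^5*r*s^2 + 2*p*q^5*s^3 + 5*p*q^4*r^4 + 53*p*q^4*r^3*s + 101*p*q^4*r^2*s^2 + 50*p*q^4*r*s^3 + 4*p*q^4*s^4 + 2*p*q^3*r^5 + 50*p*q^3*r^4*s + 176*p*q^3*r^3*s^2 + 180*p*q^3*r^2*s^3 + 53*p*q^3*r*s^4 + 2*p*q^3*s^5 + 15*p*q^2*r^5*s + 101*p*q^2*r^4*s^2 +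 182*p*q^2*r^3*s^3 + 110*p*q^2*r^2*s^4 + 18*p*q^2*r*s^5 + p*q*r^6*s + 18*p*q*r^5*s^2 + 54*p*q*r^4*s^3 + 54*p*q*r^3*s^4 + 18*p*q*r^2*s^5 + p*q*r*s^6 + p*r^6*s^2 + 4*p*r^5*s^3 + 5*p*r^4*s^4 + 2*p*r^3*s^5 + 2*q^5*r^3*s + 4*q^5*r^2*s^2 + 2*q^5*r*s^3 + 4*q^4*r^4*s + 18*q^4*r^3*s^2 + 19*q^4*r^2*s^3 + 5*q^4*r*s^4 + 2*q^3*r^5*s + 18*q^3*r^4*s^2 + 38*q^3*r^3*s^3 + 24*q^3*r^2*s^4 + 4*q^3*r*s^5 + 4*q^2*r^5*s^2 + 19*q^2*r^4*s^3 + 24*q^2*r^3*s^4 + 10*q^2*r^2*s^5 + q^2*r*s^6 + 2*q*r^5*s^3 + 5*q*r^4*s^4 + 4*q*r^3*s^5 + q*r^2*s^6) * tw_two0 (L := L)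

theorem tw_e4d (p q r s : L) (h : tF3 p q r s (p + q + r + s) = 0) :
    tF4 (p * (q + r) * (s + (p + q + r + s))) (q * (p + s) * (r + (p + q + r + s))) (r * (p + (p + q + r + s)) * (q + s)) (s * (p + r) * (q + (p + q + r + s))) ((p + q + r + s) * (p + q) * (r + s)) = tF2 (p * (q + r) * (s + (p + q + r + s))) (q * (p + s) * (r + (p + q + r + s))) (r * (p + (p + q + r + s)) * (q + s)) (s * (p + r) * (q + (p + q + r + s))) ((p + q + r + s) * (p + q) * (r + s)) ^ 2 + tF2 p q r s (p + q + r + s) ^ 2 * tF4 p q r s (p + q + r + s) ^ 2 + tF2 p q r s (p + q + r + s) * tF5 p q r s (p + q + r + s) ^ 2 := by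
  unfold tF4 tF2 tF5
  unfold tF3 at h
  linear_combination (p^6*q^3 + p^6*q^2*r + p^6*q^2*s + p^6*q*r^2 + p^6*q*r*s + p^6*q*s^2 + p^6*r^3 + p^6*r^2*s + p^6*r*s^2 + p^6*s^3 + p^5*q^4 + p^5*q^2*r*s + p^5*q*r^2*s + p^5*q*r*s^2 + p^5*r^4 + p^5*s^4 + p^4*q^5 + p^4*q^3*r^2 + p^4*q^3*r*s + p^4*q^3*s^2 + p^4*q^2*r^3 + p^4*q^2*r^2*s + p^4*q^2*r*s^2 + p^4*q^2*s^3 + p^4*q*r^3*s + p^4*q*r^2*s^2 + p^4*q*r*s^3 + p^4*r^5 + p^4*r^3*s^2 + p^4*r^2*s^3 + p^4*s^5 + p^3*q^6 + p^3*q^4*r^2 + p^3*q^4*r*s + p^3*q^4*s^2 + p^3*q^3*r^2*s + p^3*q^3*r*s^2 + p^3*q^2*r^4 + p^3*q^2*r^3*s + p^3*q^2*r*s^3 + p^3*q^2*s^4 + p^3*q*r^4*s + p^3*q*r^3*s^2 + p^3*q*r^2*s^3 + p^3*q*r*s^4 + p^3*r^6 + p^3*r^4*s^2 + p^3*r^2*s^4 + p^3*s^6 + p^2*q^6*r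 + p^2*q^6*s + p^2*q^5*r*s + p^2*q^4*r^3 + p^2*q^4*r^2*s + p^2*q^4*r*s^2 + p^2*q^4*s^3 + p^2*q^3*r^4 + p^2*q^3*r^3*s + p^2*q^3*r*s^3 + p^2*q^3*s^4 + p^2*q^2*r^4*s + p^2*q^2*r*s^4 + p^2*q*r^6 + p^2*q*r^5*s + p^2*q*r^4*s^2 + p^2*q*r^3*s^3 + p^2*q*r^2*s^4 + p^2*q*r*s^5 + p^2*q*s^6 + p^2*r^6*s + p^2*r^4*s^3 + p^2*r^3*s^4 + p^2*r*s^6 + p*q^6*r^2 + p*q^6*r*s + p*q^6*s^2 + p*q^5*r^2*s + p*q^5*r*s^2 + p*q^4*r^3*s + p*q^4*r^2*s^2 + p*q^4*r*s^3 + p*q^3*r^4*s + p*q^3*r^3*s^2 + p*q^3*r^2*s^3 + p*q^3*r*s^4 + p*q^2*r^6 + p*q^2*r^5*s + p*q^2*r^4*s^2 + p*q^2*r^3*s^3 + p*q^2*r^2*s^4 + p*q^2*r*s^5 + p*q^2*s^6 + p*q*r^6*s + p*q*r^5*s^2 + p*q*r^4*s^3 + p*q*r^3*s^4 + p*q*r^2*s^5 + p*q*r*s^6 + p*r^6*s^2 + p*r^2*s^6 + q^6*r^3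 + q^6*r^2*s + q^6*r*s^2 + q^6*s^3 + q^5*r^4 + q^5*s^4 + q^4*r^5 + q^4*r^3*s^2 + q^4*r^2*s^3 + q^4*s^5 + q^3*r^6 + q^3*r^4*s^2 + q^3*r^2*s^4 + q^3*s^6 + q^2*r^6*s + q^2*r^4*s^3 + q^2*r^3*s^4 + q^2*r*s^6 + q*r^6*s^2 + q*r^2*s^6 + r^6*s^3 + r^5*s^4 + r^4*s^5 + r^3*s^6) * h + (-p^8*q^4 - 4*p^8*q^3*r - 5*p^8*q^3*s - 7*p^8*q^2*r^2 - 17*p^8*q^2*r*s - 10*p^8*q^2*s^2 - 4*p^8*q*r^3 - 15*p^8*q*r^2*s - 17*p^8*q*r*s^2 - 5*p^8*q*s^3 - p^8*r^4 - 4*p^8*r^3*s - 7*p^8*r^2*s^2 - 4*p^8*r*s^3 - p^8*s^4 - 3*p^7*q^5 - 24*p^7*q^4*r - 27*p^7*q^4*s - 68*p^7*q^3*r^2 - 164*p^7*q^3*r*s - 86*p^7*q^3*s^2 - 68*p^7*q^2*r^3 - 275*p^7*q^2*r^2*s - 303*p^7*q^2*r*s^2 - 86*p^7*q^2*s^3 - 24*p^7*q*r^4 - 148*p^7*q*r^3*s - 275*p^7*q*r^2*s^2 - 164*p^7*q*r*s^3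 - 27*p^7*q*s^4 - 3*p^7*r^5 - 24*p^7*r^4*s - 68*p^7*r^3*s^2 - 68*p^7*r^2*s^3 - 24*p^7*r*s^4 - 3*p^7*s^5 - 4*p^6*q^6 - 52*p^6*q^5*r - 54*p^6*q^5*s - 235*p^6*q^4*r^2 - 532*p^6*q^4*r*s - 262*p^6*q^4*s^2 - 380*p^6*q^3*r^3 - 1472*p^6*q^3*r^2*s - 1556*p^6*q^3*r*s^2 - 438*p^6*q^3*s^3 - 232*p^6*q^2*r^4 - 1436*p^6*q^2*r^3*s - 2583*p^6*q^2*r^2*s^2 - 1552*p^6*q^2*r*s^3 - 262*p^6*q^2*s^4 - 51*p^6*q*r^5 - 501*p^6*q*r^4*s - 1438*p^6*q*r^3*s^2 - 1466*p^6*q*r^2*s^3 - 527*p^6*q*r*s^4 - 54*p^6*q*s^5 - 4*p^6*r^6 - 52*p^6*r^5*s - 235*p^6*r^4*s^2 - 380*p^6*r^3*s^3 - 232*p^6*r^2*s^4 - 51*p^6*r*s^5 - 4*p^6*s^6 - 3*p^5*q^7 - 54*p^5*q^6*r - 52*p^5*q^6*s - 362*p^5*q^5*r^2 - 774*p^5*q^5*r*s - 362*p^5*q^5*s^2 - 884*p^5*q^4*r^3 - 3280*p^5*q^4*r^2*s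 - 3338*p^5*q^4*r*s^2 - 925*p^5*q^4*s^3 - 869*p^5*q^3*r^4 - 5115*p^5*q^3*r^3*s - 8890*p^5*q^3*r^2*s^2 - 5311*p^5*q^3*r*s^3 - 925*p^5*q^3*s^4 - 344*p^5*q^2*r^5 - 3192*p^5*q^2*r^4*s - 8738*p^5*q^2*r^3*s^2 - 8852*p^5*q^2*r^2*s^3 - 3307*p^5*q^2*r*s^4 - 362*p^5*q^2*s^5 - 51*p^5*q*r^6 - 752*p^5*q*r^5*s - 3221*p^5*q*r^4*s^2 - 5103*p^5*q*r^3*s^3 - 3220*p^5*q*r^2*s^4 - 752*p^5*q*r*s^5 - 52*p^5*q*s^6 - 3*p^5*r^7 - 54*p^5*r^6*s - 362*p^5*r^5*s^2 - 884*p^5*r^4*s^3 - 869*p^5*r^3*s^4 - 344*p^5*r^2*s^5 - 51*p^5*r*s^6 - 3*p^5*s^7 - p^4*q^8 - 27*p^4*q^7*r - 24*p^4*q^7*s - 262*p^4*q^6*r^2 - 532*p^4*q^6*r*s - 235*p^4*q^6*s^2 - 925*p^4*q^5*r^3 - 3338*p^4*q^5*r^2*s - 3280*p^4*q^5*r*s^2 - 884*p^4*q^5*s^3 - 1358*p^4*q^4*r^4 -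 7800*p^4*q^4*r^3*s - 13250*p^4*q^4*r^2*s^2 - 7800*p^4*q^4*r*s^3 - 1358*p^4*q^4*s^4 - 869*p^4*q^3*r^5 - 7680*p^4*q^3*r^4*s - 20467*p^4*q^3*r^3*s^2 - 20553*p^4*q^3*r^2*s^3 - 7769*p^4*q^3*r*s^4 - 884*p^4*q^3*s^5 - 232*p^4*q^2*r^6 - 3220*p^4*q^2*r^5*s - 13090*p^4*q^2*r^4*s^2 - 20429*p^4*q^2*r^3*s^3 - 13090*p^4*q^2*r^2*s^4 - 3221*p^4*q^2*r*s^5 - 235*p^4*q^2*s^6 - 24*p^4*q*r^7 - 527*p^4*q*r^6*s - 3307*p^4*q*r^5*s^2 - 7769*p^4*q*r^4*s^3 - 7680*p^4*q*r^3*s^4 - 3192*p^4*q*r^2*s^5 - 501*p^4*q*r*s^6 - 24*p^4*q*s^7 - p^4*r^8 - 27*p^4*r^7*s - 262*p^4*r^6*s^2 - 925*p^4*r^5*s^3 - 1358*p^4*r^4*s^4 - 869*p^4*r^3*s^5 - 232*p^4*r^2*s^6 - 24*p^4*r*s^7 - p^4*s^8 - 5*p^3*q^8*r - 4*p^3*q^8*s - 86*p^3*q^7*r^2 - 164*p^3*q^7*r*s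 - 68*p^3*q^7*s^2 - 438*p^3*q^6*r^3 - 1556*p^3*q^6*r^2*s - 1472*p^3*q^6*r*s^2 - 380*p^3*q^6*s^3 - 925*p^3*q^5*r^4 - 5311*p^3*q^5*r^3*s - 8890*p^3*q^5*r^2*s^2 - 5115*p^3*q^5*r*s^3 - 869*p^3*q^5*s^4 - 884*p^3*q^4*r^5 - 7769*p^3*q^4*r^4*s - 20553*p^3*q^4*r^3*s^2 - 20467*p^3*q^4*r^2*s^3 - 7680*p^3*q^4*r*s^4 - 869*p^3*q^4*s^5 - 380*p^3*q^3*r^6 - 5103*p^3*q^3*r^5*s - 20429*p^3*q^3*r^4*s^2 - 31754*p^3*q^3*r^3*s^3 - 20429*p^3*q^3*r^2*s^4 - 5103*p^3*q^3*r*s^5 - 380*p^3*q^3*s^6 - 68*p^3*q^2*r^7 - 1466*p^3*q^2*r^6*s - 8852*p^3*q^2*r^5*s^2 - 20553*p^3*q^2*r^4*s^3 - 20467*p^3*q^2*r^3*s^4 - 8738*p^3*q^2*r^2*s^5 - 1438*p^3*q^2*r*s^6 - 68*p^3*q^2*s^7 - 4*p^3*q*r^8 - 164*p^3*q*r^7*s - 1552*p^3*q*r^6*s^2 - 5311*p^3*q*r^5*s^3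 - 7800*p^3*q*r^4*s^4 - 5115*p^3*q*r^3*s^5 - 1436*p^3*q*r^2*s^6 - 148*p^3*q*r*s^7 - 4*p^3*q*s^8 - 5*p^3*r^8*s - 86*p^3*r^7*s^2 - 438*p^3*r^6*s^3 - 925*p^3*r^5*s^4 - 884*p^3*r^4*s^5 - 380*p^3*r^3*s^6 - 68*p^3*r^2*s^7 - 4*p^3*r*s^8 - 10*p^2*q^8*r^2 - 17*p^2*q^8*r*s - 7*p^2*q^8*s^2 - 86*p^2*q^7*r^3 - 303*p^2*q^7*r^2*s - 275*p^2*q^7*r*s^2 - 68*p^2*q^7*s^3 - 262*p^2*q^6*r^4 - 1552*p^2*q^6*r^3*s - 2583*p^2*q^6*r^2*s^2 - 1436*p^2*q^6*r*s^3 - 232*p^2*q^6*s^4 - 362*p^2*q^5*r^5 - 3307*p^2*q^5*r^4*s - 8852*p^2*q^5*r^3*s^2 - 8738*p^2*q^5*r^2*s^3 - 3192*p^2*q^5*r*s^4 - 344*p^2*q^5*s^5 - 235*p^2*q^4*r^6 - 3221*p^2*q^4*r^5*s - 13090*p^2*q^4*r^4*s^2 - 20429*p^2*q^4*r^3*s^3 - 13090*p^2*q^4*r^2*s^4 - 3220*p^2*q^4*r*s^5 -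 232*p^2*q^4*s^6 - 68*p^2*q^3*r^7 - 1438*p^2*q^3*r^6*s - 8738*p^2*q^3*r^5*s^2 - 20467*p^2*q^3*r^4*s^3 - 20553*p^2*q^3*r^3*s^4 - 8852*p^2*q^3*r^2*s^5 - 1466*p^2*q^3*r*s^6 - 68*p^2*q^3*s^7 - 7*p^2*q^2*r^8 - 275*p^2*q^2*r^7*s - 2583*p^2*q^2*r^6*s^2 - 8890*p^2*q^2*r^5*s^3 - 13250*p^2*q^2*r^4*s^4 - 8890*p^2*q^2*r^3*s^5 - 2583*p^2*q^2*r^2*s^6 - 275*p^2*q^2*r*s^7 - 7*p^2*q^2*s^8 - 17*p^2*q*r^8*s - 303*p^2*q*r^7*s^2 - 1556*p^2*q*r^6*s^3 - 3338*p^2*q*r^5*s^4 - 3280*p^2*q*r^4*s^5 - 1472*p^2*q*r^3*s^6 - 275*p^2*q*r^2*s^7 - 15*p^2*q*r*s^8 - 10*p^2*r^8*s^2 - 86*p^2*r^7*s^3 - 262*p^2*r^6*s^4 - 362*p^2*r^5*s^5 - 235*p^2*r^4*s^6 - 68*p^2*r^3*s^7 - 7*p^2*r^2*s^8 - 5*p*q^8*r^3 - 17*p*q^8*r^2*s - 15*p*q^8*r*s^2 - 4*p*q^8*s^3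 - 27*p*q^7*r^4 - 164*p*q^7*r^3*s - 275*p*q^7*r^2*s^2 - 148*p*q^7*r*s^3 - 24*p*q^7*s^4 - 54*p*q^6*r^5 - 527*p*q^6*r^4*s - 1466*p*q^6*r^3*s^2 - 1438*p*q^6*r^2*s^3 - 501*p*q^6*r*s^4 - 51*p*q^6*s^5 - 52*p*q^5*r^6 - 752*p*q^5*r^5*s - 3220*p*q^5*r^4*s^2 - 5103*p*q^5*r^3*s^3 - 3221*p*q^5*r^2*s^4 - 752*p*q^5*r*s^5 - 51*p*q^5*s^6 - 24*p*q^4*r^7 - 501*p*q^4*r^6*s - 3192*p*q^4*r^5*s^2 - 7680*p*q^4*r^4*s^3 - 7769*p*q^4*r^3*s^4 - 3307*p*q^4*r^2*s^5 - 527*p*q^4*r*s^6 - 24*p*q^4*s^7 - 4*p*q^3*r^8 - 148*p*q^3*r^7*s - 1436*p*q^3*r^6*s^2 - 5115*p*q^3*r^5*s^3 - 7800*p*q^3*r^4*s^4 - 5311*p*q^3*r^3*s^5 - 1552*p*q^3*r^2*s^6 - 164*p*q^3*r*s^7 - 4*p*q^3*s^8 - 15*p*q^2*r^8*s - 275*p*q^2*r^7*s^2 - 1472*p*q^2*r^6*s^3 - 3280*p*q^2*r^5*s^4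 - 3338*p*q^2*r^4*s^5 - 1556*p*q^2*r^3*s^6 - 303*p*q^2*r^2*s^7 - 17*p*q^2*r*s^8 - 17*p*q*r^8*s^2 - 164*p*q*r^7*s^3 - 532*p*q*r^6*s^4 - 774*p*q*r^5*s^5 - 532*p*q*r^4*s^6 - 164*p*q*r^3*s^7 - 17*p*q*r^2*s^8 - 5*p*r^8*s^3 - 27*p*r^7*s^4 - 54*p*r^6*s^5 - 52*p*r^5*s^6 - 24*p*r^4*s^7 - 4*p*r^3*s^8 - q^8*r^4 - 4*q^8*r^3*s - 7*q^8*r^2*s^2 - 4*q^8*r*s^3 - q^8*s^4 - 3*q^7*r^5 - 24*q^7*r^4*s - 68*q^7*r^3*s^2 - 68*q^7*r^2*s^3 - 24*q^7*r*s^4 - 3*q^7*s^5 - 4*q^6*r^6 - 51*q^6*r^5*s - 232*q^6*r^4*s^2 - 380*q^6*r^3*s^3 - 235*q^6*r^2*s^4 - 52*q^6*r*s^5 - 4*q^6*s^6 - 3*q^5*r^7 - 51*q^5*r^6*s - 344*q^5*r^5*s^2 - 869*q^5*r^4*s^3 - 884*q^5*r^3*s^4 - 362*q^5*r^2*s^5 - 54*q^5*r*s^6 - 3*q^5*s^7 - q^4*r^8 - 24*q^4*r^7*s - 232*q^4*r^6*s^2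 - 869*q^4*r^5*s^3 - 1358*q^4*r^4*s^4 - 925*q^4*r^3*s^5 - 262*q^4*r^2*s^6 - 27*q^4*r*s^7 - q^4*s^8 - 4*q^3*r^8*s - 68*q^3*r^7*s^2 - 380*q^3*r^6*s^3 - 884*q^3*r^5*s^4 - 925*q^3*r^4*s^5 - 438*q^3*r^3*s^6 - 86*q^3*r^2*s^7 - 5*q^3*r*s^8 - 7*q^2*r^8*s^2 - 68*q^2*r^7*s^3 - 235*q^2*r^6*s^4 - 362*q^2*r^5*s^5 - 262*q^2*r^4*s^6 - 86*q^2*r^3*s^7 - 10*q^2*r^2*s^8 - 4*q*r^8*s^3 - 24*q*r^7*s^4 - 52*q*r^6*s^5 - 54*q*r^5*s^6 - 27*q*r^4*s^7 - 5*q*r^3*s^8 - r^8*s^4 - 3*r^7*s^5 - 4*r^6*s^6 - 3*r^5*s^7 - r^4*s^8) * tw_two0 (L := L)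

end ids
end MP7fX
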