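import Pool.Agent.Lib.MP_7f581e_ntX.Defs
import Pool.Agent.Lib.MP_7f581e_ntX.TwinIds

/-!
Twin sextics in characteristic two: for the roots `y i` of `X ^ 6 + a X ^ 2 + X + b`, indexed by the
six points, there are roots `z s` of `X ^ 6 + b X ^ 2 + X + a`, indexed by the six totals, with
`(z s + z t) ^ 4 = ∏ i, (y i + y (mt s t i))`. Existence, uniqueness, duality, functoriality.
-/

set_option autoImplicit false
set_option linter.all false
namespace MP7fX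
open Equiv Polynomial

section basics
variable {L : Type*} [CommRing L]

def tE1 (y : Fin 6 → L) : L := y 0 + y 1 + y 2 + y 3 + y 4 + y 5
def tE2 (y : Fin 6 → L) : L :=
  y 0 * y 1 + y 0 * y 2 + y 0 * y 3 + y 0 * y 4 + y 0 * y 5 + y 1 * y 2 + y 1 * y 3 + y 1 * y 4
  + y 1 * y 5 + y 2 * y 3 + y 2 * y 4 + y 2 * y 5 + y 3 * y 4 + y 3 * y 5 + y 4 * y 5
def tE3 (y : Fin 6 → L) : L :=
  y 0 * y 1 * y 2 + y 0 * y 1 * y 3 + y 0 * y 1 * y 4 + y 0 * y 1 * y 5 + y 0 * y 2 * y 3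
  + y 0 * y 2 * y 4 + y 0 * y 2 * y 5 + y 0 * y 3 * y 4 + y 0 * y 3 * y 5 + y 0 * y 4 * y 5
  + y 1 * y 2 * y 3 + y 1 * y 2 * y 4 + y 1 * y 2 * y 5 + y 1 * y 3 * y 4 + y 1 * y 3 * y 5
  + y 1 * y 4 * y 5 + y 2 * y 3 * y 4 + y 2 * y 3 * y 5 + y 2 * y 4 * y 5 + y 3 * y 4 * y 5
def tE4 (y : Fin 6 → L) : L :=
  y 0 * y 1 * y 2 * y 3 + y 0 * y 1 * y 2 * y 4 + y 0 * y 1 * y 2 * y 5 + y 0 * y 1 * y 3 * y 4
  + y 0 * y 1 * y 3 * y 5 + y 0 * y 1 * y 4 * y 5 + y 0 * y 2 * y 3 * y 4 + y 0 * y 2 * y 3 * y 5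
  + y 0 * y 2 * y 4 * y 5 + y 0 * y 3 * y 4 * y 5 + y 1 * y 2 * y 3 * y 4 + y 1 * y 2 * y 3 * y 5
  + y 1 * y 2 * y 4 * y 5 + y 1 * y 3 * y 4 * y 5 + y 2 * y 3 * y 4 * y 5
def tE5 (y : Fin 6 → L) : L :=
  y 0 * y 1 * y 2 * y 3 * y 4 + y 0 * y 1 * y 2 * y 3 * y 5 + y 0 * y 1 * y 2 * y 4 * y 5
  + y 0 * y 1 * y 3 * y 4 * y 5 + y 0 * y 2 * y 3 * y 4 * y 5 + y 1 * y 2 * y 3 * y 4 * y 5
def tE6 (y : Fin 6 → L) : L := y 0 * y 1 * y 2 * y 3 * y 4 * y 5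

theorem tw_prod_eq (y : Fin 6 → L) : ∏ i, (X - C (y i)) =
    X ^ 6 + C (- tE1 y) * X ^ 5 + C (tE2 y) * X ^ 4 + C (- tE3 y) * X ^ 3 + C (tE4 y) * X ^ 2
      + C (- tE5 y) * X + C (tE6 y) := by
  simp only [Fin.prod_univ_six, tE1, tE2, tE3, tE4, tE5, tE6, map_neg, map_add, map_mul]
  ring

variable {L' : Type*} [CommRing L']

theorem tE1_map (f : L →+* L') (y : Fin 6 → L) : tE1 (fun i => f (y i)) = f (tE1 y) := by
  simp only [tE1, map_add]
theorem tE2_map (f : L →+* L') (y : Fin 6 → L) : tE2 (fun i => f (y i)) = f (tE2 y) := by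
  simp only [tE2, map_add, map_mul]
theorem tE3_map (f : L →+* L') (y : Fin 6 → L) : tE3 (fun i => f (y i)) = f (tE3 y) := by
  simp only [tE3, map_add, map_mul]
theorem tE4_map (f : L →+* L') (y : Fin 6 → L) : tE4 (fun i => f (y i)) = f (tE4 y) := by
  simp only [tE4, map_add, map_mul]
theorem tE5_map (f : L →+* L') (y : Fin 6 → L) : tE5 (fun i => f (y i)) = f (tE5 y) := by
  simp only [tE5, map_add, map_mul]
theorem tE6_map (f : L →+* L') (y : Fin 6 → L) : tE6 (fun i => f (y i)) = f (tE6 y) := by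
  simp only [tE6, map_mul]

/-- The shift of `(0, d₁, …, d₅)` by `c`. -/
def tsh (c v w x y z : L) : Fin 6 → L := ![c, c + v, c + w, c + x, c + y, c + z]

theorem tE1_sh (c v w x y z : L) : tE1 (tsh c v w x y z) = tF1 v w x y z + 6 * c := by
  simp [tE1, tF1, tsh]; ring
theorem tE2_sh (c v w x y z : L) : tE2 (tsh c v w x y z) =
    tF2 v w x y z + 5 * c * tF1 v w x y z + 15 * c ^ 2 := by
  simp [tE2, tF1, tF2, tsh]; ring
theorem tE3_sh (c v w x y z : L) : tE3 (tsh c v w x y z) =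
    tF3 v w x y z + 4 * c * tF2 v w x y z + 10 * c ^ 2 * tF1 v w x y z + 20 * c ^ 3 := by
  simp [tE3, tF1, tF2, tF3, tsh]; ring
theorem tE4_sh (c v w x y z : L) : tE4 (tsh c v w x y z) =
    tF4 v w x y z + 3 * c * tF3 v w x y z + 6 * c ^ 2 * tF2 v w x y z
     + 10 * c ^ 3 * tF1 v w x y z + 15 * c ^ 4 := by
  simp [tE4, tF1, tF2, tF3, tF4, tsh]; ring
theorem tE5_sh (c v w x y z : L) : tE5 (tsh c v w x y z) =
    tF5 v w x y z + 2 * c * tF4 v w x y z + 3 * c ^ 2 * tF3 v w x y z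
     + 4 * c ^ 3 * tF2 v w x y z + 5 * c ^ 4 * tF1 v w x y z + 6 * c ^ 5 := by
  simp [tE5, tF1, tF2, tF3, tF4, tF5, tsh]; ring

theorem tE2_add (y : Fin 6 → L) (c : L) : tE2 (fun i => y i + c) =
    tE2 y + 5 * c * tE1 y + 15 * c ^ 2 := by
  simp only [tE1, tE2]; ring

section shiftback
variable (y : Fin 6 → L)
theorem tF1_back : tF1 (y 0 + y 1) (y 0 + y 2) (y 0 + y 3) (y 0 + y 4) (y 0 + y 5) =
    tE1 y + 4 * y 0 := by
  simp only [tE1, tF1]; ring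
theorem tF2_back : tF2 (y 0 + y 1) (y 0 + y 2) (y 0 + y 3) (y 0 + y 4) (y 0 + y 5) =
    tE2 y + 3 * y 0 * tE1 y + 7 * y 0 ^ 2 := by
  simp only [tE1, tE2, tF2]; ring
theorem tF3_back : tF3 (y 0 + y 1) (y 0 + y 2) (y 0 + y 3) (y 0 + y 4) (y 0 + y 5) =
    tE3 y + 2 * y 0 * tE2 y + 4 * y 0 ^ 2 * tE1 y + 6 * y 0 ^ 3 := by
  simp only [tE1, tE2, tE3, tF3]; ring
theorem tF4_back : tF4 (y 0 + y 1) (y 0 + y 2) (y 0 + y 3) (y 0 + y 4) (y 0 + y 5) =
    tE4 y + y 0 * tE3 y + 2 * y 0 ^ 2 * tE2 y + 2 * y 0 ^ 3 * tE1 y + 3 * y 0 ^ 4 := by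
  simp only [tE1, tE2, tE3, tE4, tF4]; ring
theorem tF5_back : tF5 (y 0 + y 1) (y 0 + y 2) (y 0 + y 3) (y 0 + y 4) (y 0 + y 5) =
    tE5 y + y 0 ^ 2 * tE3 y + y 0 ^ 4 * tE1 y := by
  simp only [tE1, tE3, tE5, tF5]; ring
theorem tE6_back : tE6 y = tE5 y * y 0 - tE4 y * y 0 ^ 2 + tE3 y * y 0 ^ 3 - tE2 y * y 0 ^ 4
    + tE1 y * y 0 ^ 5 - y 0 ^ 6 := by
  simp only [tE1, tE2, tE3, tE4, tE5, tE6]; ring
end shiftback
end basics

section char2
variable {L : Type*} [Field L] [CharP L 2]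

theorem tw_neg_id (x : L) : - x = x := by linear_combination (-x) * tw_two0 (L := L)

theorem isRoots_iff {a b : L} {y : Fin 6 → L} : IsRoots a b y ↔
    tE1 y = 0 ∧ tE2 y = 0 ∧ tE3 y = 0 ∧ tE4 y = a ∧ tE5 y = 1 ∧ tE6 y = b := by
  unfold IsRoots
  rw [tw_prod_eq]
  constructor
  · intro h
    have c0 := congrArg (fun p => coeff p 0) h
    have c1 := congrArg (fun p => coeff p 1) h
    have c2 := congrArg (fun p => coeff p 2) h
    have c3 := congrArg (fun p => coeff p 3) h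
    have c4 := congrArg (fun p => coeff p 4) h
    have c5 := congrArg (fun p => coeff p 5) h
    simp [coeff_X, coeff_C] at c0 c1 c2 c3 c4 c5
    refine ⟨?_, ?_, ?_, ?_, ?_, ?_⟩
    · exact c5
    · exact c4.symm
    · exact c3
    · exact c2.symm
    · rw [c1, tw_neg_id]
    · exact c0.symm
  · rintro ⟨h1, h2, h3, h4, h5, h6⟩
    rw [h1, h2, h3, h4, h5, h6, tw_neg_id, tw_neg_id]
    simp

theorem tw_sq_inj {x y : L} (h : x ^ 2 = y ^ 2) : x = y := by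
  have h' : (x - y) ^ 2 = 0 := by linear_combination h + (- x * y + y ^ 2) * tw_two0 (L := L)
  exact sub_eq_zero.1 (pow_eq_zero_iff (two_ne_zero) |>.1 h')

theorem tw_four_inj {x y : L} (h : x ^ 4 = y ^ 4) : x = y :=
  tw_sq_inj (tw_sq_inj (by linear_combination h))

theorem tFk0 {y : Fin 6 → L} (h1 : tE1 y = 0) (h3 : tE3 y = 0) (h5 : tE5 y = 1) :
    (y 0 + y 1) * (y 0 + y 2) * (y 0 + y 3) * (y 0 + y 4) * (y 0 + y 5) = 1 := by
  unfold tE1 at h1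
  unfold tE3 at h3
  unfold tE5 at h5
  linear_combination h5 + (y 0) ^ 4 * h1 + (y 0) ^ 2 * h3

theorem tFk1 {y : Fin 6 → L} (h1 : tE1 y = 0) (h3 : tE3 y = 0) (h5 : tE5 y = 1) :
    (y 0 + y 1) * (y 1 + y 2) * (y 1 + y 3) * (y 1 + y 4) * (y 1 + y 5) = 1 := by
  unfold tE1 at h1
  unfold tE3 at h3
  unfold tE5 at h5
  linear_combination h5 + (y 1) ^ 4 * h1 + (y 1) ^ 2 * h3

theorem tFk2 {y : Fin 6 → L} (h1 : tE1 y = 0) (h3 : tE3 y = 0) (h5 : tE5 y = 1) :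
    (y 0 + y 2) * (y 1 + y 2) * (y 2 + y 3) * (y 2 + y 4) * (y 2 + y 5) = 1 := by
  unfold tE1 at h1
  unfold tE3 at h3
  unfold tE5 at h5
  linear_combination h5 + (y 2) ^ 4 * h1 + (y 2) ^ 2 * h3

theorem tFk3 {y : Fin 6 → L} (h1 : tE1 y = 0) (h3 : tE3 y = 0) (h5 : tE5 y = 1) :
    (y 0 + y 3) * (y 1 + y 3) * (y 2 + y 3) * (y 3 + y 4) * (y 3 + y 5) = 1 := by
  unfold tE1 at h1
  unfold tE3 at h3
  unfold tE5 at h5
  linear_combination h5 + (y 3) ^ 4 * h1 + (y 3) ^ 2 * h3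

theorem tFk4 {y : Fin 6 → L} (h1 : tE1 y = 0) (h3 : tE3 y = 0) (h5 : tE5 y = 1) :
    (y 0 + y 4) * (y 1 + y 4) * (y 2 + y 4) * (y 3 + y 4) * (y 4 + y 5) = 1 := by
  unfold tE1 at h1
  unfold tE3 at h3
  unfold tE5 at h5
  linear_combination h5 + (y 4) ^ 4 * h1 + (y 4) ^ 2 * h3

theorem tFk5 {y : Fin 6 → L} (h1 : tE1 y = 0) (h3 : tE3 y = 0) (h5 : tE5 y = 1) :
    (y 0 + y 5) * (y 1 + y 5) * (y 2 + y 5) * (y 3 + y 5) * (y 4 + y 5) = 1 := by
  unfold tE1 at h1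
  unfold tE3 at h3
  unfold tE5 at h5
  linear_combination h5 + (y 5) ^ 4 * h1 + (y 5) ^ 2 * h3

theorem tw_V_one {w01 w02 w03 w04 w05 w12 w13 w14 w15 w23 w24 w25 w34 w35 w45 : L}
    (h0 : w01 * w02 * w03 * w04 * w05 = 1) (h1 : w01 * w12 * w13 * w14 * w15 = 1) (h2 : w02 * w12 * w23 * w24 * w25 = 1) (h3 : w03 * w13 * w23 * w34 * w35 = 1) (h4 : w04 * w14 * w24 * w34 * w45 = 1) (h5 : w05 * w15 * w25 * w35 * w45 = 1) :
    (w01 * w23 * w45) * (w02 * w14 * w35) * (w03 * w15 * w24) * (w04 * w13 * w25) * (w05 * w12 * w34) = 1 := by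
  apply tw_sq_inj
  calc ((w01 * w23 * w45) * (w02 * w14 * w35) * (w03 * w15 * w24) * (w04 * w13 * w25) * (w05 * w12 * w34)) ^ 2 = (w01 * w02 * w03 * w04 * w05) * (w01 * w12 * w13 * w14 * w15) * (w02 * w12 * w23 * w24 * w25) * (w03 * w13 * w23 * w34 * w35) * (w04 * w14 * w24 * w34 * w45) * (w05 * w15 * w25 * w35 * w45) := by ring
    _ = 1 ^ 2 := by rw [h0, h1, h2, h3, h4, h5]; ring

theorem tw_P_sq {w01 w02 w03 w04 w05 w12 w13 w14 w15 w23 w24 w25 w34 w35 w45 : L}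
    (h0 : w01 * w02 * w03 * w04 * w05 = 1) (h1 : w01 * w12 * w13 * w14 * w15 = 1) (h2 : w02 * w12 * w23 * w24 * w25 = 1) (h3 : w03 * w13 * w23 * w34 * w35 = 1) (h4 : w04 * w14 * w24 * w34 * w45 = 1) (h5 : w05 * w15 * w25 * w35 * w45 = 1) :
    (w23 * w24 * w25 * w34 * w35 * w45) ^ 2 = w01 ^ 2 := by
  have e1 : (w23 * w24 * w25 * w34 * w35 * w45) ^ 2 * ((w01 * w02 * w03 * w04 * w05) * (w01 * w12 * w13 * w14 * w15)) =
     w01 ^ 2 * ((w02 * w12 * w23 * w24 * w25) * (w03 * w13 * w23 * w34 * w35) * (w04 * w14 * w24 * w34 * w45) * (w05 * w15 * w25 * w35 * w45)) := by ring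
  rw [h0, h1, h2, h3, h4, h5] at e1
  linear_combination e1


/-- The sums of the roots `z` are determined by the roots `y`. -/
def TRel (y z : Fin 6 → L) : Prop := ∀ s t, (z s + z t) ^ 4 = ∏ i, (y i + y (mt s t i))

/-- The five products of the duads of the synthemes of the first total. -/
def tdd (u : Fin 6 → L) (c : L) : Fin 6 → L :=
  tsh c ((u 0 + u 1) * (u 2 + u 3) * (u 4 + u 5)) ((u 0 + u 2) * (u 1 + u 4) * (u 3 + u 5)) ((u 0 + u 3) * (u 1 + u 5) * (u 2 + u 4)) ((u 0 + u 4) * (u 1 + u 3) * (u 2 + u 5)) ((u 0 + u 5) * (u 1 + u 2) * (u 3 + u 4))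

theorem tdd01 (u : Fin 6 → L) (c : L) (h3 : tE3 u = 0) : tdd u c 0 + tdd u c 1 = ((u 0 + u 1) * (u 2 + u 3) * (u 4 + u 5)) := by
  unfold tE3 at h3
  simp only [tdd, tsh, Matrix.cons_val]
  linear_combination c * tw_two0 (L := L)

theorem tdd02 (u : Fin 6 → L) (c : L) (h3 : tE3 u = 0) : tdd u c 0 + tdd u c 2 = ((u 0 + u 2) * (u 1 + u 4) * (u 3 + u 5)) := by
  unfold tE3 at h3
  simp only [tdd, tsh, Matrix.cons_val]
  linear_combination c * tw_two0 (L := L)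

theorem tdd03 (u : Fin 6 → L) (c : L) (h3 : tE3 u = 0) : tdd u c 0 + tdd u c 3 = ((u 0 + u 3) * (u 1 + u 5) * (u 2 + u 4)) := by
  unfold tE3 at h3
  simp only [tdd, tsh, Matrix.cons_val]
  linear_combination c * tw_two0 (L := L)

theorem tdd04 (u : Fin 6 → L) (c : L) (h3 : tE3 u = 0) : tdd u c 0 + tdd u c 4 = ((u 0 + u 4) * (u 1 + u 3) * (u 2 + u 5)) := by
  unfold tE3 at h3
  simp only [tdd, tsh, Matrix.cons_val]
  linear_combination c * tw_two0 (L := L)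

theorem tdd05 (u : Fin 6 → L) (c : L) (h3 : tE3 u = 0) : tdd u c 0 + tdd u c 5 = ((u 0 + u 5) * (u 1 + u 2) * (u 3 + u 4)) := by
  unfold tE3 at h3
  simp only [tdd, tsh, Matrix.cons_val]
  linear_combination c * tw_two0 (L := L)

theorem tdd12 (u : Fin 6 → L) (c : L) (h3 : tE3 u = 0) : tdd u c 1 + tdd u c 2 = ((u 0 + u 5) * (u 1 + u 3) * (u 2 + u 4)) := by
  unfold tE3 at h3
  simp only [tdd, tsh, Matrix.cons_val]
  linear_combination h3 + (c - ((u 0 + u 5) * (u 1 + u 3) * (u 2 + u 4)) + u 0 * u 3 * u 4 + u 1 * u 2 * u 5) * tw_two0 (L := L)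

theorem tdd13 (u : Fin 6 → L) (c : L) (h3 : tE3 u = 0) : tdd u c 1 + tdd u c 3 = ((u 0 + u 4) * (u 1 + u 2) * (u 3 + u 5)) := by
  unfold tE3 at h3
  simp only [tdd, tsh, Matrix.cons_val]
  linear_combination h3 + (c - ((u 0 + u 4) * (u 1 + u 2) * (u 3 + u 5)) + u 0 * u 2 * u 5 + u 1 * u 3 * u 4) * tw_two0 (L := L)

theorem tdd14 (u : Fin 6 → L) (c : L) (h3 : tE3 u = 0) : tdd u c 1 + tdd u c 4 = ((u 0 + u 2) * (u 1 + u 5) * (u 3 + u 4)) := by
  unfold tE3 at h3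
  simp only [tdd, tsh, Matrix.cons_val]
  linear_combination h3 + (c - ((u 0 + u 2) * (u 1 + u 5) * (u 3 + u 4)) + u 0 * u 3 * u 5 + u 1 * u 2 * u 4) * tw_two0 (L := L)

theorem tdd15 (u : Fin 6 → L) (c : L) (h3 : tE3 u = 0) : tdd u c 1 + tdd u c 5 = ((u 0 + u 3) * (u 1 + u 4) * (u 2 + u 5)) := by
  unfold tE3 at h3
  simp only [tdd, tsh, Matrix.cons_val]
  linear_combination h3 + (c - ((u 0 + u 3) * (u 1 + u 4) * (u 2 + u 5)) + u 0 * u 2 * u 4 + u 1 * u 3 * u 5) * tw_two0 (L := L)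

theorem tdd23 (u : Fin 6 → L) (c : L) (h3 : tE3 u = 0) : tdd u c 2 + tdd u c 3 = ((u 0 + u 1) * (u 2 + u 5) * (u 3 + u 4)) := by
  unfold tE3 at h3
  simp only [tdd, tsh, Matrix.cons_val]
  linear_combination h3 + (c - ((u 0 + u 1) * (u 2 + u 5) * (u 3 + u 4)) + u 0 * u 4 * u 5 + u 1 * u 2 * u 3) * tw_two0 (L := L)

theorem tdd24 (u : Fin 6 → L) (c : L) (h3 : tE3 u = 0) : tdd u c 2 + tdd u c 4 = ((u 0 + u 3) * (u 1 + u 2) * (u 4 + u 5)) := by
  unfold tE3 at h3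
  simp only [tdd, tsh, Matrix.cons_val]
  linear_combination h3 + (c - ((u 0 + u 3) * (u 1 + u 2) * (u 4 + u 5)) + u 0 * u 1 * u 5 + u 2 * u 3 * u 4) * tw_two0 (L := L)

theorem tdd25 (u : Fin 6 → L) (c : L) (h3 : tE3 u = 0) : tdd u c 2 + tdd u c 5 = ((u 0 + u 4) * (u 1 + u 5) * (u 2 + u 3)) := by
  unfold tE3 at h3
  simp only [tdd, tsh, Matrix.cons_val]
  linear_combination h3 + (c - ((u 0 + u 4) * (u 1 + u 5) * (u 2 + u 3)) + u 0 * u 1 * u 3 + u 2 * u 4 * u 5) * tw_two0 (L := L)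

theorem tdd34 (u : Fin 6 → L) (c : L) (h3 : tE3 u = 0) : tdd u c 3 + tdd u c 4 = ((u 0 + u 5) * (u 1 + u 4) * (u 2 + u 3)) := by
  unfold tE3 at h3
  simp only [tdd, tsh, Matrix.cons_val]
  linear_combination h3 + (c - ((u 0 + u 5) * (u 1 + u 4) * (u 2 + u 3)) + u 0 * u 1 * u 2 + u 3 * u 4 * u 5) * tw_two0 (L := L)

theorem tdd35 (u : Fin 6 → L) (c : L) (h3 : tE3 u = 0) : tdd u c 3 + tdd u c 5 = ((u 0 + u 2) * (u 1 + u 3) * (u 4 + u 5)) := by
  unfold tE3 at h3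
  simp only [tdd, tsh, Matrix.cons_val]
  linear_combination h3 + (c - ((u 0 + u 2) * (u 1 + u 3) * (u 4 + u 5)) + u 0 * u 1 * u 4 + u 2 * u 3 * u 5) * tw_two0 (L := L)

theorem tdd45 (u : Fin 6 → L) (c : L) (h3 : tE3 u = 0) : tdd u c 4 + tdd u c 5 = ((u 0 + u 1) * (u 2 + u 4) * (u 3 + u 5)) := by
  unfold tE3 at h3
  simp only [tdd, tsh, Matrix.cons_val]
  linear_combination h3 + (c - ((u 0 + u 1) * (u 2 + u 4) * (u 3 + u 5)) + u 0 * u 2 * u 3 + u 1 * u 4 * u 5) * tw_two0 (L := L)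

theorem tdd_rel (u : Fin 6 → L) (c : L) (h3 : tE3 u = 0) (s t : Fin 6) :
    (tdd u c s + tdd u c t) ^ 2 = ∏ i, (u i + u (mt s t i)) := by
  wlog hst : s ≤ t with H
  · rw [add_comm, H u c h3 t s (le_of_not_ge hst)]
    exact Finset.prod_congr rfl fun i _ => by rw [mt_symm]
  rcases hst.eq_or_lt with rfl | hlt
  · have e1 : tdd u c s + tdd u c s = 0 := by linear_combination (tdd u c s) * tw_two0 (L := L)
    have e2 : ∏ i, (u i + u (mt s s i)) = 0 := by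
      apply Finset.prod_eq_zero (Finset.mem_univ 0)
      rw [mt_self]
      linear_combination (u 0) * tw_two0 (L := L)
    rw [e1, e2]
    ring
  · rw [Fin.prod_univ_six]
    fin_cases s <;> fin_cases t <;> first | (exfalso; revert hlt; decide) | skip
    · show (tdd u c 0 + tdd u c 1) ^ 2 = (u 0 + u 1) * (u 1 + u 0) * (u 2 + u 3) * (u 3 + u 2) * (u 4 + u 5) * (u 5 + u 4)
      rw [tdd01 u c h3]
      ring
    · show (tdd u c 0 + tdd u c 2) ^ 2 = (u 0 + u 2) * (u 1 + u 4) * (u 2 + u 0) * (u 3 + u 5) * (u 4 + u 1) * (u 5 + u 3)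
      rw [tdd02 u c h3]
      ring
    · show (tdd u c 0 + tdd u c 3) ^ 2 = (u 0 + u 3) * (u 1 + u 5) * (u 2 + u 4) * (u 3 + u 0) * (u 4 + u 2) * (u 5 + u 1)
      rw [tdd03 u c h3]
      ring
    · show (tdd u c 0 + tdd u c 4) ^ 2 = (u 0 + u 4) * (u 1 + u 3) * (u 2 + u 5) * (u 3 + u 1) * (u 4 + u 0) * (u 5 + u 2)
      rw [tdd04 u c h3]
      ring
    · show (tdd u c 0 + tdd u c 5) ^ 2 = (u 0 + u 5) * (u 1 + u 2) * (u 2 + u 1) * (u 3 + u 4) * (u 4 + u 3) * (u 5 + u 0)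
      rw [tdd05 u c h3]
      ring
    · show (tdd u c 1 + tdd u c 2) ^ 2 = (u 0 + u 5) * (u 1 + u 3) * (u 2 + u 4) * (u 3 + u 1) * (u 4 + u 2) * (u 5 + u 0)
      rw [tdd12 u c h3]
      ring
    · show (tdd u c 1 + tdd u c 3) ^ 2 = (u 0 + u 4) * (u 1 + u 2) * (u 2 + u 1) * (u 3 + u 5) * (u 4 + u 0) * (u 5 + u 3)
      rw [tdd13 u c h3]
      ring
    · show (tdd u c 1 + tdd u c 4) ^ 2 = (u 0 + u 2) * (u 1 + u 5) * (u 2 + u 0) * (u 3 + u 4) * (u 4 + u 3) * (u 5 + u 1)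
      rw [tdd14 u c h3]
      ring
    · show (tdd u c 1 + tdd u c 5) ^ 2 = (u 0 + u 3) * (u 1 + u 4) * (u 2 + u 5) * (u 3 + u 0) * (u 4 + u 1) * (u 5 + u 2)
      rw [tdd15 u c h3]
      ring
    · show (tdd u c 2 + tdd u c 3) ^ 2 = (u 0 + u 1) * (u 1 + u 0) * (u 2 + u 5) * (u 3 + u 4) * (u 4 + u 3) * (u 5 + u 2)
      rw [tdd23 u c h3]
      ring
    · show (tdd u c 2 + tdd u c 4) ^ 2 = (u 0 + u 3) * (u 1 + u 2) * (u 2 + u 1) * (u 3 + u 0) * (u 4 + u 5) * (u 5 + u 4)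
      rw [tdd24 u c h3]
      ring
    · show (tdd u c 2 + tdd u c 5) ^ 2 = (u 0 + u 4) * (u 1 + u 5) * (u 2 + u 3) * (u 3 + u 2) * (u 4 + u 0) * (u 5 + u 1)
      rw [tdd25 u c h3]
      ring
    · show (tdd u c 3 + tdd u c 4) ^ 2 = (u 0 + u 5) * (u 1 + u 4) * (u 2 + u 3) * (u 3 + u 2) * (u 4 + u 1) * (u 5 + u 0)
      rw [tdd34 u c h3]
      ring
    · show (tdd u c 3 + tdd u c 5) ^ 2 = (u 0 + u 2) * (u 1 + u 3) * (u 2 + u 0) * (u 3 + u 1) * (u 4 + u 5) * (u 5 + u 4)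
      rw [tdd35 u c h3]
      ring
    · show (tdd u c 4 + tdd u c 5) ^ 2 = (u 0 + u 1) * (u 1 + u 0) * (u 2 + u 4) * (u 3 + u 5) * (u 4 + u 2) * (u 5 + u 3)
      rw [tdd45 u c h3]
      ring

/-- The construction: the roots of the dual sextic, up to the constant coefficient. -/
theorem tw_construct (hsq : ∀ x : L, ∃ r, r ^ 2 = x) {a b : L} {y : Fin 6 → L} (hy : IsRoots a b y) :
    ∃ z : Fin 6 → L, TRel y z ∧ tE1 z = 0 ∧ tE2 z = 0 ∧ tE3 z = 0 ∧ tE4 z = b ∧ tE5 z = 1 := by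
  obtain ⟨y1, y2, y3, y4, y5, y6⟩ := isRoots_iff.1 hy
  choose u hu using fun i => hsq (y i)
  have hyu : y = fun i => frobenius L 2 (u i) := by
    funext i
    rw [frobenius_def, hu]
  have fr : ∀ x : L, frobenius L 2 x = x ^ 2 := fun x => frobenius_def 2 x
  rw [hyu, tE1_map, fr] at y1
  rw [hyu, tE2_map, fr] at y2
  rw [hyu, tE3_map, fr] at y3
  rw [hyu, tE4_map, fr] at y4
  rw [hyu, tE5_map, fr] at y5
  rw [hyu, tE6_map, fr] at y6
  have u1 : tE1 u = 0 := pow_eq_zero_iff two_ne_zero |>.1 y1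
  have u2 : tE2 u = 0 := pow_eq_zero_iff two_ne_zero |>.1 y2
  have u3 : tE3 u = 0 := pow_eq_zero_iff two_ne_zero |>.1 y3
  have u5 : tE5 u = 1 := tw_sq_inj (by rw [y5, one_pow])
  set d1 := (u 0 + u 1) * (u 2 + u 3) * (u 4 + u 5) with hd1
  set d2 := (u 0 + u 2) * (u 1 + u 4) * (u 3 + u 5) with hd2
  set d3 := (u 0 + u 3) * (u 1 + u 5) * (u 2 + u 4) with hd3
  set d4 := (u 0 + u 4) * (u 1 + u 3) * (u 2 + u 5) with hd4
  set d5 := (u 0 + u 5) * (u 1 + u 2) * (u 3 + u 4) with hd5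
  obtain ⟨c, hc⟩ := hsq (tF2 d1 d2 d3 d4 d5)
  -- the shifted roots
  have ht : (u 0 + u 1) + (u 0 + u 2) + (u 0 + u 3) + (u 0 + u 4) = u 0 + u 5 := by
    unfold tE1 at u1
    linear_combination u1 + (u 0 - u 5) * tw_two0 (L := L)
  have k1 : d1 = (u 0 + u 1) * ((u 0 + u 2) + (u 0 + u 3)) * ((u 0 + u 4) + (u 0 + u 5)) := by
    have a1 : (u 0 + u 2) + (u 0 + u 3) = u 2 + u 3 := by linear_combination u 0 * tw_two0 (L := L)
    have a2 : (u 0 + u 4) + (u 0 + u 5) = u 4 + u 5 := by linear_combination u 0 * tw_two0 (L := L)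
    rw [a1, a2]
  have k2 : d2 = (u 0 + u 2) * ((u 0 + u 1) + (u 0 + u 4)) * ((u 0 + u 3) + (u 0 + u 5)) := by
    have a1 : (u 0 + u 1) + (u 0 + u 4) = u 1 + u 4 := by linear_combination u 0 * tw_two0 (L := L)
    have a2 : (u 0 + u 3) + (u 0 + u 5) = u 3 + u 5 := by linear_combination u 0 * tw_two0 (L := L)
    rw [a1, a2]
  have k3 : d3 = (u 0 + u 3) * ((u 0 + u 1) + (u 0 + u 5)) * ((u 0 + u 2) + (u 0 + u 4)) := by
    have a1 : (u 0 + u 1) + (u 0 + u 5) = u 1 + u 5 := by linear_combination u 0 * tw_two0 (L := L)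
    have a2 : (u 0 + u 2) + (u 0 + u 4) = u 2 + u 4 := by linear_combination u 0 * tw_two0 (L := L)
    rw [a1, a2]
  have k4 : d4 = (u 0 + u 4) * ((u 0 + u 1) + (u 0 + u 3)) * ((u 0 + u 2) + (u 0 + u 5)) := by
    have a1 : (u 0 + u 1) + (u 0 + u 3) = u 1 + u 3 := by linear_combination u 0 * tw_two0 (L := L)
    have a2 : (u 0 + u 2) + (u 0 + u 5) = u 2 + u 5 := by linear_combination u 0 * tw_two0 (L := L)
    rw [a1, a2]
  have k5 : d5 = (u 0 + u 5) * ((u 0 + u 1) + (u 0 + u 2)) * ((u 0 + u 3) + (u 0 + u 4)) := by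
    have a1 : (u 0 + u 1) + (u 0 + u 2) = u 1 + u 2 := by linear_combination u 0 * tw_two0 (L := L)
    have a2 : (u 0 + u 3) + (u 0 + u 4) = u 3 + u 4 := by linear_combination u 0 * tw_two0 (L := L)
    rw [a1, a2]
  have x3 : tF3 (u 0 + u 1) (u 0 + u 2) (u 0 + u 3) (u 0 + u 4) (u 0 + u 5) = 0 := by
    rw [tF3_back, u1, u2, u3]
    linear_combination (3 * u 0 ^ 3) * tw_two0 (L := L)
  have x2 : tF2 (u 0 + u 1) (u 0 + u 2) (u 0 + u 3) (u 0 + u 4) (u 0 + u 5) = u 0 ^ 2 := by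
    rw [tF2_back, u1, u2]
    linear_combination (3 * u 0 ^ 2) * tw_two0 (L := L)
  have x4 : tF4 (u 0 + u 1) (u 0 + u 2) (u 0 + u 3) (u 0 + u 4) (u 0 + u 5) =
      tE4 u + u 0 ^ 4 := by
    rw [tF4_back, u1, u2, u3]
    linear_combination (u 0 ^ 4) * tw_two0 (L := L)
  have x5 : tF5 (u 0 + u 1) (u 0 + u 2) (u 0 + u 3) (u 0 + u 4) (u 0 + u 5) = 1 := by
    rw [tF5_back, u1, u3, u5]
    ring
  have b6 : tE6 u = u 0 ^ 6 + tE4 u * u 0 ^ 2 + u 0 := by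
    rw [tE6_back, u1, u2, u3, u5]
    linear_combination (- tE4 u * u 0 ^ 2 - u 0 ^ 6) * tw_two0 (L := L)
  have f1 : tF1 d1 d2 d3 d4 d5 = 0 := by
    rw [k1, k2, k3, k4, k5, ← ht]
    exact tw_e1d _ _ _ _
  have f3 : tF3 d1 d2 d3 d4 d5 = 0 := by
    rw [k1, k2, k3, k4, k5, ← ht]
    refine tw_e3d _ _ _ _ ?_
    rw [ht]
    exact x3
  have f4 : tF4 d1 d2 d3 d4 d5 = tF2 d1 d2 d3 d4 d5 ^ 2 + (tE6 u) ^ 2 := by
    have h := tw_e4d (u 0 + u 1) (u 0 + u 2) (u 0 + u 3) (u 0 + u 4) (by rw [ht]; exact x3)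
    rw [ht, x2, x4, x5, ← k1, ← k2, ← k3, ← k4, ← k5] at h
    rw [h, b6]
    linear_combination (- u 0 ^ 8 * tE4 u - u 0 ^ 7 - tE4 u * u 0 ^ 3 + tE4 u * u 0 ^ 8) *
      tw_two0 (L := L)
  have f5 : tF5 d1 d2 d3 d4 d5 = 1 := by
    have h0 := tFk0 u1 u3 u5
    have h1 := tFk1 u1 u3 u5
    have h2 := tFk2 u1 u3 u5
    have h3 := tFk3 u1 u3 u5
    have h4 := tFk4 u1 u3 u5
    have h5 := tFk5 u1 u3 u5
    have h := tw_V_one h0 h1 h2 h3 h4 h5
    simpa only [tF5] using h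
  refine ⟨tdd u c, ?_, ?_, ?_, ?_, ?_, ?_⟩
  · intro s t
    have h := tdd_rel u c u3 s t
    calc (tdd u c s + tdd u c t) ^ 4 = ((tdd u c s + tdd u c t) ^ 2) ^ 2 := by ring
      _ = ∏ i, (u i + u (mt s t i)) ^ 2 := by rw [h, Finset.prod_pow]
      _ = _ := by
        refine Finset.prod_congr rfl fun i _ => ?_
        rw [← hu i, ← hu (mt s t i)]
        linear_combination (u i * u (mt s t i)) * tw_two0 (L := L)
  · change tE1 (tsh c d1 d2 d3 d4 d5) = 0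
    rw [tE1_sh, f1]
    linear_combination (3 * c) * tw_two0 (L := L)
  · change tE2 (tsh c d1 d2 d3 d4 d5) = 0
    rw [tE2_sh, f1, ← hc]
    linear_combination (8 * c ^ 2) * tw_two0 (L := L)
  · change tE3 (tsh c d1 d2 d3 d4 d5) = 0
    rw [tE3_sh, f1, f3, ← hc]
    linear_combination (2 * c * c ^ 2 + 10 * c ^ 3) * tw_two0 (L := L)
  · change tE4 (tsh c d1 d2 d3 d4 d5) = b
    rw [tE4_sh, f1, f3, f4, ← hc, ← y6]
    linear_combination (3 * c ^ 2 * c ^ 2 + 8 * c ^ 4) * tw_two0 (L := L)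
  · change tE5 (tsh c d1 d2 d3 d4 d5) = 1
    rw [tE5_sh, f1, f3, f5]
    linear_combination (c * tF4 d1 d2 d3 d4 d5 + 2 * c ^ 3 * tF2 d1 d2 d3 d4 d5 + 3 * c ^ 5) *
      tw_two0 (L := L)

theorem IsRoots.comp {a b : L} {y : Fin 6 → L} (h : IsRoots a b y) (P : Perm (Fin 6)) :
    IsRoots a b (y ∘ P) := by
  unfold IsRoots at h ⊢
  rw [h]
  exact (Equiv.prod_comp P fun i => (X - C (y i))).symm

theorem IsRoots.map {L' : Type*} [Field L'] (f : L →+* L') {a b : L} {y : Fin 6 → L}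
    (h : IsRoots a b y) : IsRoots (f a) (f b) (f ∘ y) := by
  unfold IsRoots at h ⊢
  have h' := congrArg (Polynomial.map f) h
  rw [Polynomial.map_prod] at h'
  simpa using h'

theorem tw_sep_poly (a b : L) : (X ^ 6 + C a * X ^ 2 + X + C b : L[X]).Separable := by
  have h2 : (2 : L[X]) = 0 := by
    rw [← map_ofNat C 2, tw_two0, map_zero]
  have hd : derivative (X ^ 6 + C a * X ^ 2 + X + C b : L[X]) = 1 := by
    simp only [derivative_add, derivative_X_pow, derivative_C_mul, derivative_X, derivative_C]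
    push_cast
    simp only [map_ofNat]
    linear_combination (3 * X ^ 5 + C a * X) * h2
  unfold Polynomial.Separable
  rw [hd]
  exact isCoprime_one_right

theorem IsRoots.injective {a b : L} {y : Fin 6 → L} (h : IsRoots a b y) :
    Function.Injective y := by
  have hs := tw_sep_poly a b
  unfold IsRoots at h
  rw [h] at hs
  exact separable_prod_X_sub_C_iff.1 hs

theorem IsRoots.root_iff {a b : L} {y : Fin 6 → L} (h : IsRoots a b y) (x : L) :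
    x ^ 6 + a * x ^ 2 + x + b = 0 ↔ ∃ i, x = y i := by
  unfold IsRoots at h
  have h' := congrArg (eval x) h
  rw [eval_prod] at h'
  simp only [eval_add, eval_mul, eval_pow, eval_X, eval_C, eval_sub] at h'
  rw [h', Finset.prod_eq_zero_iff]
  simp [sub_eq_zero]

theorem isRoots_unique {a b : L} {y y' : Fin 6 → L} (h : IsRoots a b y) (h' : IsRoots a b y') :
    ∃ P : Perm (Fin 6), y' = y ∘ P := by
  have key : ∀ i, ∃ j, y' i = y j := fun i => (h.root_iff _).1 ((h'.root_iff _).2 ⟨i, rfl⟩)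
  choose P hP using key
  have hinj : Function.Injective P := fun i j hij => h'.injective (by rw [hP, hP, hij])
  exact ⟨Equiv.ofBijective P (Finite.injective_iff_bijective.1 hinj), funext hP⟩

theorem tw_exists_six (f : L[X]) (hf : f.Monic) (hs : f.Splits) (hd : f.natDegree = 6) :
    ∃ y : Fin 6 → L, f = ∏ i, (X - C (y i)) := by
  have hp := hs.eq_prod_roots_of_monic hf
  have hc := hs.natDegree_eq_card_roots
  obtain ⟨l, hl⟩ := Quot.exists_rep f.roots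
  have hl' : f.roots = (l : Multiset L) := hl.symm
  rw [hl'] at hp hc
  have hlen : l.length = 6 := by
    rw [← hd, hc]
    rfl
  refine ⟨fun i => l[(i.cast hlen.symm).1], ?_⟩
  rw [hp, Multiset.map_coe, Multiset.prod_coe, ← Fin.prod_univ_fun_getElem]
  exact Fintype.prod_equiv (finCongr hlen) _ _ fun i => rfl

theorem exists_isRoots [IsSepClosed L] (a b : L) : ∃ y : Fin 6 → L, IsRoots a b y := by
  refine tw_exists_six _ ?_ (IsSepClosed.splits_of_separable _ (tw_sep_poly a b)) ?_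
  · monicity!
  · compute_degree!

theorem TRel.comp {y z : Fin 6 → L} (h : TRel y z) {P Q : Perm (Fin 6)} (hPQ : Cmp P Q) :
    TRel (y ∘ P) (z ∘ Q) := by
  intro s t
  have e : ∀ i, (y ∘ P) i + (y ∘ P) (mt s t i) = (fun i => y i + y (mt (Q s) (Q t) i)) (P i) := by
    intro i
    simp only [Function.comp_apply]
    rw [hPQ s t i]
  rw [Finset.prod_congr rfl fun i _ => e i]
  have e2 := Equiv.prod_comp P (fun i => y i + y (mt (Q s) (Q t) i))
  rw [e2, ← h (Q s) (Q t)]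
  rfl

/-- Differences determine the roots. -/
theorem tw_eq_of_diff {y w : Fin 6 → L} (y1 : tE1 y = 0) (y2 : tE2 y = 0) (w2 : tE2 w = 0)
    (h : ∀ i j, y i + y j = w i + w j) : y = w := by
  have hw : w = fun i => y i + (y 0 + w 0) := by
    funext i
    have := h i 0
    linear_combination this + (- y 0 - y i) * tw_two0 (L := L) + (w i) * tw_two0 (L := L)
  have hc : (y 0 + w 0) ^ 2 = 0 := by
    have h' := w2
    rw [hw, tE2_add, y1, y2] at h'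
    linear_combination h' - 7 * (y 0 + w 0) ^ 2 * tw_two0 (L := L)
  have hc' : y 0 + w 0 = 0 := pow_eq_zero_iff two_ne_zero |>.1 hc
  rw [hc'] at hw
  rw [hw]
  simp

theorem TRel.dual01 {a b : L} {y z : Fin 6 → L} (hy : IsRoots a b y) (h : TRel y z) :
    (y 0 + y 1) ^ 4 = ∏ s, (z s + z (mt 0 1 s)) := by
  obtain ⟨y1, y2, y3, y4, y5, y6⟩ := isRoots_iff.1 hy
  have hP := tw_P_sq (tFk0 y1 y3 y5) (tFk1 y1 y3 y5) (tFk2 y1 y3 y5) (tFk3 y1 y3 y5) (tFk4 y1 y3 y5)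
    (tFk5 y1 y3 y5)
  have r1 : (z 0 + z 1) ^ 4 = ((y 0 + y 1) * (y 2 + y 3) * (y 4 + y 5)) ^ 2 := by
    rw [h 0 1, Fin.prod_univ_six]
    show (y 0 + y 1) * (y 1 + y 0) * (y 2 + y 3) * (y 3 + y 2) * (y 4 + y 5) * (y 5 + y 4) = _
    rw [add_comm (y 1) (y 0), add_comm (y 3) (y 2), add_comm (y 5) (y 4)]
    generalize y 0 + y 1 = p
    generalize y 2 + y 3 = q
    generalize y 4 + y 5 = r
    ring
  have r2 : (z 2 + z 3) ^ 4 = ((y 0 + y 1) * (y 2 + y 5) * (y 3 + y 4)) ^ 2 := by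
    rw [h 2 3, Fin.prod_univ_six]
    show (y 0 + y 1) * (y 1 + y 0) * (y 2 + y 5) * (y 3 + y 4) * (y 4 + y 3) * (y 5 + y 2) = _
    rw [add_comm (y 1) (y 0), add_comm (y 4) (y 3), add_comm (y 5) (y 2)]
    generalize y 0 + y 1 = p
    generalize y 2 + y 5 = q
    generalize y 3 + y 4 = r
    ring
  have r3 : (z 4 + z 5) ^ 4 = ((y 0 + y 1) * (y 2 + y 4) * (y 3 + y 5)) ^ 2 := by
    rw [h 4 5, Fin.prod_univ_six]
    show (y 0 + y 1) * (y 1 + y 0) * (y 2 + y 4) * (y 3 + y 5) * (y 4 + y 2) * (y 5 + y 3) = _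
    rw [add_comm (y 1) (y 0), add_comm (y 4) (y 2), add_comm (y 5) (y 3)]
    generalize y 0 + y 1 = p
    generalize y 2 + y 4 = q
    generalize y 3 + y 5 = r
    ring
  have hT : ∏ s, (z s + z (mt 0 1 s)) = ((z 0 + z 1) * (z 2 + z 3) * (z 4 + z 5)) ^ 2 := by
    rw [Fin.prod_univ_six]
    show (z 0 + z 1) * (z 1 + z 0) * (z 2 + z 3) * (z 3 + z 2) * (z 4 + z 5) * (z 5 + z 4) = _
    rw [add_comm (z 1) (z 0), add_comm (z 3) (z 2), add_comm (z 5) (z 4)]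
    generalize z 0 + z 1 = p
    generalize z 2 + z 3 = q
    generalize z 4 + z 5 = r
    ring
  apply tw_four_inj
  rw [hT]
  generalize z 0 + z 1 = z01 at *
  generalize z 2 + z 3 = z23 at *
  generalize z 4 + z 5 = z45 at *
  generalize y 0 + y 1 = w01 at *
  generalize y 2 + y 3 = w23 at *
  generalize y 2 + y 4 = w24 at *
  generalize y 2 + y 5 = w25 at *
  generalize y 3 + y 4 = w34 at *
  generalize y 3 + y 5 = w35 at *
  generalize y 4 + y 5 = w45 at *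
  symm
  calc ((z01 * z23 * z45) ^ 2) ^ 4 = (z01 ^ 4 * z23 ^ 4 * z45 ^ 4) ^ 2 := by ring
    _ = w01 ^ 12 * ((w23 * w24 * w25 * w34 * w35 * w45) ^ 2) ^ 2 := by
      rw [r1, r2, r3]; ring
    _ = (w01 ^ 4) ^ 4 := by rw [hP]; ring

/-- The transposition of two points and the corresponding permutation of the totals. -/
def ttr (i j : Fin 6) : Perm (Fin 6) := ⟨mt i j, mt i j, mt_mt i j, mt_mt i j⟩

theorem tw_cmp_swap : ∀ i j : Fin 6, i ≠ j → Cmp (swap i j) (ttr i j) := by decide +kernel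

theorem tw_exists_cmp_two : ∀ i j : Fin 6, i ≠ j → ∃ P Q : Perm (Fin 6), Cmp P Q ∧ P 0 = i ∧ P 1 = j := by
  have h1 : ∀ i : Fin 6, ∃ P Q : Perm (Fin 6), Cmp P Q ∧ P 0 = i := by
    intro i
    rcases eq_or_ne (0 : Fin 6) i with rfl | hi
    · exact ⟨1, 1, Cmp.one, rfl⟩
    · exact ⟨_, _, tw_cmp_swap 0 i hi, swap_apply_left 0 i⟩
  intro i j hij
  obtain ⟨P, Q, hPQ, hP⟩ := h1 i
  rcases eq_or_ne (P 1) j with hj | hj
  · exact ⟨P, Q, hPQ, hP, hj⟩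
  · refine ⟨_, _, (tw_cmp_swap (P 1) j hj).mul hPQ, ?_, ?_⟩
    · rw [Perm.mul_apply, hP, swap_apply_of_ne_of_ne _ hij]
      intro h
      have : P 0 = P 1 := by rw [hP, h]
      exact absurd (P.injective this) (by decide)
    · rw [Perm.mul_apply, swap_apply_left]

/-- Duality. -/
theorem TRel.dual {a b : L} {y z : Fin 6 → L} (hy : IsRoots a b y) (h : TRel y z) : TRel z y := by
  intro i j
  rcases eq_or_ne i j with rfl | hij
  · have e1 : y i + y i = 0 := by linear_combination (y i) * tw_two0 (L := L)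
    have e2 : ∏ s, (z s + z (mt i i s)) = 0 := by
      apply Finset.prod_eq_zero (Finset.mem_univ 0)
      rw [mt_self]
      linear_combination (z 0) * tw_two0 (L := L)
    rw [e1, e2]
    ring
  · obtain ⟨P, Q, hPQ, h0, h1⟩ := tw_exists_cmp_two i j hij
    have hd := TRel.dual01 (hy.comp P) (h.comp hPQ)
    simp only [Function.comp_apply] at hd
    rw [h0, h1] at hd
    rw [hd]
    have e : ∀ s, z (Q s) + z (Q (mt 0 1 s)) = (fun s => z s + z (mt i j s)) (Q s) := by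
      intro s
      simp only
      rw [hPQ.symm 0 1 s, h0, h1]
    rw [Finset.prod_congr rfl fun i _ => e i]
    exact Equiv.prod_comp Q (fun s => z s + z (mt i j s))

theorem Twin.unique {a b : L} {y z z' : Fin 6 → L} (h : Twin a b y z) (h' : Twin a b y z') :
    z = z' := by
  obtain ⟨z1, z2, -, -, -, -⟩ := isRoots_iff.1 h.2.1
  obtain ⟨w1, w2, -, -, -, -⟩ := isRoots_iff.1 h'.2.1
  exact tw_eq_of_diff z1 z2 w2 fun s t => tw_four_inj (by rw [h.2.2 s t, h'.2.2 s t])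

theorem Twin.symm {a b : L} {y z : Fin 6 → L} (h : Twin a b y z) : Twin b a z y :=
  ⟨h.2.1, h.1, TRel.dual h.1 h.2.2⟩

theorem Twin.comp {a b : L} {y z : Fin 6 → L} (h : Twin a b y z) {P Q : Perm (Fin 6)}
    (hPQ : Cmp P Q) : Twin a b (y ∘ P) (z ∘ Q) :=
  ⟨h.1.comp P, h.2.1.comp Q, TRel.comp h.2.2 hPQ⟩

theorem Twin.map {L' : Type*} [Field L'] (f : L →+* L') {a b : L} {y z : Fin 6 → L}
    (h : Twin a b y z) : Twin (f a) (f b) (f ∘ y) (f ∘ z) := by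
  refine ⟨h.1.map f, h.2.1.map f, fun s t => ?_⟩
  have := congrArg f (h.2.2 s t)
  rw [map_prod, map_pow, map_add] at this
  simpa only [Function.comp_apply, map_add] using this

theorem Twin.ne {a b : L} {y z : Fin 6 → L} (h : Twin a b y z) (hab : a ≠ b) (i s : Fin 6) :
    y i ≠ z s := by
  intro hx
  have h1 := (h.1.root_iff (y i)).2 ⟨i, rfl⟩
  have h2 := (h.2.1.root_iff (y i)).2 ⟨s, hx⟩
  have h3 : (a + b) * (y i + 1) ^ 2 = 0 := by
    linear_combination h1 + h2 - (y i ^ 6 + y i - (a + b) * y i) * tw_two0 (L := L)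
  have hab' : a + b ≠ 0 := by
    intro h0
    exact hab (by linear_combination h0 - b * tw_two0 (L := L))
  have h4 : y i + 1 = 0 := by
    rcases mul_eq_zero.1 h3 with h | h
    · exact absurd h hab'
    · exact pow_eq_zero_iff two_ne_zero |>.1 h
  have h5 : y i = 1 := by linear_combination h4 - tw_two0 (L := L)
  rw [h5] at h1
  exact hab' (by linear_combination h1 - tw_two0 (L := L))

/-- Existence of the twin over a field with all square roots. -/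
theorem tw_exists_twin_aux (hsq : ∀ x : L, ∃ r, r ^ 2 = x) {a b : L} {y : Fin 6 → L}
    (hy : IsRoots a b y) : ∃ z, Twin a b y z := by
  obtain ⟨y1, y2, y3, y4, y5, y6⟩ := isRoots_iff.1 hy
  obtain ⟨z, hz, z1, z2, z3, z4, z5⟩ := tw_construct hsq hy
  have hz' : IsRoots b (tE6 z) z := isRoots_iff.2 ⟨z1, z2, z3, z4, z5, rfl⟩
  obtain ⟨w, hw, w1, w2, w3, w4, w5⟩ := tw_construct hsq hz'
  have hd : TRel z y := TRel.dual hy hz
  have hyw : y = w := tw_eq_of_diff y1 y2 w2 fun i j => tw_four_inj (by rw [hd i j, hw i j])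
  have ha : tE6 z = a := by rw [← w4, ← hyw, y4]
  rw [ha] at hz'
  exact ⟨z, hy, hz', hz⟩

theorem exists_twin [IsSepClosed L] {a b : L} {y : Fin 6 → L} (h : IsRoots a b y) :
    ∃ z, Twin a b y z := by
  let Ω := AlgebraicClosure L
  let f : L →+* Ω := algebraMap L Ω
  haveI : CharP Ω 2 := charP_of_injective_algebraMap f.injective 2
  obtain ⟨z, hz⟩ := tw_exists_twin_aux (L := Ω) (fun x => IsAlgClosed.exists_pow_nat_eq x two_pos)
    (h.map f)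
  obtain ⟨z', hz'⟩ := exists_isRoots b a
  obtain ⟨P, hP⟩ := isRoots_unique (hz'.map f) hz.2.1
  refine ⟨z' ∘ P, h, hz'.comp P, fun s t => ?_⟩
  apply f.injective
  have := hz.2.2 s t
  rw [hP] at this
  rw [map_prod, map_pow, map_add]
  simpa only [Function.comp_apply, map_add] using this

end char2
end MP7fX
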